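import Pool.Agent.Lib_helper36.AvgConn.Defs
import Pool.Agent.Lib_helper53.HamBase.Menger

/-!
# Basic facts on `κ` and the average connectivity
-/

set_option autoImplicit false

namespace Pool.Agent.AvgConn

open SimpleGraph Finset

variable {V : Type} {G : SimpleGraph V}

lemma HasPaths.mono {v w : V} {k l : ℕ} (h : HasPaths G v w l) (hkl : k ≤ l) :
    HasPaths G v w k := by
  obtain ⟨P, hP⟩ := h
  refine ⟨fun i => P (Fin.castLE hkl i), fun i j hij => hP _ _ ?_⟩
  intro h
  exact hij (Fin.castLE_injective hkl h)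

lemma HasPaths.zero (v w : V) : HasPaths G v w 0 := ⟨fun i => i.elim0, fun i => i.elim0⟩

/-- the second vertices of internally disjoint paths are different -/
lemma snd_inj {v w : V} (hvw : v ≠ w) {P Q : G.Path v w} (hne : P ≠ Q)
    (hd : ∀ x, x ∈ (P : G.Walk v w).support → x ∈ (Q : G.Walk v w).support → x = v ∨ x = w) :
    (P : G.Walk v w).snd ≠ (Q : G.Walk v w).snd := by
  intro he
  obtain ⟨p, hp⟩ := P
  obtain ⟨q, hq⟩ := Q
  simp only at hd he hne
  have hpn : ¬ p.Nil := fun h => hvw h.eq
  have hqn : ¬ q.Nil := fun h => hvw h.eq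
  have h1 : p.snd ∈ p.support := p.getVert_mem_support 1
  have h2 : p.snd ∈ q.support := by
    rw [he]
    exact q.getVert_mem_support 1
  have h3 : p.snd ≠ v := (p.adj_snd hpn).ne'
  have h4 : p.snd = w := (hd _ h1 h2).resolve_left h3
  -- both paths are the edge
  have key : ∀ (r : G.Walk v w), r.IsPath → ¬ r.Nil → r.snd = w → r.length = 1 := by
    intro r hr hrn hs
    cases r with
    | nil => exact absurd rfl hvw
    | cons h t =>
      rw [Walk.snd_cons] at hs
      subst hs
      have := (Walk.cons_isPath_iff _ _).1 hr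
      have h5 := this.1
      rw [Walk.isPath_iff_nil] at h5
      rw [Walk.length_cons, Walk.length_eq_zero_iff.2 h5]
  have e1 := key p hp hpn h4
  have e2 := key q hq hqn (by rw [← he]; exact h4)
  apply hne
  apply Subtype.ext
  show p = q
  cases p with
  | nil => exact absurd rfl hvw
  | cons h t =>
    cases q with
    | nil => exact absurd rfl hvw
    | cons h' t' =>
      simp only [Walk.length_cons, Nat.add_eq_right] at e1 e2
      have f1 := Walk.eq_of_length_eq_zero e1
      have f2 := Walk.eq_of_length_eq_zero e2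
      subst f1
      subst f2
      rw [Walk.length_eq_zero_iff] at e1 e2
      rw [e1.eq_nil, e2.eq_nil]

lemma HasPaths.le_ncard [Finite V] {v w : V} (hvw : v ≠ w) {k : ℕ} (h : HasPaths G v w k) :
    k ≤ (G.neighborSet v).ncard := by
  classical
  obtain ⟨P, hP⟩ := h
  have h1 : (Set.range fun i => (P i : G.Walk v w).snd).ncard = k := by
    rw [Set.ncard_range_of_injective, Nat.card_eq_fintype_card, Fintype.card_fin]
    intro i j hij
    by_contra hne
    exact snd_inj hvw (hP i j hne).1 (hP i j hne).2 hij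
  rw [← h1]
  apply Set.ncard_le_ncard _ (Set.toFinite _)
  rintro x ⟨i, rfl⟩
  exact (P i : G.Walk v w).adj_snd fun h => hvw h.eq

lemma HasPaths.symm {v w : V} {k : ℕ} (h : HasPaths G v w k) : HasPaths G w v k := by
  obtain ⟨P, hP⟩ := h
  refine ⟨fun i => (P i).reverse, fun i j hij => ⟨?_, ?_⟩⟩
  · intro h
    apply (hP i j hij).1
    have := congrArg SimpleGraph.Path.reverse h
    apply Subtype.ext
    have h2 := congrArg Subtype.val this
    simpa using h2
  · intro x hx hy
    simp only [Path.reverse_coe, Walk.support_reverse, List.mem_reverse] at hx hy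
    exact ((hP i j hij).2 x hx hy).symm

lemma HasPaths.le_min [Finite V] {v w : V} (hvw : v ≠ w) {k : ℕ} (h : HasPaths G v w k) :
    k ≤ min (G.neighborSet v).ncard (G.neighborSet w).ncard :=
  Nat.le_min.2 ⟨h.le_ncard hvw, h.symm.le_ncard hvw.symm⟩

lemma bddAbove_hasPaths [Finite V] {v w : V} (hvw : v ≠ w) : BddAbove {k | HasPaths G v w k} :=
  ⟨_, fun _ hk => hk.le_ncard hvw⟩

lemma hasPaths_kap [Finite V] {v w : V} (hvw : v ≠ w) : HasPaths G v w (kap G v w) := by
  have := Nat.sSup_mem (s := {k | HasPaths G v w k}) ⟨0, HasPaths.zero v w⟩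
    (bddAbove_hasPaths hvw)
  exact this

lemma le_kap_iff [Finite V] {v w : V} (hvw : v ≠ w) {k : ℕ} :
    k ≤ kap G v w ↔ HasPaths G v w k :=
  ⟨fun h => (hasPaths_kap hvw).mono h, fun h => le_csSup (bddAbove_hasPaths hvw) h⟩

lemma kap_le_min [Finite V] {v w : V} (hvw : v ≠ w) :
    kap G v w ≤ min (G.neighborSet v).ncard (G.neighborSet w).ncard :=
  (hasPaths_kap hvw).le_min hvw

/-- every pair is joined by as many paths as possible -/
def Ideal (G : SimpleGraph V) : Prop :=
  ∀ v w, v ≠ w → HasPaths G v w (min (G.neighborSet v).ncard (G.neighborSet w).ncard)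

/-- The average connectivity is `B(D)` if and only if all pairs are joined by as many paths as
possible. -/
lemma avgConn_eq_iff {D : List ℕ} (hn : 2 ≤ D.length) (hD : D.Pairwise (· ≥ ·))
    {G : SimpleGraph (Fin D.length)} (hG : Realises D G) : avgConn G = bound D ↔ Ideal G := by
  have hpos : (0 : ℝ) < (D.length : ℝ) * (D.length - 1) / 2 := by
    have : (2 : ℝ) ≤ D.length := by exact_mod_cast hn
    have h2 : (0 : ℝ) < (D.length : ℝ) - 1 := by linarith
    positivity
  -- the bound as a sum over pairs
  have hb : ∑ i : Fin D.length, ((i : ℕ) : ℝ) * (D[i] : ℝ) =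
      ∑ v : Fin D.length, ∑ w ∈ Finset.Ioi v, (min (D[v]) (D[w]) : ℕ) := by
    have h1 : ∀ v : Fin D.length, ∀ w ∈ Finset.Ioi v, min (D[v]) (D[w]) = D[w] := by
      intro v w hw
      rw [Finset.mem_Ioi] at hw
      apply min_eq_right
      have := List.pairwise_iff_getElem.1 hD v w v.2 w.2 hw
      exact this
    rw [Finset.sum_congr rfl fun v _ => Finset.sum_congr rfl (h1 v)]
    push_cast
    rw [Finset.sum_comm' (t' := Finset.univ) (s' := fun w => Finset.Iio w)]
    · apply Finset.sum_congr rfl
      intro w _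
      rw [Finset.sum_const, Fin.card_Iio, nsmul_eq_mul]
    · intro v w
      simp
  unfold avgConn bound
  rw [div_left_inj' hpos.ne', hb]
  have hk : ∀ v : Fin D.length, ∀ w ∈ Finset.Ioi v,
      (kap G v w : ℝ) ≤ ((min (D[v]) (D[w]) : ℕ) : ℝ) := by
    intro v w hw
    rw [Finset.mem_Ioi] at hw
    have := kap_le_min (G := G) hw.ne
    rw [hG v, hG w] at this
    exact_mod_cast this
  push_cast at hk ⊢
  rw [Finset.sum_eq_sum_iff_of_le fun v _ => Finset.sum_le_sum fun w hw => by exact_mod_cast hk v w hw]
  constructor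
  · intro h v w hvw
    have h2 : ∀ v w : Fin D.length, v < w → HasPaths G v w (min (D[v]) (D[w])) := by
      intro v w hlt
      have h3 := h v (Finset.mem_univ _)
      rw [Finset.sum_eq_sum_iff_of_le fun w hw => by exact_mod_cast hk v w hw] at h3
      have h4 := h3 w (Finset.mem_Ioi.2 hlt)
      rw [← le_kap_iff hlt.ne]
      exact_mod_cast h4.ge
    rw [hG v, hG w]
    rcases lt_or_gt_of_ne hvw with hlt | hlt
    · exact h2 v w hlt
    · rw [min_comm]
      exact (h2 w v hlt).symm
  · intro h v _
    apply Finset.sum_congr rfl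
    intro w hw
    have hlt := Finset.mem_Ioi.1 hw
    have h2 := h v w hlt.ne
    rw [hG v, hG w, ← le_kap_iff hlt.ne] at h2
    have h3 := kap_le_min (G := G) hlt.ne
    rw [hG v, hG w] at h3
    exact_mod_cast le_antisymm h3 h2

lemma attainable_iff (D : List ℕ) : Attainable D ↔ 2 ≤ D.length ∧ D.Pairwise (· ≥ ·) ∧
    ∃ G : SimpleGraph (Fin D.length), Realises D G ∧ Ideal G := by
  unfold Attainable
  refine and_congr_right fun hn => and_congr_right fun hD => exists_congr fun G => ?_
  exact and_congr_right fun hG => avgConn_eq_iff hn hD hG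

end Pool.Agent.AvgConn
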