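import Pool.Agent.Lib_helper36.AvgConn.Equiv

/-!
# The graph of a partition into triples
-/

set_option autoImplicit false

namespace Pool.Agent.AvgConn

open SimpleGraph Finset

/-- adjacency in the graph: a clique, paths with three vertices, and edges given by `H` -/
def grAdj {j m : ℕ} (H : Fin j → Fin m × Fin 3 → Prop) :
    Fin j ⊕ (Fin m × Fin 3) → Fin j ⊕ (Fin m × Fin 3) → Prop
  | .inl s, .inl t => s ≠ t
  | .inl s, .inr x => H s x
  | .inr x, .inl s => H s x
  | .inr x, .inr y => x.1 = y.1 ∧ (x.2.val + 1 = y.2.val ∨ y.2.val + 1 = x.2.val)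

/-- the graph with a clique, paths with three vertices, and edges given by `H` -/
def gr {j m : ℕ} (H : Fin j → Fin m × Fin 3 → Prop) : SimpleGraph (Fin j ⊕ (Fin m × Fin 3)) where
  Adj := grAdj H
  symm := ⟨by
    rintro (s | x) (t | y) h
    · exact Ne.symm h
    · exact h
    · exact h
    · exact ⟨h.1.symm, h.2.symm⟩⟩
  loopless := ⟨by
    rintro (s | x) h
    · exact h rfl
    · have := h.2
      omega⟩

variable {j m : ℕ} {H : Fin j → Fin m × Fin 3 → Prop}

lemma gr_ll {s t : Fin j} : (gr H).Adj (.inl s) (.inl t) ↔ s ≠ t := Iff.rfl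
lemma gr_lr {s : Fin j} {x : Fin m × Fin 3} : (gr H).Adj (.inl s) (.inr x) ↔ H s x := Iff.rfl
lemma gr_rl {s : Fin j} {x : Fin m × Fin 3} : (gr H).Adj (.inr x) (.inl s) ↔ H s x := Iff.rfl
lemma gr_rr {x y : Fin m × Fin 3} : (gr H).Adj (.inr x) (.inr y) ↔
    x.1 = y.1 ∧ (x.2.val + 1 = y.2.val ∨ y.2.val + 1 = x.2.val) := Iff.rfl

lemma ncard_sum {α β : Type} [Finite α] [Finite β] (s : Set (α ⊕ β)) :
    s.ncard = (Sum.inl ⁻¹' s).ncard + (Sum.inr ⁻¹' s).ncard := by
  have h : s = Sum.inl '' (Sum.inl ⁻¹' s) ∪ Sum.inr '' (Sum.inr ⁻¹' s) :=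
    (Set.image_preimage_inl_union_image_preimage_inr s).symm
  conv_lhs => rw [h]
  rw [Set.ncard_union_eq _ (Set.toFinite _) (Set.toFinite _),
    Set.ncard_image_of_injective _ Sum.inl_injective,
    Set.ncard_image_of_injective _ Sum.inr_injective]
  rw [Set.disjoint_left]
  rintro _ ⟨a, _, rfl⟩ ⟨b, _, h⟩
  cases h

lemma gr_ncard_l {d : ℕ} (s : Fin j) (hs : {x | H s x}.ncard = d) :
    ((gr H).neighborSet (.inl s)).ncard = j - 1 + d := by
  rw [ncard_sum]
  congr 1
  have : (Sum.inl ⁻¹' (gr H).neighborSet (.inl s)) = ((({s}ᶜ : Finset (Fin j)) : Set (Fin j))) := by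
    ext t
    simp only [Set.mem_preimage, mem_neighborSet, gr_ll, Finset.coe_compl, Finset.coe_singleton,
      Set.mem_compl_iff, Set.mem_singleton_iff]
    exact ⟨Ne.symm, Ne.symm⟩
  rw [this, Set.ncard_coe_finset, Finset.card_compl, Fintype.card_fin, Finset.card_singleton]

lemma gr_ncard_r {d : ℕ} (x : Fin m × Fin 3) (hs : {s | H s x}.ncard = d) :
    ((gr H).neighborSet (.inr x)).ncard = d + if x.2 = 1 then 2 else 1 := by
  rw [ncard_sum]
  congr 1
  have : (Sum.inr ⁻¹' (gr H).neighborSet (.inr x)) =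
      (fun i => (x.1, i)) '' (((univ.filter fun i : Fin 3 => x.2.val + 1 = i.val ∨
        i.val + 1 = x.2.val) : Finset (Fin 3)) : Set (Fin 3)) := by
    ext y
    simp only [Set.mem_preimage, mem_neighborSet, gr_rr, Set.mem_image, Finset.mem_coe,
      Finset.mem_filter, Finset.mem_univ, true_and]
    constructor
    · rintro ⟨h1, h2⟩
      exact ⟨y.2, h2, by rw [h1]⟩
    · rintro ⟨i, h2, rfl⟩
      exact ⟨rfl, h2⟩
  rw [this, Set.ncard_image_of_injective _ (by intro a b h; exact (Prod.mk.inj h).2),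
    Set.ncard_coe_finset]
  have : ∀ i : Fin 3, (univ.filter fun k : Fin 3 => i.val + 1 = k.val ∨ k.val + 1 = i.val).card =
      if i = 1 then 2 else 1 := by decide
  exact this x.2

/-! ### All pairs are joined by as many paths as possible -/

/-- connection inside a group -/
lemma gr_conn (X : Finset (Fin j ⊕ (Fin m × Fin 3))) (v w : Fin j) (c : Fin m)
    (hX : ∀ i, (Sum.inr (c, i)) ∉ X) (i i' : Fin 3) :
    Relation.ReflTransGen (fun p q => (gr H).Adj p q ∧ q ∉ X ∧ q ≠ .inl v ∧ q ≠ .inl w)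
      (.inr (c, i)) (.inr (c, i')) := by
  have step : ∀ i i' : Fin 3, (i.val + 1 = i'.val ∨ i'.val + 1 = i.val) →
      Relation.ReflTransGen (fun p q => (gr H).Adj p q ∧ q ∉ X ∧ q ≠ .inl v ∧ q ≠ .inl w)
      (.inr (c, i)) (.inr (c, i')) := by
    intro i i' h
    apply Relation.ReflTransGen.single
    exact ⟨⟨rfl, h⟩, hX i', by simp, by simp⟩
  have h01 := step 0 1 (by decide)
  have h10 := step 1 0 (by decide)
  have h12 := step 1 2 (by decide)
  have h21 := step 2 1 (by decide)
  fin_cases i <;> fin_cases i'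
  · exact .refl
  · exact h01
  · exact h01.trans h12
  · exact h10
  · exact .refl
  · exact h12
  · exact h21.trans h10
  · exact h21
  · exact .refl

section ideal

variable (h3 : ∀ s c, ∃! i, H s (c, i)) (hne : ∀ x, ∃ s, H s x)

include h3 hne in
open Classical in
/-- the fan from a vertex to the clique -/
lemma fan (x : Fin m × Fin 3) (X : Finset (Fin j ⊕ (Fin m × Fin 3)))
    (v : Fin j ⊕ (Fin m × Fin 3))
    (hX : X.card + (if (gr H).Adj (.inr x) v then 1 else 0) <
      ((gr H).neighborSet (.inr x)).ncard) :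
    ∃ y s, (gr H).Adj (.inr x) y ∧ y ≠ v ∧ y ∉ X ∧ (Sum.inl s : Fin j ⊕ (Fin m × Fin 3)) ∉ X ∧
      (y = .inl s ∨ (gr H).Adj y (.inl s)) := by
  choose t ht using hne
  -- the end of the path through a neighbour
  let T : Fin j ⊕ (Fin m × Fin 3) → Fin j := fun y => Sum.elim id t y
  have hT : ∀ y, y = .inl (T y) ∨ (gr H).Adj y (.inl (T y)) := by
    rintro (s | y)
    · exact Or.inl rfl
    · exact Or.inr (ht y)
  have hinj : ∀ y ∈ (gr H).neighborSet (.inr x), ∀ z ∈ (gr H).neighborSet (.inr x),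
      T y = T z → y = z := by
    have key : ∀ y ∈ (gr H).neighborSet (.inr x), ∃ i, H (T y) (x.1, i) ∧
        ((y = .inl (T y) ∧ i = x.2) ∨ (y = .inr (x.1, i) ∧ i ≠ x.2)) := by
      rintro (s | y) hy
      · exact ⟨x.2, hy, Or.inl ⟨rfl, rfl⟩⟩
      · obtain ⟨h1, h2⟩ := hy
        refine ⟨y.2, ?_, Or.inr ⟨?_, ?_⟩⟩
        · rw [h1]; exact ht y
        · rw [h1]
        · intro h
          rw [h] at h2
          omega
    intro y hy z hz hyz
    obtain ⟨i, h1, h2⟩ := key y hy
    obtain ⟨k, h4, h5⟩ := key z hz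
    rw [hyz] at h1
    obtain rfl := (h3 _ _).unique h1 h4
    rcases h2 with ⟨h2, h6⟩ | ⟨h2, h6⟩ <;> rcases h5 with ⟨h5, h7⟩ | ⟨h5, h7⟩
    · rw [h2, h5, hyz]
    · exact absurd h6 h7
    · exact absurd h7 h6
    · rw [h2, h5]
  by_contra hcon
  push Not at hcon
  -- every neighbour different from `v` gives a member of `X`
  have hf : ∀ y ∈ (gr H).neighborSet (.inr x) \ {v}, ∃ z ∈ X, (z = y ∨ z = .inl (T y)) := by
    rintro y ⟨hy, hyv⟩
    by_contra hc
    push Not at hc
    have h1 : y ∉ X := fun h => (hc y h).1 rfl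
    have h2 : (Sum.inl (T y) : Fin j ⊕ (Fin m × Fin 3)) ∉ X := fun h => (hc _ h).2 rfl
    obtain ⟨h4, h5⟩ := hcon y (T y) hy hyv h1 h2
    rcases hT y with h | h
    · exact h4 h
    · exact h5 h
  choose! g hg hg' using hf
  have hgi : Set.InjOn g ((gr H).neighborSet (.inr x) \ {v}) := by
    intro y hy z hz hyz
    apply hinj y hy.1 z hz.1
    have e1 : ∀ y ∈ (gr H).neighborSet (.inr x) \ {v}, (T (g y) = T y) ∧
        (g y = y ∨ g y = .inl (T y)) := by
      intro y hy
      refine ⟨?_, hg' y hy⟩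
      rcases hg' y hy with h | h
      · rw [h]
      · rw [h]; rfl
    rw [← (e1 y hy).1, ← (e1 z hz).1, hyz]
  have h4 : ((gr H).neighborSet (.inr x) \ {v}).ncard ≤ X.card := by
    rw [← Set.ncard_coe_finset]
    exact Set.ncard_le_ncard_of_injOn g (fun y hy => hg y hy) hgi (Set.toFinite _)
  by_cases hv : (gr H).Adj (.inr x) v
  · have hv' : v ∈ (gr H).neighborSet (.inr x) := hv
    rw [Set.ncard_sdiff_singleton_of_mem hv'] at h4
    rw [if_pos hv] at hX
    omega
  · have hv' : v ∉ (gr H).neighborSet (.inr x) := hv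
    rw [if_neg hv] at hX
    rw [Set.sdiff_singleton_eq_self hv'] at h4
    omega

include h3 hne in
theorem gr_ideal {d : ℕ} (hdeg : ∀ x, ((gr H).neighborSet (.inr x)).ncard ≤ d)
    (hd : ∀ s, ((gr H).neighborSet (.inl s)).ncard = d) (hdj : d = j - 1 + m) : Ideal (gr H) := by
  classical
  -- the fan, as a connection
  have lr : ∀ (s : Fin j) (x : Fin m × Fin 3), HasPaths (gr H) (.inl s) (.inr x)
      ((gr H).neighborSet (.inr x)).ncard := by
    intro s x
    apply hasPaths_of_conn (by simp)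
    intro X hX1 hX2 hcard
    obtain ⟨y, t, h1, h2, h4, h5, h6⟩ := fan h3 hne x X (.inl s) (by
      by_cases hs : H s x
      · rw [if_pos (by exact hs)] at hcard ⊢
        exact hcard
      · rw [if_neg (by exact hs)] at hcard ⊢
        exact hcard)
    by_cases hst : s = t
    · subst hst
      rcases h6 with h6 | h6
      · exact absurd h6 h2
      · exact ⟨y, y, h6.symm, h1.ne', h4, h1.symm, h2, .refl⟩
    · refine ⟨.inl t, y, hst, by simp, h5, h1.symm, h2, ?_⟩
      rcases h6 with h6 | h6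
      · rw [h6]
      · exact Relation.ReflTransGen.single ⟨h6.symm, h4, h2, h1.ne'⟩
  have ll : ∀ s t : Fin j, s ≠ t → HasPaths (gr H) (.inl s) (.inl t) d := by
    intro s t hst
    apply hasPaths_of_conn (by simpa using hst)
    intro X hX1 hX2 hcard
    rw [if_pos (by exact hst)] at hcard
    -- a member of the clique or a group outside `X`
    by_cases h : ∃ p : Fin j, p ≠ s ∧ p ≠ t ∧ (Sum.inl p : Fin j ⊕ (Fin m × Fin 3)) ∉ X
    · obtain ⟨p, h1, h2, h4⟩ := h
      exact ⟨.inl p, .inl p, h1.symm, by simpa using h2, h4, h2, by simpa using h1, .refl⟩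
    · push Not at h
      by_cases h' : ∃ c : Fin m, ∀ i, (Sum.inr (c, i) : Fin j ⊕ (Fin m × Fin 3)) ∉ X
      · obtain ⟨c, hc⟩ := h'
        obtain ⟨i, hi, _⟩ := h3 s c
        obtain ⟨k, hk, _⟩ := h3 t c
        exact ⟨.inr (c, i), .inr (c, k), hi, by simp, hc i, hk, by simp, gr_conn X s t c hc i k⟩
      · push Not at h'
        exfalso
        choose i hi using h'
        -- too many members of `X`
        let F : Fin j ⊕ Fin m → Fin j ⊕ (Fin m × Fin 3) := Sum.map id fun c => (c, i c)
        have hF : Function.Injective F := by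
          apply Sum.map_injective.2
          exact ⟨Function.injective_id, fun a b h => (Prod.mk.inj h).1⟩
        have h4 : (((univ : Finset (Fin j ⊕ Fin m)).erase (.inl s)).erase (.inl t)).image F ⊆ X := by
          intro z hz
          rw [Finset.mem_image] at hz
          obtain ⟨y, hy, rfl⟩ := hz
          rcases y with y | c
          · apply h y
            · rintro rfl
              simp at hy
            · rintro rfl
              simp at hy
          · exact hi c
        have h5 := Finset.card_le_card h4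
        rw [Finset.card_image_of_injective _ hF, Finset.card_erase_of_mem (by simp [hst.symm]),
          Finset.card_erase_of_mem (by simp), Finset.card_univ, Fintype.card_sum,
          Fintype.card_fin, Fintype.card_fin] at h5
        omega
  have rr : ∀ x y : Fin m × Fin 3, x ≠ y → HasPaths (gr H) (.inr x) (.inr y)
      (min ((gr H).neighborSet (.inr x)).ncard ((gr H).neighborSet (.inr y)).ncard) := by
    intro x y hxy
    apply hasPaths_of_conn (by simpa using hxy)
    intro X hX1 hX2 hcard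
    obtain ⟨hcx, hcy⟩ := lt_min_iff.1 hcard
    obtain ⟨p, s, h1, h2, h4, h5, h6⟩ := fan h3 hne x X (.inr y) hcx
    obtain ⟨q, t, g1, g2, g4, g5, g6⟩ := fan h3 hne y X (.inr x) (by
      by_cases hs : (gr H).Adj (.inr x) (.inr y)
      · rw [if_pos hs] at hcy
        rw [if_pos hs.symm]
        exact hcy
      · rw [if_neg hs] at hcy
        rw [if_neg fun h => hs h.symm]
        exact hcy)
    refine ⟨p, q, h1, h2, h4, g1.symm, g2, ?_⟩
    -- `p → s → t → q`
    have e1 : Relation.ReflTransGen (fun p q => (gr H).Adj p q ∧ q ∉ X ∧ q ≠ .inr x ∧ q ≠ .inr y)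
        p (.inl s) := by
      rcases h6 with h6 | h6
      · rw [h6]
      · exact Relation.ReflTransGen.single ⟨h6, h5, by simp, by simp⟩
    have e2 : Relation.ReflTransGen (fun p q => (gr H).Adj p q ∧ q ∉ X ∧ q ≠ .inr x ∧ q ≠ .inr y)
        (.inl s) (.inl t) := by
      by_cases hst : s = t
      · rw [hst]
      · exact Relation.ReflTransGen.single ⟨hst, g5, by simp, by simp⟩
    have e3 : Relation.ReflTransGen (fun p q => (gr H).Adj p q ∧ q ∉ X ∧ q ≠ .inr x ∧ q ≠ .inr y)
        (.inl t) q := by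
      rcases g6 with g6 | g6
      · rw [g6]
      · exact Relation.ReflTransGen.single ⟨g6.symm, g4, g2, g1.ne'⟩
    exact (e1.trans e2).trans e3
  rintro (s | x) (t | y) hne'
  · rw [hd, hd, min_self]
    exact ll s t (by simpa using hne')
  · rw [hd, min_eq_right (hdeg y)]
    exact lr s y
  · rw [hd, min_eq_left (hdeg x)]
    exact (lr t x).symm
  · exact rr x y (by simpa using hne')

end ideal

end Pool.Agent.AvgConn
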