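import Pool.Agent.Lib_helper36.AvgConn.Build

/-!
# The graph of a partition into groups of any size
-/

set_option autoImplicit false

namespace Pool.Agent.AvgConn.Gen

open SimpleGraph Finset

/-- adjacency in the graph: a clique, paths, and edges given by `H` -/
def grAdj {j m : ℕ} {n : Fin m → ℕ} (H : Fin j → (Σ c, Fin (n c)) → Prop) :
    Fin j ⊕ (Σ c, Fin (n c)) → Fin j ⊕ (Σ c, Fin (n c)) → Prop
  | .inl s, .inl t => s ≠ t
  | .inl s, .inr x => H s x
  | .inr x, .inl s => H s x
  | .inr x, .inr y => x.1 = y.1 ∧ (x.2.val + 1 = y.2.val ∨ y.2.val + 1 = x.2.val)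

/-- the graph with a clique, paths, and edges given by `H` -/
def gr {j m : ℕ} {n : Fin m → ℕ} (H : Fin j → (Σ c, Fin (n c)) → Prop) :
    SimpleGraph (Fin j ⊕ (Σ c, Fin (n c))) where
  Adj := grAdj H
  symm := ⟨by
    rintro (s | x) (t | y) h
    · exact Ne.symm h
    · exact h
    · exact h
    · exact ⟨h.1.symm, h.2.symm⟩⟩
  loopless := ⟨by
    rintro (s | x) h
    · exact h rfl
    · have := h.2
      omega⟩

variable {j m : ℕ} {n : Fin m → ℕ} {H : Fin j → (Σ c, Fin (n c)) → Prop}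

lemma gr_ll {s t : Fin j} : (gr H).Adj (.inl s) (.inl t) ↔ s ≠ t := Iff.rfl
lemma gr_lr {s : Fin j} {x : Σ c, Fin (n c)} : (gr H).Adj (.inl s) (.inr x) ↔ H s x := Iff.rfl
lemma gr_rl {s : Fin j} {x : Σ c, Fin (n c)} : (gr H).Adj (.inr x) (.inl s) ↔ H s x := Iff.rfl
lemma gr_rr {x y : Σ c, Fin (n c)} : (gr H).Adj (.inr x) (.inr y) ↔
    x.1 = y.1 ∧ (x.2.val + 1 = y.2.val ∨ y.2.val + 1 = x.2.val) := Iff.rfl

lemma gr_ncard_l {d : ℕ} (s : Fin j) (hs : {x | H s x}.ncard = d) :
    ((gr H).neighborSet (.inl s)).ncard = j - 1 + d := by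
  rw [ncard_sum]
  congr 1
  have : (Sum.inl ⁻¹' (gr H).neighborSet (.inl s)) = ((({s}ᶜ : Finset (Fin j)) : Set (Fin j))) := by
    ext t
    simp only [Set.mem_preimage, mem_neighborSet, gr_ll, Finset.coe_compl, Finset.coe_singleton,
      Set.mem_compl_iff, Set.mem_singleton_iff]
    exact ⟨Ne.symm, Ne.symm⟩
  rw [this, Set.ncard_coe_finset, Finset.card_compl, Fintype.card_fin, Finset.card_singleton]

/-- the degree of a vertex of a path -/
def dT (n i : ℕ) : ℕ := (if i + 1 < n then 1 else 0) + if 0 < i then 1 else 0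

lemma card_dT {k : ℕ} (i : Fin k) :
    (univ.filter fun y : Fin k => i.val + 1 = y.val ∨ y.val + 1 = i.val).card = dT k i := by
  rw [Finset.filter_or, card_union_of_disjoint]
  · unfold dT
    congr 1
    · split_ifs with h
      · rw [card_eq_one]
        refine ⟨⟨i + 1, h⟩, ?_⟩
        ext y
        rw [mem_filter, mem_singleton, Fin.ext_iff]
        exact ⟨fun h => h.2.symm, fun h => ⟨mem_univ _, h.symm⟩⟩
      · rw [card_eq_zero, filter_eq_empty_iff]
        intro y _ hy
        have := y.2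
        omega
    · split_ifs with h
      · rw [card_eq_one]
        refine ⟨⟨i - 1, by have := i.2; omega⟩, ?_⟩
        ext y
        rw [mem_filter, mem_singleton, Fin.ext_iff]
        constructor
        · intro hh
          show y.val = i.val - 1
          omega
        · intro hh
          have : y.val = i.val - 1 := hh
          exact ⟨mem_univ _, by omega⟩
      · rw [card_eq_zero, filter_eq_empty_iff]
        intro y _ hy
        omega
  · rw [Finset.disjoint_left]
    intro y hy hy'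
    rw [mem_filter] at hy hy'
    omega

lemma gr_ncard_r {d : ℕ} (x : Σ c, Fin (n c)) (hs : {s | H s x}.ncard = d) :
    ((gr H).neighborSet (.inr x)).ncard = d + dT (n x.1) x.2 := by
  rw [ncard_sum]
  congr 1
  obtain ⟨c, i⟩ := x
  have : (Sum.inr ⁻¹' (gr H).neighborSet (.inr ⟨c, i⟩)) =
      (fun k => (⟨c, k⟩ : Σ c, Fin (n c))) '' (((univ.filter fun k : Fin (n c) =>
        i.val + 1 = k.val ∨ k.val + 1 = i.val) : Finset (Fin (n c))) : Set (Fin (n c))) := by
    ext y
    obtain ⟨c', k⟩ := y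
    simp only [Set.mem_preimage, mem_neighborSet, gr_rr, Set.mem_image, Finset.mem_coe,
      Finset.mem_filter, Finset.mem_univ, true_and]
    constructor
    · rintro ⟨h1, h2⟩
      subst h1
      exact ⟨k, h2, rfl⟩
    · rintro ⟨k', h2, h3⟩
      obtain ⟨rfl, h4⟩ := Sigma.mk.inj h3
      obtain rfl := eq_of_heq h4
      exact ⟨rfl, h2⟩
  rw [this, Set.ncard_image_of_injective _ (by
    intro a b h
    exact eq_of_heq (Sigma.mk.inj h).2), Set.ncard_coe_finset, card_dT]

lemma sum_dT {k : ℕ} (hk : 1 ≤ k) : ∑ i : Fin k, dT k i + 2 = 2 * k := by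
  have h1 : ∑ i : Fin k, dT k i = ∑ i ∈ range k, dT k i := Fin.sum_univ_eq_sum_range (dT k) k
  rw [h1]
  unfold dT
  rw [Finset.sum_add_distrib]
  obtain ⟨k, rfl⟩ : ∃ k', k = k' + 1 := ⟨k - 1, by omega⟩
  have h2 : ∑ i ∈ range (k + 1), (if i + 1 < k + 1 then 1 else 0) = k := by
    rw [Finset.sum_range_succ, if_neg (by omega), Nat.add_zero]
    rw [Finset.sum_congr rfl fun i hi => if_pos (by rw [mem_range] at hi; omega)]
    simp
  have h3 : ∑ i ∈ range (k + 1), (if 0 < i then 1 else 0) = k := by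
    rw [Finset.sum_range_succ']
    simp
  rw [h2, h3]
  omega

/-! ### All pairs are joined by as many paths as possible -/

/-- connection inside a group -/
lemma gr_conn (X : Finset (Fin j ⊕ (Σ c, Fin (n c)))) (v w : Fin j) (c : Fin m)
    (hX : ∀ i, (Sum.inr ⟨c, i⟩) ∉ X) (i i' : Fin (n c)) :
    Relation.ReflTransGen (fun p q => (gr H).Adj p q ∧ q ∉ X ∧ q ≠ .inl v ∧ q ≠ .inl w)
      (.inr ⟨c, i⟩) (.inr ⟨c, i'⟩) := by
  have step : ∀ i i' : Fin (n c), (i.val + 1 = i'.val ∨ i'.val + 1 = i.val) →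
      (fun p q => (gr H).Adj p q ∧ q ∉ X ∧ q ≠ .inl v ∧ q ≠ .inl w)
      (.inr ⟨c, i⟩) (.inr ⟨c, i'⟩) := by
    intro i i' h
    exact ⟨⟨rfl, h⟩, hX i', by simp, by simp⟩
  have key : ∀ k (h : k < n c), Relation.ReflTransGen
      (fun p q => (gr H).Adj p q ∧ q ∉ X ∧ q ≠ .inl v ∧ q ≠ .inl w)
      (.inr ⟨c, ⟨0, by omega⟩⟩) (.inr ⟨c, ⟨k, h⟩⟩) ∧ Relation.ReflTransGen
      (fun p q => (gr H).Adj p q ∧ q ∉ X ∧ q ≠ .inl v ∧ q ≠ .inl w)
      (.inr ⟨c, ⟨k, h⟩⟩) (.inr ⟨c, ⟨0, by omega⟩⟩) := by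
    intro k
    induction k with
    | zero => intro h; exact ⟨.refl, .refl⟩
    | succ k ih =>
      intro h
      obtain ⟨i1, i2⟩ := ih (by omega)
      exact ⟨i1.tail (step _ _ (Or.inl rfl)), i2.head (step _ _ (Or.inr rfl))⟩
  exact (key i.1 i.2).2.trans (key i'.1 i'.2).1

section ideal

variable (h3 : ∀ s c, ∃! i, H s ⟨c, i⟩) (hne : ∀ x, ∃ s, H s x)

include h3 hne in
open Classical in
/-- the fan from a vertex to the clique -/
lemma fan (x : Σ c, Fin (n c)) (X : Finset (Fin j ⊕ (Σ c, Fin (n c))))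
    (v : Fin j ⊕ (Σ c, Fin (n c)))
    (hX : X.card + (if (gr H).Adj (.inr x) v then 1 else 0) <
      ((gr H).neighborSet (.inr x)).ncard) :
    ∃ y s, (gr H).Adj (.inr x) y ∧ y ≠ v ∧ y ∉ X ∧ (Sum.inl s : Fin j ⊕ (Σ c, Fin (n c))) ∉ X ∧
      (y = .inl s ∨ (gr H).Adj y (.inl s)) := by
  choose t ht using hne
  -- the end of the path through a neighbour
  let T : Fin j ⊕ (Σ c, Fin (n c)) → Fin j := fun y => Sum.elim id t y
  have hT : ∀ y, y = .inl (T y) ∨ (gr H).Adj y (.inl (T y)) := by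
    rintro (s | y)
    · exact Or.inl rfl
    · exact Or.inr (ht y)
  have hinj : ∀ y ∈ (gr H).neighborSet (.inr x), ∀ z ∈ (gr H).neighborSet (.inr x),
      T y = T z → y = z := by
    have key : ∀ y ∈ (gr H).neighborSet (.inr x), ∃ i, H (T y) ⟨x.1, i⟩ ∧
        ((y = .inl (T y) ∧ i = x.2) ∨ (y = .inr ⟨x.1, i⟩ ∧ i ≠ x.2)) := by
      rintro (s | y) hy
      · exact ⟨x.2, hy, Or.inl ⟨rfl, rfl⟩⟩
      · obtain ⟨c', k⟩ := y
        obtain ⟨h1, h2⟩ := hy
        simp only at h1
        subst h1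
        refine ⟨k, ht _, Or.inr ⟨rfl, ?_⟩⟩
        intro h
        subst h
        simp at h2
    intro y hy z hz hyz
    obtain ⟨i, h1, h2⟩ := key y hy
    obtain ⟨k, h4, h5⟩ := key z hz
    rw [hyz] at h1
    obtain rfl := (h3 _ _).unique h1 h4
    rcases h2 with ⟨h2, h6⟩ | ⟨h2, h6⟩ <;> rcases h5 with ⟨h5, h7⟩ | ⟨h5, h7⟩
    · rw [h2, h5, hyz]
    · exact absurd h6 h7
    · exact absurd h7 h6
    · rw [h2, h5]
  by_contra hcon
  push Not at hcon
  -- every neighbour different from `v` gives a member of `X`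
  have hf : ∀ y ∈ (gr H).neighborSet (.inr x) \ {v}, ∃ z ∈ X, (z = y ∨ z = .inl (T y)) := by
    rintro y ⟨hy, hyv⟩
    by_contra hc
    push Not at hc
    have h1 : y ∉ X := fun h => (hc y h).1 rfl
    have h2 : (Sum.inl (T y) : Fin j ⊕ (Σ c, Fin (n c))) ∉ X := fun h => (hc _ h).2 rfl
    obtain ⟨h4, h5⟩ := hcon y (T y) hy hyv h1 h2
    rcases hT y with h | h
    · exact h4 h
    · exact h5 h
  choose! g hg hg' using hf
  have hgi : Set.InjOn g ((gr H).neighborSet (.inr x) \ {v}) := by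
    intro y hy z hz hyz
    apply hinj y hy.1 z hz.1
    have e1 : ∀ y ∈ (gr H).neighborSet (.inr x) \ {v}, (T (g y) = T y) ∧
        (g y = y ∨ g y = .inl (T y)) := by
      intro y hy
      refine ⟨?_, hg' y hy⟩
      rcases hg' y hy with h | h
      · rw [h]
      · rw [h]; rfl
    rw [← (e1 y hy).1, ← (e1 z hz).1, hyz]
  have h4 : ((gr H).neighborSet (.inr x) \ {v}).ncard ≤ X.card := by
    rw [← Set.ncard_coe_finset]
    exact Set.ncard_le_ncard_of_injOn g (fun y hy => hg y hy) hgi (Set.toFinite _)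
  by_cases hv : (gr H).Adj (.inr x) v
  · have hv' : v ∈ (gr H).neighborSet (.inr x) := hv
    rw [Set.ncard_sdiff_singleton_of_mem hv'] at h4
    rw [if_pos hv] at hX
    omega
  · have hv' : v ∉ (gr H).neighborSet (.inr x) := hv
    rw [if_neg hv] at hX
    rw [Set.sdiff_singleton_eq_self hv'] at h4
    omega

include h3 hne in
theorem gr_ideal {d : ℕ} (hdeg : ∀ x, ((gr H).neighborSet (.inr x)).ncard ≤ d)
    (hd : ∀ s, ((gr H).neighborSet (.inl s)).ncard = d) (hdj : d = j - 1 + m) : Ideal (gr H) := by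
  classical
  -- the fan, as a connection
  have lr : ∀ (s : Fin j) (x : Σ c, Fin (n c)), HasPaths (gr H) (.inl s) (.inr x)
      ((gr H).neighborSet (.inr x)).ncard := by
    intro s x
    apply hasPaths_of_conn (by simp)
    intro X hX1 hX2 hcard
    obtain ⟨y, t, h1, h2, h4, h5, h6⟩ := fan h3 hne x X (.inl s) (by
      by_cases hs : H s x
      · rw [if_pos (by exact hs)] at hcard ⊢
        exact hcard
      · rw [if_neg (by exact hs)] at hcard ⊢
        exact hcard)
    by_cases hst : s = t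
    · subst hst
      rcases h6 with h6 | h6
      · exact absurd h6 h2
      · exact ⟨y, y, h6.symm, h1.ne', h4, h1.symm, h2, .refl⟩
    · refine ⟨.inl t, y, hst, by simp, h5, h1.symm, h2, ?_⟩
      rcases h6 with h6 | h6
      · rw [h6]
      · exact Relation.ReflTransGen.single ⟨h6.symm, h4, h2, h1.ne'⟩
  have ll : ∀ s t : Fin j, s ≠ t → HasPaths (gr H) (.inl s) (.inl t) d := by
    intro s t hst
    apply hasPaths_of_conn (by simpa using hst)
    intro X hX1 hX2 hcard
    rw [if_pos (by exact hst)] at hcard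
    -- a member of the clique or a group outside `X`
    by_cases h : ∃ p : Fin j, p ≠ s ∧ p ≠ t ∧ (Sum.inl p : Fin j ⊕ (Σ c, Fin (n c))) ∉ X
    · obtain ⟨p, h1, h2, h4⟩ := h
      exact ⟨.inl p, .inl p, h1.symm, by simpa using h2, h4, h2, by simpa using h1, .refl⟩
    · push Not at h
      by_cases h' : ∃ c : Fin m, ∀ i, (Sum.inr ⟨c, i⟩ : Fin j ⊕ (Σ c, Fin (n c))) ∉ X
      · obtain ⟨c, hc⟩ := h'
        obtain ⟨i, hi, _⟩ := h3 s c
        obtain ⟨k, hk, _⟩ := h3 t c
        exact ⟨.inr ⟨c, i⟩, .inr ⟨c, k⟩, hi, by simp, hc i, hk, by simp, gr_conn X s t c hc i k⟩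
      · push Not at h'
        exfalso
        choose i hi using h'
        -- too many members of `X`
        let F : Fin j ⊕ Fin m → Fin j ⊕ (Σ c, Fin (n c)) := Sum.map id fun c => ⟨c, i c⟩
        have hF : Function.Injective F := by
          apply Sum.map_injective.2
          exact ⟨Function.injective_id, fun a b h => (Sigma.mk.inj h).1⟩
        have h4 : (((univ : Finset (Fin j ⊕ Fin m)).erase (.inl s)).erase (.inl t)).image F ⊆ X := by
          intro z hz
          rw [Finset.mem_image] at hz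
          obtain ⟨y, hy, rfl⟩ := hz
          rcases y with y | c
          · apply h y
            · rintro rfl
              simp at hy
            · rintro rfl
              simp at hy
          · exact hi c
        have h5 := Finset.card_le_card h4
        rw [Finset.card_image_of_injective _ hF, Finset.card_erase_of_mem (by simp [hst.symm]),
          Finset.card_erase_of_mem (by simp), Finset.card_univ, Fintype.card_sum,
          Fintype.card_fin, Fintype.card_fin] at h5
        omega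
  have rr : ∀ x y : Σ c, Fin (n c), x ≠ y → HasPaths (gr H) (.inr x) (.inr y)
      (min ((gr H).neighborSet (.inr x)).ncard ((gr H).neighborSet (.inr y)).ncard) := by
    intro x y hxy
    apply hasPaths_of_conn (by simpa using hxy)
    intro X hX1 hX2 hcard
    obtain ⟨hcx, hcy⟩ := lt_min_iff.1 hcard
    obtain ⟨p, s, h1, h2, h4, h5, h6⟩ := fan h3 hne x X (.inr y) hcx
    obtain ⟨q, t, g1, g2, g4, g5, g6⟩ := fan h3 hne y X (.inr x) (by
      by_cases hs : (gr H).Adj (.inr x) (.inr y)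
      · rw [if_pos hs] at hcy
        rw [if_pos hs.symm]
        exact hcy
      · rw [if_neg hs] at hcy
        rw [if_neg fun h => hs h.symm]
        exact hcy)
    refine ⟨p, q, h1, h2, h4, g1.symm, g2, ?_⟩
    -- `p → s → t → q`
    have e1 : Relation.ReflTransGen (fun p q => (gr H).Adj p q ∧ q ∉ X ∧ q ≠ .inr x ∧ q ≠ .inr y)
        p (.inl s) := by
      rcases h6 with h6 | h6
      · rw [h6]
      · exact Relation.ReflTransGen.single ⟨h6, h5, by simp, by simp⟩
    have e2 : Relation.ReflTransGen (fun p q => (gr H).Adj p q ∧ q ∉ X ∧ q ≠ .inr x ∧ q ≠ .inr y)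
        (.inl s) (.inl t) := by
      by_cases hst : s = t
      · rw [hst]
      · exact Relation.ReflTransGen.single ⟨hst, g5, by simp, by simp⟩
    have e3 : Relation.ReflTransGen (fun p q => (gr H).Adj p q ∧ q ∉ X ∧ q ≠ .inr x ∧ q ≠ .inr y)
        (.inl t) q := by
      rcases g6 with g6 | g6
      · rw [g6]
      · exact Relation.ReflTransGen.single ⟨g6.symm, g4, g2, g1.ne'⟩
    exact (e1.trans e2).trans e3
  rintro (s | x) (t | y) hne'
  · rw [hd, hd, min_self]
    exact ll s t (by simpa using hne')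
  · rw [hd, min_eq_right (hdeg y)]
    exact lr s y
  · rw [hd, min_eq_left (hdeg x)]
    exact (lr t x).symm
  · exact rr x y (by simpa using hne')

end ideal

end Pool.Agent.AvgConn.Gen
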