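import Pool.Agent.Lib_helper36.AvgConn.Switch

/-!
# Existence of good graphs with given degrees
-/

set_option autoImplicit false

namespace Pool.Agent.AvgConn

open SimpleGraph Finset

variable {V ι : Type} {row : V → ι} {H : SimpleGraph V}

lemma even_sum_dg [Fintype V] (H : SimpleGraph V) : Even (∑ v, dg H v) := by
  classical
  have h := H.sum_degrees_eq_twice_card_edges
  have h2 : ∑ v, dg H v = ∑ v, H.degree v := by
    apply Finset.sum_congr rfl
    intro v _
    unfold dg SimpleGraph.degree
    congr 1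
    ext w
    simp
  rw [h2, h]
  exact even_two_mul _

lemma bad_self (u : V) : Bad row H u u := Or.inl rfl

open Classical in
/-- the number of ordered pairs of adjacent vertices with first member in a set -/
lemma card_pairs [Fintype V] (H : SimpleGraph V) (P : V → Prop) :
    (univ.filter fun p : V × V => H.Adj p.1 p.2 ∧ P p.1).card = ∑ x ∈ univ.filter P, dg H x := by
  rw [Finset.card_filter, Fintype.sum_prod_type, Finset.sum_filter]
  apply Finset.sum_congr rfl
  intro x _
  by_cases hx : P x
  · rw [if_pos hx]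
    unfold dg
    rw [Finset.card_filter]
    simp [hx]
  · simp [hx]

open Classical in
lemma card_pairs' [Fintype V] (H : SimpleGraph V) (P : V → Prop) :
    (univ.filter fun p : V × V => H.Adj p.1 p.2 ∧ P p.2).card = ∑ x ∈ univ.filter P, dg H x := by
  rw [← card_pairs]
  apply Finset.card_bij (fun p _ => (p.2, p.1))
  · intro p hp
    rw [mem_filter] at hp ⊢
    exact ⟨mem_univ _, hp.2.1.symm, hp.2.2⟩
  · rintro ⟨a, b⟩ _ ⟨c, d⟩ _ h
    simp only [Prod.mk.injEq] at h
    rw [h.1, h.2]
  · rintro ⟨a, b⟩ hp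
    rw [mem_filter] at hp
    exact ⟨(b, a), by rw [mem_filter]; exact ⟨mem_univ _, hp.2.1.symm, hp.2.2⟩, rfl⟩

open Classical in
lemma step [Fintype V] {H₀ : SimpleGraph V} (hH : Good row H) (h0 : H₀ ≤ H) {f : V → ℕ}
    (hdeg : ∀ v, dg H v ≤ f v) (hlt : ∑ v, dg H v < ∑ v, f v) (heven : Even (∑ v, f v)) {β : ℕ}
    (hβ : ∀ u, ∑ x ∈ univ.filter (Bad row H u), f x ≤ β)
    (hS : 5 * β + ∑ v, dg H₀ v < ∑ v, f v) :
    ∃ H' : SimpleGraph V, Good row H' ∧ H₀ ≤ H' ∧ (∀ v, dg H' v ≤ f v) ∧
      ∑ v, dg H v < ∑ v, dg H' v := by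
  by_cases hA : ∃ u w, dg H u < f u ∧ dg H w < f w ∧ ¬ Bad row H u w
  · obtain ⟨u, w, hu, hw, hb⟩ := hA
    unfold Bad at hb
    push Not at hb
    obtain ⟨b1, b2, b3⟩ := hb
    have huw : u ≠ w := by
      rintro rfl
      exact b1 rfl
    have hnadj : ¬ H.Adj u w := fun h => b3 w h rfl
    refine ⟨H ⊔ edge u w, hH.add b1.symm b2 b3, h0.trans le_sup_left, ?_, ?_⟩
    · intro v
      rw [dg_add huw hnadj]
      split_ifs with h
      · rcases h with rfl | rfl
        · exact hu
        · exact hw
      · exact hdeg v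
    · rw [Finset.sum_congr rfl fun v _ => dg_add huw hnadj v, Finset.sum_add_distrib, sum_two huw]
      omega
  · push Not at hA
    -- a deficient vertex
    obtain ⟨u, -, hu⟩ := Finset.exists_lt_of_sum_lt hlt
    have hdef : ∑ v, f v ≤ ∑ v, dg H v + β := by
      rw [← Finset.sum_filter_add_sum_filter_not univ (fun x => Bad row H u x) f]
      have e1 : ∑ x ∈ univ.filter (fun x => Bad row H u x), f x ≤ β := hβ u
      have e2 : ∑ x ∈ univ.filter (fun x => ¬ Bad row H u x), f x ≤ ∑ v, dg H v := by
        refine le_trans (Finset.sum_le_sum (g := fun x => dg H x) ?_)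
          (Finset.sum_le_sum_of_subset (Finset.filter_subset _ _))
        intro x hx
        rw [mem_filter] at hx
        by_contra hc
        exact hx.2 (hA u x hu (not_le.1 hc))
      omega
    have hw : ∃ w, (w ≠ u ∧ dg H w < f w) ∨ (w = u ∧ dg H u + 2 ≤ f u) := by
      by_contra hc
      push Not at hc
      have e1 : ∀ w, w ≠ u → f w = dg H w := fun w hw => le_antisymm ((hc w).1 hw) (hdeg w)
      have e2 := (hc u).2 rfl
      have e3 : ∑ v, f v = ∑ v, dg H v + 1 := by
        have e7 : ∑ v, f v = f u + ∑ x ∈ univ.erase u, f x :=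
          (Finset.add_sum_erase univ f (mem_univ u)).symm
        have e8 : ∑ v, dg H v = dg H u + ∑ x ∈ univ.erase u, dg H x :=
          (Finset.add_sum_erase univ (fun v => dg H v) (mem_univ u)).symm
        have e9 : ∑ x ∈ univ.erase u, f x = ∑ x ∈ univ.erase u, dg H x :=
          Finset.sum_congr rfl fun x hx => e1 x (Finset.ne_of_mem_erase hx)
        omega
      have e4 := even_sum_dg H
      rw [e3] at heven
      exact (Nat.not_even_iff_odd.2 e4.add_one) heven
    obtain ⟨w, hw⟩ := hw
    -- an edge to switch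
    have hxy : ∃ x y, H.Adj x y ∧ ¬ H₀.Adj x y ∧ ¬ Bad row H u x ∧ ¬ Bad row H w x ∧
        ¬ Bad row H u y ∧ ¬ Bad row H w y := by
      by_contra hc
      push Not at hc
      have hsub : (univ.filter fun p : V × V => H.Adj p.1 p.2) ⊆
          (univ.filter fun p : V × V => H₀.Adj p.1 p.2) ∪
          ((univ.filter fun p : V × V => H.Adj p.1 p.2 ∧ Bad row H u p.1) ∪
          ((univ.filter fun p : V × V => H.Adj p.1 p.2 ∧ Bad row H w p.1) ∪
          ((univ.filter fun p : V × V => H.Adj p.1 p.2 ∧ Bad row H u p.2) ∪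
          (univ.filter fun p : V × V => H.Adj p.1 p.2 ∧ Bad row H w p.2)))) := by
        intro p hp
        rw [mem_filter] at hp
        have h1 := hc p.1 p.2 hp.2
        simp only [mem_union, mem_filter, mem_univ, true_and]
        by_cases c0 : H₀.Adj p.1 p.2
        · exact Or.inl c0
        by_cases c1 : Bad row H u p.1
        · exact Or.inr (Or.inl ⟨hp.2, c1⟩)
        by_cases c2 : Bad row H w p.1
        · exact Or.inr (Or.inr (Or.inl ⟨hp.2, c2⟩))
        by_cases c3 : Bad row H u p.2
        · exact Or.inr (Or.inr (Or.inr (Or.inl ⟨hp.2, c3⟩)))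
        · exact Or.inr (Or.inr (Or.inr (Or.inr ⟨hp.2, h1 c0 c1 c2 c3⟩)))
      have hcard := Finset.card_le_card hsub
      have hb : ∀ u, ∑ x ∈ univ.filter (Bad row H u), dg H x ≤ β := fun u =>
        (Finset.sum_le_sum fun x _ => hdeg x).trans (hβ u)
      have k1 : (univ.filter fun p : V × V => H.Adj p.1 p.2).card = ∑ v, dg H v := by
        simpa using card_pairs H (fun _ => True)
      have k2 : (univ.filter fun p : V × V => H₀.Adj p.1 p.2).card = ∑ v, dg H₀ v := by
        simpa using card_pairs H₀ (fun _ => True)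
      have k3 := card_pairs H (Bad row H u)
      have k4 := card_pairs H (Bad row H w)
      have k5 := card_pairs' H (Bad row H u)
      have k6 := card_pairs' H (Bad row H w)
      have l1 := hb u
      have l2 := hb w
      have m1 := Finset.card_union_le (univ.filter fun p : V × V => H₀.Adj p.1 p.2)
          ((univ.filter fun p : V × V => H.Adj p.1 p.2 ∧ Bad row H u p.1) ∪
          ((univ.filter fun p : V × V => H.Adj p.1 p.2 ∧ Bad row H w p.1) ∪
          ((univ.filter fun p : V × V => H.Adj p.1 p.2 ∧ Bad row H u p.2) ∪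
          (univ.filter fun p : V × V => H.Adj p.1 p.2 ∧ Bad row H w p.2))))
      have m2 := Finset.card_union_le (univ.filter fun p : V × V => H.Adj p.1 p.2 ∧ Bad row H u p.1)
          ((univ.filter fun p : V × V => H.Adj p.1 p.2 ∧ Bad row H w p.1) ∪
          ((univ.filter fun p : V × V => H.Adj p.1 p.2 ∧ Bad row H u p.2) ∪
          (univ.filter fun p : V × V => H.Adj p.1 p.2 ∧ Bad row H w p.2)))
      have m3 := Finset.card_union_le (univ.filter fun p : V × V => H.Adj p.1 p.2 ∧ Bad row H w p.1)
          ((univ.filter fun p : V × V => H.Adj p.1 p.2 ∧ Bad row H u p.2) ∪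
          (univ.filter fun p : V × V => H.Adj p.1 p.2 ∧ Bad row H w p.2))
      have m4 := Finset.card_union_le (univ.filter fun p : V × V => H.Adj p.1 p.2 ∧ Bad row H u p.2)
          (univ.filter fun p : V × V => H.Adj p.1 p.2 ∧ Bad row H w p.2)
      omega
    obtain ⟨x, y, hadj, hadj0, bux, bwx, buy, bwy⟩ := hxy
    have hxu : x ≠ u := fun h => bux (by rw [h]; exact bad_self u)
    have hxw : x ≠ w := fun h => bwx (by rw [h]; exact bad_self w)
    have hyu : y ≠ u := fun h => buy (by rw [h]; exact bad_self u)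
    have hyw : y ≠ w := fun h => bwy (by rw [h]; exact bad_self w)
    unfold Bad at bux bwx buy bwy
    push Not at bux bwx buy bwy
    set H₁ := H \ edge x y with hH₁
    have hle1 : H₁ ≤ H := sdiff_le
    have g1 : Good row H₁ := hH.mono hle1
    have n1 : ¬ H₁.Adj u x := fun h => bux.2.2 x (hle1 h) rfl
    set H₂ := H₁ ⊔ edge u x with hH₂
    have g2 : Good row H₂ := g1.add bux.1.symm (fun z hz => bux.2.1 z (hle1 hz))
      (fun z hz => bux.2.2 z (hle1 hz))
    have c1 : ∀ z, H₂.Adj y z → row z ≠ row w := by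
      intro z hz
      rw [hH₂, sup_adj, edge_adj] at hz
      rcases hz with hz | ⟨⟨h1, -⟩ | ⟨h1, -⟩, -⟩
      · exact bwy.2.1 z (hle1 hz)
      · exact absurd h1 hyu
      · exact absurd h1 hadj.ne'
    have c2 : ∀ z, H₂.Adj w z → row z ≠ row y := by
      intro z hz
      rw [hH₂, sup_adj, edge_adj] at hz
      rcases hz with hz | ⟨⟨-, h1⟩ | ⟨h1, -⟩, -⟩
      · exact bwy.2.2 z (hle1 hz)
      · rw [h1]
        exact hH.ne x y hadj
      · exact absurd h1 hxw.symm
    have n2 : ¬ H₂.Adj w y := fun h => c2 y h rfl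
    have g3 : Good row (H₂ ⊔ edge w y) := g2.add bwy.1.symm c1 c2
    have d1 : ∀ v, dg H v = dg H₁ v + if v = x ∨ v = y then 1 else 0 := dg_rem hadj
    have d2 : ∀ v, dg H₂ v = dg H₁ v + if v = u ∨ v = x then 1 else 0 := dg_add hxu.symm n1
    have d3 : ∀ v, dg (H₂ ⊔ edge w y) v = dg H₂ v + if v = w ∨ v = y then 1 else 0 :=
      dg_add hyw.symm n2
    refine ⟨H₂ ⊔ edge w y, g3, ?_, ?_, ?_⟩
    · have : H₀ ≤ H₁ := by
        intro a b hab
        rw [hH₁, sdiff_adj, edge_adj]
        refine ⟨h0 hab, ?_⟩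
        rintro ⟨⟨rfl, rfl⟩ | ⟨rfl, rfl⟩, -⟩
        · exact hadj0 hab
        · exact hadj0 hab.symm
      exact (this.trans le_sup_left).trans le_sup_left
    · intro v
      have e1 := d1 v
      have e2 := d2 v
      have e3 := d3 v
      have e4 := hdeg v
      by_cases vx : v = x
      · subst vx
        have t1 : ¬ (v = w ∨ v = y) := by
          rintro (h | h)
          · exact hxw h
          · exact hadj.ne h
        rw [if_neg t1] at e3
        rw [if_pos (Or.inl rfl)] at e1
        rw [if_pos (Or.inr rfl)] at e2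
        omega
      by_cases vy : v = y
      · subst vy
        have t1 : ¬ (v = u ∨ v = x) := by
          rintro (h | h)
          · exact hyu h
          · exact vx h
        rw [if_pos (Or.inr rfl)] at e1 e3
        rw [if_neg t1] at e2
        omega
      have t1 : ¬ (v = x ∨ v = y) := by
        rintro (h | h)
        · exact vx h
        · exact vy h
      rw [if_neg t1] at e1
      by_cases vu : v = u
      · subst vu
        rw [if_pos (Or.inl rfl)] at e2
        rcases hw with ⟨hw1, hw2⟩ | ⟨hw1, hw2⟩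
        · have t2 : ¬ (v = w ∨ v = y) := by
            rintro (h | h)
            · exact hw1 h.symm
            · exact vy h
          rw [if_neg t2] at e3
          omega
        · rw [if_pos (Or.inl hw1.symm)] at e3
          omega
      · have t2 : ¬ (v = u ∨ v = x) := by
          rintro (h | h)
          · exact vu h
          · exact vx h
        rw [if_neg t2] at e2
        by_cases vw : v = w
        · rw [if_pos (Or.inl vw)] at e3
          rcases hw with ⟨hw1, hw2⟩ | ⟨hw1, hw2⟩
          · rw [← vw] at hw2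
            omega
          · exact absurd (vw.trans hw1) vu
        · have t3 : ¬ (v = w ∨ v = y) := by
            rintro (h | h)
            · exact vw h
            · exact vy h
          rw [if_neg t3] at e3
          omega
    · have s1 : ∑ v, dg H v = ∑ v, dg H₁ v + 2 := by
        rw [Finset.sum_congr rfl fun v _ => d1 v, Finset.sum_add_distrib, sum_two hadj.ne]
      have s2 : ∑ v, dg H₂ v = ∑ v, dg H₁ v + 2 := by
        rw [Finset.sum_congr rfl fun v _ => d2 v, Finset.sum_add_distrib, sum_two hxu.symm]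
      have s3 : ∑ v, dg (H₂ ⊔ edge w y) v = ∑ v, dg H₂ v + 2 := by
        rw [Finset.sum_congr rfl fun v _ => d3 v, Finset.sum_add_distrib, sum_two hyw.symm]
      omega

open Classical in
/-- **Existence of good graphs.** -/
theorem exists_good [Fintype V] {H₀ : SimpleGraph V} (hH : Good row H₀) {f : V → ℕ}
    (hdeg : ∀ v, dg H₀ v ≤ f v) (heven : Even (∑ v, f v)) {Δ s : ℕ} (hf : ∀ v, f v ≤ Δ)
    (hs : ∀ u, ∑ v ∈ univ.filter (fun v => row v = row u), f v ≤ s)
    (hS : 5 * ((1 + 2 * Δ) * s) + ∑ v, dg H₀ v < ∑ v, f v) :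
    ∃ H : SimpleGraph V, Good row H ∧ H₀ ≤ H ∧ ∀ v, dg H v = f v := by
  have key : ∀ k (H : SimpleGraph V), Good row H → H₀ ≤ H → (∀ v, dg H v ≤ f v) →
      ∑ v, f v - ∑ v, dg H v = k → ∃ H : SimpleGraph V, Good row H ∧ H₀ ≤ H ∧ ∀ v, dg H v = f v := by
    intro k
    induction k using Nat.strong_induction_on with
    | _ k ih =>
      intro H h1 h2 h3 h4
      have h5 : ∑ v, dg H v ≤ ∑ v, f v := Finset.sum_le_sum fun v _ => h3 v
      rcases Nat.eq_or_lt_of_le h5 with h6 | h6
      · refine ⟨H, h1, h2, fun v => ?_⟩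
        exact (Finset.sum_eq_sum_iff_of_le fun v _ => h3 v).1 h6 v (mem_univ v)
      · obtain ⟨H', a1, a2, a3, a4⟩ := step h1 h2 h3 h6 heven (fun u => sum_bad h3 hf hs u) hS
        have h7 : ∑ v, dg H' v ≤ ∑ v, f v := Finset.sum_le_sum fun v _ => a3 v
        exact ih (∑ v, f v - ∑ v, dg H' v) (by omega) H' a1 a2 a3 rfl
  exact key _ H₀ hH le_rfl hdeg rfl

end Pool.Agent.AvgConn
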