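import Pool.Agent.Lib_helper36.AvgConn.Rows
import Pool.Agent.Lib_helper36.AvgConn.Exist

/-!
# The construction for sequences with many entries at least three
-/

set_option autoImplicit false

namespace Pool.Agent.AvgConn

open SimpleGraph Finset

/-! ### Rows -/

section perm

variable {n R : ℕ}

/-- the next vertex in the row -/
def sg (n R : ℕ) (i : Fin n) : Fin n :=
  if h : i.val + R < n then ⟨i.val + R, h⟩ else ⟨i.val % R, (Nat.mod_le _ _).trans_lt i.2⟩

lemma sg_injective (hR : 1 ≤ R) : Function.Injective (sg n R) := by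
  intro i j hij
  unfold sg at hij
  have hi := i.2
  have hj := j.2
  have mi := Nat.mod_lt i.val hR
  have mj := Nat.mod_lt j.val hR
  split_ifs at hij with h1 h2 h2
  · have := congrArg Fin.val hij
    simp only at this
    exact Fin.ext (by omega)
  · have := congrArg Fin.val hij
    simp only at this
    omega
  · have := congrArg Fin.val hij
    simp only at this
    omega
  · have h3 := congrArg Fin.val hij
    simp only at h3
    -- congruent and close to each other
    have e1 := Nat.mod_add_div i.val R
    have e2 := Nat.mod_add_div j.val R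
    apply Fin.ext
    rcases lt_trichotomy (i.val / R) (j.val / R) with h4 | h4 | h4
    · have : R * (i.val / R + 1) ≤ R * (j.val / R) := Nat.mul_le_mul_left _ h4
      rw [Nat.mul_add, Nat.mul_one] at this
      omega
    · rw [h4] at e1
      omega
    · have : R * (j.val / R + 1) ≤ R * (i.val / R) := Nat.mul_le_mul_left _ h4
      rw [Nat.mul_add, Nat.mul_one] at this
      omega

/-- the permutation whose cycles are the rows -/
noncomputable def sp (n R : ℕ) (hR : 1 ≤ R) : Equiv.Perm (Fin n) :=
  Equiv.ofBijective (sg n R) (Finite.injective_iff_bijective.1 (sg_injective hR))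

lemma sp_val (hR : 1 ≤ R) (i : Fin n) :
    (sp n R hR i).val = if i.val + R < n then i.val + R else i.val % R := by
  show (sg n R i).val = _
  unfold sg
  split_ifs <;> rfl

lemma sp_mod (hR : 1 ≤ R) (i : Fin n) : (sp n R hR i).val % R = i.val % R := by
  rw [sp_val]
  split_ifs
  · rw [Nat.add_mod_right]
  · rw [Nat.mod_mod]

lemma sp_pow (hR : 1 ≤ R) {ρ : ℕ} (hρ : ρ < n) (c : ℕ) (h : ρ + c * R < n) :
    ((sp n R hR) ^ c) ⟨ρ, hρ⟩ = ⟨ρ + c * R, h⟩ := by
  induction c with
  | zero => simp
  | succ c ih =>
    have h' : ρ + c * R < n := by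
      rw [Nat.succ_mul] at h
      omega
    rw [pow_succ', Equiv.Perm.mul_apply, ih h']
    apply Fin.ext
    rw [sp_val]
    have h'' : ρ + c * R + R < n := by
      rw [Nat.succ_mul] at h
      omega
    show (if ρ + c * R + R < n then ρ + c * R + R else _) = ρ + (c + 1) * R
    rw [if_pos h'', Nat.succ_mul]
    omega

lemma sp_same (hR : 1 ≤ R) (i j : Fin n) :
    i.val % R = j.val % R ↔ (sp n R hR).SameCycle i j := by
  constructor
  · intro h
    have key : ∀ i : Fin n, (sp n R hR).SameCycle ⟨i.val % R, (Nat.mod_le _ _).trans_lt i.2⟩ i := by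
      intro i
      have e1 : i.val % R + i.val / R * R = i.val := by
        rw [Nat.mul_comm]
        exact Nat.mod_add_div _ _
      refine ⟨(i.val / R : ℕ), ?_⟩
      rw [zpow_natCast, sp_pow hR _ _ (by rw [e1]; exact i.2)]
      exact Fin.ext e1
    have e2 : (⟨i.val % R, (Nat.mod_le _ _).trans_lt i.2⟩ : Fin n) =
        ⟨j.val % R, (Nat.mod_le _ _).trans_lt j.2⟩ := Fin.ext h
    have k1 := key i
    rw [e2] at k1
    exact k1.symm.trans (key j)
  · intro h
    obtain ⟨t, ht⟩ := h.exists_nat_pow_eq
    subst ht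
    have key : ∀ t, (((sp n R hR) ^ t) i).val % R = i.val % R := by
      intro t
      induction t with
      | zero => simp
      | succ t ih => rw [pow_succ', Equiv.Perm.mul_apply, sp_mod, ih]
    exact (key t).symm

end perm

/-! ### Rungs -/

section rungs

variable {n R T : ℕ}

/-- there is a rung from `i` to `i + 1` -/
def rung (R T i : ℕ) : Prop := i < 2 * T * R ∧ (i + 1) % R ≠ 0 ∧ (i / R) % 2 = i % 2

/-- the graph of the rungs -/
def rungs (n R T : ℕ) : SimpleGraph (Fin n) where
  Adj i j := (j.val = i.val + 1 ∧ rung R T i.val) ∨ (i.val = j.val + 1 ∧ rung R T j.val)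
  symm := ⟨fun i j h => h.symm⟩
  loopless := ⟨fun i h => by omega⟩

lemma mod_succ (hR : 1 ≤ R) {i : ℕ} (h : (i + 1) % R ≠ 0) :
    (i + 1) % R = i % R + 1 ∧ (i + 1) / R = i / R := by
  have e1 := Nat.mod_add_div i R
  have m1 := Nat.mod_lt i hR
  rcases Nat.lt_or_ge (i % R + 1) R with h1 | h1
  · have e2 : i + 1 = (i % R + 1) + R * (i / R) := by omega
    constructor
    · conv_lhs => rw [e2]
      rw [Nat.add_mul_mod_self_left, Nat.mod_eq_of_lt h1]
    · conv_lhs => rw [e2]
      rw [Nat.add_mul_div_left _ _ hR, Nat.div_eq_of_lt h1, Nat.zero_add]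
  · exfalso
    apply h
    have e2 : i + 1 = R * (i / R + 1) := by
      rw [Nat.mul_add, Nat.mul_one]
      omega
    rw [e2, Nat.mul_mod_right]

lemma rungs_unique (hR : 1 ≤ R) {v x y : Fin n} (hx : (rungs n R T).Adj v x)
    (hy : (rungs n R T).Adj v y) : x = y := by
  apply Fin.ext
  rcases hx with ⟨h1, h2⟩ | ⟨h1, h2⟩ <;> rcases hy with ⟨h3, h4⟩ | ⟨h3, h4⟩
  · omega
  · exfalso
    have h5 := mod_succ hR h4.2.1
    rw [← h3] at h5
    have := h2.2.2
    have := h4.2.2
    rw [h5.2] at *
    omega
  · exfalso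
    have h5 := mod_succ hR h2.2.1
    rw [← h1] at h5
    have := h2.2.2
    have := h4.2.2
    rw [h5.2] at *
    omega
  · omega

lemma rungs_good (hR : 1 ≤ R) : Good (fun i : Fin n => i.val % R) (rungs n R T) := by
  refine ⟨?_, fun v x y hx hy _ => rungs_unique hR hx hy⟩
  rintro v w (⟨h1, h2⟩ | ⟨h1, h2⟩)
  · have := (mod_succ hR h2.2.1).1
    show v.val % R ≠ w.val % R
    rw [h1, this]
    omega
  · have := (mod_succ hR h2.2.1).1
    show v.val % R ≠ w.val % R
    rw [h1, this]
    omega

lemma rungs_lt {v w : Fin n} (h : (rungs n R T).Adj v w) : v.val < 2 * T * R := by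
  rcases h with ⟨h1, h2⟩ | ⟨h1, h2⟩
  · exact h2.1
  · have h3 := h2.1
    have h4 := h2.2.1
    rcases Nat.lt_or_ge (w.val + 1) (2 * T * R) with h5 | h5
    · omega
    · exfalso
      have : w.val + 1 = 2 * T * R := by omega
      rw [this, Nat.mul_mod_left] at h4
      exact h4 rfl

lemma dg_rungs (hR : 1 ≤ R) (v : Fin n) :
    dg (rungs n R T) v ≤ if v.val < 2 * T * R then 1 else 0 := by
  classical
  unfold dg
  split_ifs with h
  · rw [card_le_one]
    intro x hx y hy
    rw [mem_filter] at hx hy
    exact rungs_unique hR hx.2 hy.2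
  · rw [Nat.le_zero, card_eq_zero, filter_eq_empty_iff]
    intro x _ hx
    exact h (rungs_lt hx)

lemma sum_dg_rungs (hR : 1 ≤ R) : ∑ v, dg (rungs n R T) v ≤ 2 * T * R := by
  refine (Finset.sum_le_sum fun v _ => dg_rungs hR v).trans ?_
  rw [← Finset.card_filter]
  have h1 : (univ.filter fun v : Fin n => v.val < 2 * T * R).card ≤ (range (2 * T * R)).card := by
    apply Finset.card_le_card_of_injOn (fun v => v.val)
    · intro v hv
      rw [mem_coe, mem_filter] at hv
      rw [mem_coe, mem_range]
      exact hv.2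
    · intro v _ w _ h
      exact Fin.ext h
  rwa [card_range] at h1

/-- a block of two columns is connected -/
lemma block_conn {G : SimpleGraph (Fin n)} (hR : 1 ≤ R) (hR2 : Even R)
    (hG1 : ∀ i j : Fin n, j.val = i.val + R → G.Adj i j)
    (hG2 : rungs n R T ≤ G) (hn : 2 * T * R ≤ n) {c : ℕ} (hc : c < T) :
    ∀ p q : Fin n, p.val / (2 * R) = c → q.val / (2 * R) = c →
    Relation.ReflTransGen (fun p q => G.Adj p q ∧ p.val / (2 * R) = c ∧ q.val / (2 * R) = c) p q := by
  have hlt : ∀ x, x < 2 * R → 2 * c * R + x < n := by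
    intro x hx
    have : 2 * (c + 1) * R ≤ 2 * T * R := Nat.mul_le_mul_right _ (Nat.mul_le_mul_left _ hc)
    have e : 2 * (c + 1) * R = 2 * c * R + 2 * R := by ring
    omega
  have hdiv : ∀ x, x < 2 * R → (2 * c * R + x) / (2 * R) = c := by
    intro x hx
    rw [show 2 * c * R + x = x + (2 * R) * c by ring, Nat.add_mul_div_left _ _ (by omega),
      Nat.div_eq_of_lt hx, Nat.zero_add]
  let P : ∀ x, x < 2 * R → Fin n := fun x hx => ⟨2 * c * R + x, hlt x hx⟩
  have hPc : ∀ x hx, (P x hx).val / (2 * R) = c := hdiv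
  set r := fun p q : Fin n => G.Adj p q ∧ p.val / (2 * R) = c ∧ q.val / (2 * R) = c with hr
  have symm : ∀ a b, Relation.ReflTransGen r a b → Relation.ReflTransGen r b a := by
    intro a b hab
    induction hab with
    | refl => exact .refl
    | tail _ h ih => exact ih.head ⟨h.1.symm, h.2.2, h.2.1⟩
  obtain ⟨R', hR'⟩ := hR2
  have key : ∀ ρ (h : ρ < R), Relation.ReflTransGen r (P 0 (by omega)) (P ρ (by omega)) ∧
      Relation.ReflTransGen r (P 0 (by omega)) (P (R + ρ) (by omega)) := by
    intro ρ
    induction ρ with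
    | zero =>
      intro h
      refine ⟨.refl, Relation.ReflTransGen.single ⟨hG1 _ _ ?_, hPc _ (by omega), hPc _ (by omega)⟩⟩
      show 2 * c * R + (R + 0) = 2 * c * R + 0 + R
      omega
    | succ ρ ih =>
      intro h
      obtain ⟨i1, i2⟩ := ih (by omega)
      have hcol : r (P (ρ + 1) (by omega)) (P (R + (ρ + 1)) (by omega)) := by
        refine ⟨hG1 _ _ ?_, hPc _ (by omega), hPc _ (by omega)⟩
        show 2 * c * R + (R + (ρ + 1)) = 2 * c * R + (ρ + 1) + R
        omega
      have hbound : 2 * (c + 1) * R ≤ 2 * T * R :=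
        Nat.mul_le_mul_right _ (Nat.mul_le_mul_left _ hc)
      have hexp : 2 * (c + 1) * R = 2 * c * R + 2 * R := by ring
      rcases Nat.even_or_odd' ρ with ⟨s, hs | hs⟩
      · -- a rung in the first column
        have hrung : rung R T (2 * c * R + ρ) := by
          refine ⟨by omega, ?_, ?_⟩
          · rw [show 2 * c * R + ρ + 1 = (ρ + 1) + R * (2 * c) by ring,
              Nat.add_mul_mod_self_left, Nat.mod_eq_of_lt h]
            omega
          · have e1 : (2 * c * R + ρ) / R = 2 * c := by
              rw [show 2 * c * R + ρ = ρ + R * (2 * c) by ring, Nat.add_mul_div_left _ _ hR,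
                Nat.div_eq_of_lt (by omega), Nat.zero_add]
            rw [e1]
            have e2 : (2 * c * R + ρ) % 2 = ρ % 2 := by
              rw [show 2 * c * R + ρ = ρ + 2 * (c * R) by ring, Nat.add_mul_mod_self_left]
            rw [e2]
            omega
        have hstep : r (P ρ (by omega)) (P (ρ + 1) (by omega)) :=
          ⟨hG2 (Or.inl ⟨rfl, hrung⟩), hPc _ (by omega), hPc _ (by omega)⟩
        exact ⟨i1.tail hstep, (i1.tail hstep).tail hcol⟩
      · -- a rung in the second column
        have hrung : rung R T (2 * c * R + (R + ρ)) := by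
          refine ⟨by omega, ?_, ?_⟩
          · rw [show 2 * c * R + (R + ρ) + 1 = (ρ + 1) + R * (2 * c + 1) by ring,
              Nat.add_mul_mod_self_left, Nat.mod_eq_of_lt h]
            omega
          · have e1 : (2 * c * R + (R + ρ)) / R = 2 * c + 1 := by
              rw [show 2 * c * R + (R + ρ) = ρ + R * (2 * c + 1) by ring,
                Nat.add_mul_div_left _ _ hR, Nat.div_eq_of_lt (by omega), Nat.zero_add]
            rw [e1]
            have e2 : (2 * c * R + (R + ρ)) % 2 = ρ % 2 := by
              rw [show 2 * c * R + (R + ρ) = ρ + 2 * (c * R + R') by rw [hR']; ring,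
                Nat.add_mul_mod_self_left]
            rw [e2]
            omega
        have hstep : r (P (R + ρ) (by omega)) (P (R + (ρ + 1)) (by omega)) := by
          refine ⟨hG2 (Or.inl ⟨?_, hrung⟩), hPc _ (by omega), hPc _ (by omega)⟩
          show 2 * c * R + (R + (ρ + 1)) = 2 * c * R + (R + ρ) + 1
          omega
        have i3 := i2.tail hstep
        exact ⟨i3.tail ⟨hcol.1.symm, hcol.2.2, hcol.2.1⟩, i3⟩
  have all : ∀ p : Fin n, p.val / (2 * R) = c → Relation.ReflTransGen r (P 0 (by omega)) p := by
    intro p hp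
    have e1 := Nat.mod_add_div p.val (2 * R)
    rw [hp] at e1
    have m1 := Nat.mod_lt p.val (show 0 < 2 * R by omega)
    have e2 : 2 * R * c = 2 * c * R := by ring
    rcases Nat.lt_or_ge (p.val % (2 * R)) R with h | h
    · have h1 := (key _ h).1
      have : P (p.val % (2 * R)) (by omega) = p := by
        apply Fin.ext
        show 2 * c * R + p.val % (2 * R) = p.val
        omega
      rwa [this] at h1
    · have h1 := (key (p.val % (2 * R) - R) (by omega)).2
      have : P (R + (p.val % (2 * R) - R)) (by omega) = p := by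
        apply Fin.ext
        show 2 * c * R + (R + (p.val % (2 * R) - R)) = p.val
        omega
      rwa [this] at h1
  intro p q hp hq
  exact (symm _ _ (all p hp)).trans (all q hq)

end rungs

end Pool.Agent.AvgConn
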