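import Pool.Agent.Lib_helper36.AvgConn.Hard

/-!
# Counting edges in and out of the components
-/

set_option autoImplicit false

namespace Pool.Agent.AvgConn

open SimpleGraph Finset

variable {V : Type} [Fintype V] [DecidableEq V] {G : SimpleGraph V} {S : Finset V}

open Classical in
/-- number of neighbours in `S` -/
noncomputable def dS (G : SimpleGraph V) (S : Finset V) (x : V) : ℕ :=
  (S.filter fun y => G.Adj x y).card

open Classical in
/-- number of neighbours outside `S` -/
noncomputable def dL (G : SimpleGraph V) (S : Finset V) (x : V) : ℕ :=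
  (Sᶜ.filter fun y => G.Adj x y).card

lemma deg_eq (x : V) : (G.neighborSet x).ncard = dS G S x + dL G S x := by
  classical
  have h : G.neighborSet x = ((univ.filter fun y => G.Adj x y : Finset V) : Set V) := by
    ext y; simp
  rw [h, Set.ncard_coe_finset, dS, dL]
  rw [← card_filter_add_card_filter_not (s := univ.filter fun y => G.Adj x y) (fun y => y ∈ S)]
  congr 1
  · congr 1
    ext y
    simp [and_comm]
  · congr 1
    ext y
    simp [and_comm]

variable [Fintype (low G S).ConnectedComponent]

open Classical in
lemma sum_comp (f : V → ℕ) :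
    ∑ C : (low G S).ConnectedComponent, ∑ x ∈ univ.filter (fun x => In C x), f x =
      ∑ x ∈ Sᶜ, f x := by
  rw [← sum_biUnion]
  · apply sum_congr _ fun _ _ => rfl
    ext x
    simp only [mem_biUnion, mem_univ, true_and, mem_filter, mem_compl]
    constructor
    · rintro ⟨C, hC⟩
      exact hC.not_mem
    · intro hx
      exact exists_in hx
  · intro C _ D _ hCD
    rw [Function.onFun, Finset.disjoint_left]
    intro x hx hx'
    exact hCD ((mem_filter.1 hx).2.unique (mem_filter.1 hx').2)

open Classical in
lemma sum_sN (a : V) : ∑ C : (low G S).ConnectedComponent, sN C a = dL G S a := by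
  have h := sum_comp (G := G) (S := S) fun x => if G.Adj a x then 1 else 0
  have h1 : ∀ C : (low G S).ConnectedComponent,
      ∑ x ∈ univ.filter (fun x => In C x), (if G.Adj a x then 1 else 0) = sN C a := by
    intro C
    rw [← sum_filter, filter_filter, ← card_eq_sum_ones, sN]
  rw [sum_congr rfl fun C _ => h1 C] at h
  rw [h, dL, card_filter]

open Classical in
omit [DecidableEq V] [Fintype (low G S).ConnectedComponent] in
lemma sum_sN_eq (C : (low G S).ConnectedComponent) :
    ∑ a ∈ S, sN C a = ∑ x ∈ univ.filter (fun x => In C x), dS G S x := by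
  unfold sN dS
  have h1 : ∀ a, (univ.filter fun x => In C x ∧ G.Adj a x).card =
      ∑ x ∈ univ.filter (fun x => In C x), if G.Adj a x then 1 else 0 := by
    intro a
    rw [← sum_filter, filter_filter, ← card_eq_sum_ones]
  rw [sum_congr rfl fun a _ => h1 a, sum_comm]
  apply sum_congr rfl
  intro x _
  rw [card_filter]
  apply sum_congr rfl
  intro a _
  simp only [G.adj_comm]

open Classical in
omit [Fintype (low G S).ConnectedComponent] in
/-- A component is connected, so it has many edges. -/
lemma comp_edges (C : (low G S).ConnectedComponent) :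
    2 * (univ.filter fun x => In C x).card ≤
      ∑ x ∈ univ.filter (fun x => In C x), dL G S x + 2 := by
  have hconn := C.connected_toSimpleGraph
  have h1 := hconn.card_vert_le_card_edgeSet_add_one
  have h2 := C.toSimpleGraph.sum_degrees_eq_twice_card_edges
  -- the embedding of the component into `V`
  let e : C → V := fun x => x.1.1
  have he : Function.Injective e := by
    intro x y hxy
    exact Subtype.ext (Subtype.ext hxy)
  have himg : (univ : Finset C).image e = univ.filter fun x => In C x := by
    ext x
    simp only [mem_image, mem_univ, true_and, mem_filter, e]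
    constructor
    · rintro ⟨⟨⟨y, hy⟩, hyC⟩, rfl⟩
      exact ⟨hy, hyC⟩
    · rintro ⟨hx, hxC⟩
      exact ⟨⟨⟨x, hx⟩, hxC⟩, rfl⟩
  have h3 : (univ.filter fun x => In C x).card = Nat.card C := by
    rw [← himg, card_image_of_injective _ he, card_univ, Nat.card_eq_fintype_card]
  have h4 : ∑ x : C, C.toSimpleGraph.degree x ≤
      ∑ x ∈ univ.filter (fun x => In C x), dL G S x := by
    rw [← himg, sum_image fun x _ y _ h => he h]
    apply sum_le_sum
    intro x _
    rw [← card_neighborFinset_eq_degree]
    unfold dL
    apply card_le_card_of_injOn e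
    · intro y hy
      have hy' : C.toSimpleGraph.Adj x y := by simpa using hy
      refine mem_filter.2 ⟨mem_compl.2 y.1.2, ?_⟩
      exact hy'
    · intro y _ z _ h
      exact he h
  have h5 : Nat.card C.toSimpleGraph.edgeSet = C.toSimpleGraph.edgeFinset.card := by
    rw [Nat.card_eq_fintype_card, edgeFinset_card]
  rw [h3]
  omega

omit [Fintype V] [Fintype (low G S).ConnectedComponent] in
lemma T_le (s : V → ℕ) : ∑ a ∈ S, ∑ b ∈ S.erase a, min (s a) (s b) ≤
    (S.card - 1) * ∑ a ∈ S, s a := by
  rw [mul_sum]
  apply sum_le_sum
  intro a ha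
  refine (sum_le_sum fun b _ => min_le_left _ _).trans ?_
  rw [sum_const, card_erase_of_mem ha, smul_eq_mul]

omit [Fintype V] [Fintype (low G S).ConnectedComponent] in
lemma T_add_le (s : V → ℕ) : ∑ a ∈ S, ∑ b ∈ S.erase a, min (s a) (s b) + ∑ a ∈ S, s a ≤
    (∑ a ∈ S, s a) * ∑ a ∈ S, s a := by
  rw [sum_mul_sum, ← sum_add_distrib]
  apply sum_le_sum
  intro a ha
  rw [← Finset.sum_erase_add _ _ ha]
  apply add_le_add
  · apply sum_le_sum
    intro b _
    rcases Nat.eq_zero_or_pos (s a) with h | h
    · simp [h]
    · rcases Nat.eq_zero_or_pos (s b) with h' | h'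
      · simp [h']
      · exact (min_le_left _ _).trans (Nat.le_mul_of_pos_right _ h')
  · rcases Nat.eq_zero_or_pos (s a) with h | h
    · simp [h]
    · exact Nat.le_mul_of_pos_right _ h

end Pool.Agent.AvgConn
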