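import Pool.Agent.Lib_helper36.AvgConn.Menger

/-!
# Transport of graphs along bijections
-/

set_option autoImplicit false

namespace Pool.Agent.AvgConn

open SimpleGraph Finset

/-- a bijection between two finite sets with functions of equal fibre sizes -/
lemma exists_equiv {α β : Type} [Fintype α] [Fintype β] (f : α → ℕ) (g : β → ℕ)
    (h : ∀ y, (∑ x, if f x = y then 1 else 0) = ∑ x, if g x = y then 1 else 0) :
    ∃ e : α ≃ β, ∀ x, f x = g (e x) := by
  classical
  have h1 : ∀ y, Nonempty ({x // f x = y} ≃ {x // g x = y}) := fun y =>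
    ⟨Fintype.equivOfCardEq (by
      rw [Fintype.card_subtype, Fintype.card_subtype, Finset.card_filter, Finset.card_filter, h y])⟩
  let F : ∀ y, {x // f x = y} ≃ {x // g x = y} := fun y => (h1 y).some
  refine ⟨((Equiv.sigmaFiberEquiv f).symm.trans (Equiv.sigmaCongrRight F)).trans
    (Equiv.sigmaFiberEquiv g), fun x => ?_⟩
  have : ((((Equiv.sigmaFiberEquiv f).symm.trans (Equiv.sigmaCongrRight F)).trans
    (Equiv.sigmaFiberEquiv g)) x) = (F (f x) ⟨x, rfl⟩ : β) := rfl
  rw [this]
  exact (F (f x) ⟨x, rfl⟩).2.symm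

lemma sum_ite_getElem (l : List ℕ) (y : ℕ) :
    (∑ i : Fin l.length, if l[i] = y then 1 else 0) = l.count y := by
  have h1 := Fin.sum_univ_fun_getElem l (fun x => if x = y then 1 else 0)
  refine h1.trans ?_
  clear h1
  induction l with
  | nil => rfl
  | cons a l ih =>
    rw [List.map_cons, List.sum_cons, ih, List.count_cons]
    by_cases h : a = y <;> simp [h, add_comm]

/-- the vertices in the reduction -/
lemma exists_equiv_list {j d : ℕ} {a D : List ℕ}
    (h : D.Perm (List.replicate j d ++ a.map (· + 2))) :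
    ∃ e : Fin D.length ≃ Fin j ⊕ Fin a.length,
      ∀ i, D[i] = Sum.elim (fun _ => d) (fun x => a[x] + 2) (e i) := by
  classical
  apply exists_equiv (fun i : Fin D.length => D[i])
  intro y
  rw [sum_ite_getElem, h.count_eq, List.count_append, Fintype.sum_sum_type]
  congr 1
  · rw [List.count_replicate]
    show _ = ∑ _ : Fin j, if d = y then 1 else 0
    by_cases h : d = y <;> simp [h]
  · have h1 := Fin.sum_univ_fun_getElem a (fun x => if x + 2 = y then 1 else 0)
    refine Eq.trans ?_ h1.symm
    clear h1 h
    induction a with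
    | nil => rfl
    | cons b l ih =>
      rw [List.map_cons, List.map_cons, List.sum_cons, ← ih, List.count_cons]
      by_cases h : b + 2 = y <;> simp [h, add_comm]

lemma HasPaths.map {V W : Type} {G : SimpleGraph V} {H : SimpleGraph W} (e : G ≃g H) {v w : V}
    {k : ℕ} (h : HasPaths G v w k) : HasPaths H (e v) (e w) k := by
  obtain ⟨P, hP⟩ := h
  refine ⟨fun i => SimpleGraph.Path.map (e : G →g H) e.injective (P i), fun i j hij => ⟨?_, ?_⟩⟩
  · intro he
    exact (hP i j hij).1 (SimpleGraph.Path.map_injective (f := (e : G →g H)) e.injective _ _ he)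
  · intro x hx hy
    simp only [SimpleGraph.Path.map_coe, Walk.support_map, List.mem_map] at hx hy
    obtain ⟨p, hp, rfl⟩ := hx
    obtain ⟨q, hq, hpq⟩ := hy
    obtain rfl := e.injective hpq
    rcases (hP i j hij).2 _ hp hq with rfl | rfl
    · exact Or.inl rfl
    · exact Or.inr rfl

lemma ncard_map {V W : Type} {G : SimpleGraph V} {H : SimpleGraph W} (e : G ≃g H) (v : V) :
    (H.neighborSet (e v)).ncard = (G.neighborSet v).ncard := by
  have : H.neighborSet (e v) = e '' G.neighborSet v := by
    ext y
    constructor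
    · intro hy
      refine ⟨e.symm y, ?_, by simp⟩
      have : H.Adj (e v) (e (e.symm y)) := by simpa using hy
      exact e.map_adj_iff.1 this
    · rintro ⟨x, hx, rfl⟩
      exact e.map_adj_iff.2 hx
  rw [this, Set.ncard_image_of_injective _ e.injective]

lemma Ideal.map {V W : Type} {G : SimpleGraph V} {H : SimpleGraph W} (e : G ≃g H)
    (h : Ideal G) : Ideal H := by
  intro v w hvw
  obtain ⟨v, rfl⟩ := e.surjective v
  obtain ⟨w, rfl⟩ := e.surjective w
  rw [ncard_map, ncard_map]
  exact (h v w fun h => hvw (by rw [h])).map e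

/-- a graph with given degrees on another vertex set -/
lemma exists_graph {V : Type} {D : List ℕ} (e : Fin D.length ≃ V) (G : SimpleGraph V)
    (h : ∀ i, (G.neighborSet (e i)).ncard = D[i]) :
    ∃ H : SimpleGraph (Fin D.length), Realises D H ∧ (Ideal G → Ideal H) := by
  let φ : G.comap e ≃g G := SimpleGraph.Iso.comap e G
  refine ⟨G.comap e, ?_, fun hI => hI.map φ.symm⟩
  intro i
  rw [← ncard_map φ i, ← h i]
  rfl

end Pool.Agent.AvgConn
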