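import Pool.Agent.Lib_helper36.AvgConn.Large
import Pool.Agent.Lib_helper36.AvgConn.Equiv

/-!
# The criterion for sequences with many entries at least three
-/

set_option autoImplicit false

namespace Pool.Agent.AvgConn

open SimpleGraph Finset

/-! ### Necessity -/

section necessity

variable {V : Type} [Fintype V] {G : SimpleGraph V}

/-- Leaves at `x` cannot be used by paths from `x` to a vertex `y` of degree at least two. -/
lemma hasPaths_leaf {x y : V} (hxy : x ≠ y) {k : ℕ} (h : HasPaths G x y k)
    (hy : (G.neighborSet y).ncard ≠ 1) :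
    k + {l | G.Adj x l ∧ (G.neighborSet l).ncard = 1}.ncard ≤ (G.neighborSet x).ncard := by
  classical
  obtain ⟨P, hP⟩ := h
  have h1 : (Set.range fun i => (P i : G.Walk x y).snd).ncard = k := by
    rw [Set.ncard_range_of_injective, Nat.card_eq_fintype_card, Fintype.card_fin]
    intro i j hij
    by_contra hne
    exact snd_inj hxy (hP i j hne).1 (hP i j hne).2 hij
  have h2 : Disjoint (Set.range fun i => (P i : G.Walk x y).snd)
      {l | G.Adj x l ∧ (G.neighborSet l).ncard = 1} := by
    rw [Set.disjoint_left]
    rintro _ ⟨i, rfl⟩ ⟨h3, h4⟩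
    simp only at h3 h4
    generalize P i = q at h3 h4
    obtain ⟨p, hp⟩ := q
    simp only at h3 h4
    cases p with
    | nil => exact hxy rfl
    | cons hadj t =>
      rw [Walk.snd_cons] at h3 h4
      cases t with
      | nil => exact hy h4
      | cons hadj' t' =>
        rename_i a b
        obtain ⟨c, hc⟩ := Set.ncard_eq_one.1 h4
        have e1 : x ∈ G.neighborSet a := h3.symm
        have e2 : b ∈ G.neighborSet a := hadj'
        rw [hc, Set.mem_singleton_iff] at e1 e2
        have h5 := hp
        rw [Walk.cons_isPath_iff] at h5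
        apply h5.2
        rw [Walk.support_cons, List.mem_cons, e1, ← e2]
        exact Or.inr t'.start_mem_support
  rw [← h1, ← Set.ncard_union_eq h2 (Set.toFinite _) (Set.toFinite _)]
  apply Set.ncard_le_ncard _ (Set.toFinite _)
  apply Set.union_subset
  · rintro _ ⟨i, rfl⟩
    exact (P i : G.Walk x y).adj_snd fun h => hxy h.eq
  · exact fun l hl => hl.1

end necessity

lemma even_of_realises {D : List ℕ} {G : SimpleGraph (Fin D.length)} (hG : Realises D G) :
    Even D.sum := by
  classical
  have h1 := even_sum_dg G
  have h2 : ∑ v, dg G v = D.sum := by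
    have h3 := Fin.sum_univ_fun_getElem D id
    rw [List.map_id] at h3
    rw [← h3]
    apply Finset.sum_congr rfl
    intro v _
    unfold dg
    have := hG v
    show _ = D[v]
    rw [← this, ← Set.ncard_coe_finset]
    congr 1
    ext w
    simp
  rwa [h2] at h1

/-- the ones of an attainable sequence -/
lemma ones_le {a b : ℕ} {L D : List ℕ} (hDdef : D = a :: b :: L) (hD : D.Pairwise (· ≥ ·))
    (hb : 2 ≤ b) {G : SimpleGraph (Fin D.length)} (hG : Realises D G) (hI : Ideal G) :
    D.count 1 + b ≤ a := by
  classical
  have hab : b ≤ a := by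
    rw [hDdef, List.pairwise_cons] at hD
    exact hD.1 b (by simp)
  let v0 : Fin D.length := ⟨0, by simp [hDdef]⟩
  let v1 : Fin D.length := ⟨1, by simp [hDdef]⟩
  have d0 : (G.neighborSet v0).ncard = a := by
    rw [hG v0]
    subst hDdef
    rfl
  have d1 : (G.neighborSet v1).ncard = b := by
    rw [hG v1]
    subst hDdef
    rfl
  have hle : ∀ i : Fin D.length, (G.neighborSet i).ncard ≤ a := by
    intro i
    rw [hG i]
    have hmem : D[i] ∈ D := List.getElem_mem _
    generalize D[i] = x at hmem
    rw [hDdef, List.pairwise_cons] at hD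
    rw [hDdef] at hmem
    rcases List.mem_cons.1 hmem with h | h
    · exact h.le
    · exact hD.1 _ h
  -- the number of leaves
  have hcount : D.count 1 = {l | (G.neighborSet l).ncard = 1}.ncard := by
    rw [← sum_ite_getElem, ← Finset.card_filter, ← Set.ncard_coe_finset]
    congr 1
    ext i
    simp only [coe_filter, mem_univ, true_and, Set.mem_ofPred_eq]
    rw [hG i]
  -- the key inequality
  have key : ∀ x y : Fin D.length, x ≠ y → 2 ≤ (G.neighborSet y).ncard →
      0 < {l | G.Adj x l ∧ (G.neighborSet l).ncard = 1}.ncard →
      (G.neighborSet y).ncard + {l | G.Adj x l ∧ (G.neighborSet l).ncard = 1}.ncard ≤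
        (G.neighborSet x).ncard := by
    intro x y hxy hy hpos
    have h1 := hasPaths_leaf hxy (hI x y hxy) (by omega)
    rcases le_total (G.neighborSet x).ncard (G.neighborSet y).ncard with h2 | h2
    · rw [min_eq_left h2] at h1
      omega
    · rw [min_eq_right h2] at h1
      exact h1
  rcases Nat.eq_zero_or_pos (D.count 1) with h0 | h0
  · rw [h0]
    omega
  -- all leaves are at the first vertex
  have hall : ∀ l, (G.neighborSet l).ncard = 1 → G.Adj v0 l := by
    intro l hl
    obtain ⟨x, hx⟩ := Set.ncard_eq_one.1 hl
    have hlx : G.Adj l x := by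
      have : x ∈ G.neighborSet l := by rw [hx]; rfl
      exact this
    by_cases hx0 : x = v0
    · rw [← hx0]
      exact hlx.symm
    · exfalso
      have hpos : 0 < {l | G.Adj x l ∧ (G.neighborSet l).ncard = 1}.ncard :=
        (Set.ncard_pos (Set.toFinite _)).2 ⟨l, hlx.symm, hl⟩
      have h1 := key x v0 hx0 (by omega) hpos
      have h2 := hle x
      omega
  have hset : {l | G.Adj v0 l ∧ (G.neighborSet l).ncard = 1} =
      {l | (G.neighborSet l).ncard = 1} := by
    ext l
    exact ⟨fun h => h.2, fun h => ⟨hall l h, h⟩⟩
  have h01 : v0 ≠ v1 := by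
    intro h
    have := congrArg Fin.val h
    simp [v0, v1] at this
  have h1 := key v0 v1 h01 (by omega) (by rw [hset, ← hcount]; exact h0)
  rw [hset, ← hcount, d0, d1] at h1
  omega

/-! ### Sufficiency -/

section sufficiency

variable {m r z : ℕ}

/-- adjacency after adding leaves at the first vertex and isolated vertices -/
def lfAdj (G : SimpleGraph (Fin (m + 1))) :
    Fin (m + 1) ⊕ (Fin r ⊕ Fin z) → Fin (m + 1) ⊕ (Fin r ⊕ Fin z) → Prop
  | .inl i, .inl j => G.Adj i j
  | .inl i, .inr (.inl _) => i = 0
  | .inr (.inl _), .inl i => i = 0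
  | _, _ => False

/-- leaves at the first vertex and isolated vertices -/
def lf (r z : ℕ) (G : SimpleGraph (Fin (m + 1))) :
    SimpleGraph (Fin (m + 1) ⊕ (Fin r ⊕ Fin z)) where
  Adj := lfAdj G
  symm := ⟨by
    rintro (i | i | i) (j | j | j) h <;> first
      | exact SimpleGraph.Adj.symm (G := G) h
      | exact h⟩
  loopless := ⟨by
    rintro (i | i | i) h
    · exact G.loopless.irrefl i h
    · exact h
    · exact h⟩

variable {G : SimpleGraph (Fin (m + 1))}

lemma lf_deg (i : Fin (m + 1)) : ((lf r z G).neighborSet (.inl i)).ncard =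
    (G.neighborSet i).ncard + if i = 0 then r else 0 := by
  classical
  split_ifs with h
  · subst h
    have e : (lf r z G).neighborSet (.inl 0) = Sum.inl '' G.neighborSet 0 ∪
        Set.range fun l : Fin r => (Sum.inr (Sum.inl l) : Fin (m + 1) ⊕ (Fin r ⊕ Fin z)) := by
      ext x
      rcases x with x | x | x
      · simp only [mem_neighborSet, Set.mem_union, Set.mem_image, Sum.inl.injEq, exists_eq_right,
          Set.mem_range, reduceCtorEq, exists_false, or_false]
        exact Iff.rfl
      · simp only [mem_neighborSet, Set.mem_union, Set.mem_image, reduceCtorEq, and_false,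
          exists_false, false_or, Set.mem_range, Sum.inr.injEq, Sum.inl.injEq, exists_eq, iff_true]
        exact (rfl : (0 : Fin (m + 1)) = 0)
      · simp only [mem_neighborSet, Set.mem_union, Set.mem_image, reduceCtorEq, and_false,
          exists_false, false_or, Set.mem_range, Sum.inr.injEq, iff_false]
        exact fun h => h
    rw [e, Set.ncard_union_eq _ (Set.toFinite _) (Set.toFinite _),
      Set.ncard_image_of_injective _ Sum.inl_injective, Set.ncard_range_of_injective,
      Nat.card_eq_fintype_card, Fintype.card_fin]
    · intro a b h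
      simpa using h
    · rw [Set.disjoint_left]
      rintro _ ⟨a, _, rfl⟩ ⟨b, h⟩
      cases h
  · have e : (lf r z G).neighborSet (.inl i) = Sum.inl '' G.neighborSet i := by
      ext x
      rcases x with x | x | x
      · simp only [mem_neighborSet, Set.mem_image, Sum.inl.injEq, exists_eq_right]
        exact Iff.rfl
      · simp only [mem_neighborSet, Set.mem_image, reduceCtorEq, and_false, exists_false, iff_false]
        exact fun hh => h hh
      · simp only [mem_neighborSet, Set.mem_image, reduceCtorEq, and_false, exists_false, iff_false]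
        exact fun h => h
    rw [e, Set.ncard_image_of_injective _ Sum.inl_injective, add_zero]

lemma lf_leaf (l : Fin r) : ((lf r z G).neighborSet (.inr (.inl l))).ncard = 1 := by
  have e : (lf r z G).neighborSet (.inr (.inl l)) = {.inl 0} := by
    ext x
    rcases x with x | x | x
    · simp only [mem_neighborSet, Set.mem_singleton_iff, Sum.inl.injEq]
      exact Iff.rfl
    · simp only [mem_neighborSet, Set.mem_singleton_iff, reduceCtorEq, iff_false]
      exact fun h => h
    · simp only [mem_neighborSet, Set.mem_singleton_iff, reduceCtorEq, iff_false]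
      exact fun h => h
  rw [e, Set.ncard_singleton]

lemma lf_zero (l : Fin z) : ((lf r z G).neighborSet (.inr (.inr l))).ncard = 0 := by
  have e : (lf r z G).neighborSet (.inr (.inr l)) = ∅ := by
    ext x
    simp only [mem_neighborSet, Set.mem_empty_iff_false, iff_false]
    rcases x with x | x | x <;> exact fun h => h
  rw [e, Set.ncard_empty]

lemma hasPaths_one {V : Type} {G : SimpleGraph V} {v w : V} (h : G.Reachable v w) :
    HasPaths G v w 1 := by
  classical
  obtain ⟨p⟩ := h
  refine ⟨fun _ => p.toPath, fun i j hij => absurd (Subsingleton.elim i j) hij⟩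

lemma reachable_of_hasPaths {V : Type} {G : SimpleGraph V} {v w : V} {k : ℕ}
    (h : HasPaths G v w k) (hk : 0 < k) : G.Reachable v w := by
  obtain ⟨P, _⟩ := h
  exact ⟨(P ⟨0, hk⟩ : G.Walk v w)⟩

theorem lf_ideal (hI : Ideal G) (h2 : ∀ i, 2 ≤ (G.neighborSet i).ncard)
    (h0 : ∀ i, (G.neighborSet i).ncard ≤ (G.neighborSet 0).ncard) : Ideal (lf r z G) := by
  let φ : G →g lf r z G := ⟨Sum.inl, fun h => h⟩
  have hφ : Function.Injective φ := Sum.inl_injective
  have hll : ∀ i j, i ≠ j → HasPaths (lf r z G) (.inl i) (.inl j)
      (min (G.neighborSet i).ncard (G.neighborSet j).ncard) := by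
    intro i j hij
    obtain ⟨P, hP⟩ := hI i j hij
    refine ⟨fun t => SimpleGraph.Path.map φ hφ (P t), fun s t hst => ⟨?_, ?_⟩⟩
    · intro he
      exact (hP s t hst).1 (SimpleGraph.Path.map_injective (f := φ) hφ _ _ he)
    · intro x hx hy
      simp only [SimpleGraph.Path.map_coe, Walk.support_map, List.mem_map] at hx hy
      obtain ⟨a, ha, rfl⟩ := hx
      obtain ⟨b, hb, hab⟩ := hy
      obtain rfl := hφ hab
      rcases (hP s t hst).2 _ ha hb with rfl | rfl
      · exact Or.inl rfl
      · exact Or.inr rfl
  have hreach : ∀ i, (lf r z G).Reachable (.inl 0) (.inl i) := by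
    intro i
    by_cases hi : (0 : Fin (m + 1)) = i
    · rw [← hi]
    · refine reachable_of_hasPaths (hll 0 i hi) ?_
      have e1 := h2 0
      have e2 := h2 i
      omega
  have hleaf : ∀ l : Fin r, (lf r z G).Reachable (.inl 0) (.inr (.inl l)) := fun l =>
    SimpleGraph.Adj.reachable (G := lf r z G) (u := .inl 0) (v := .inr (.inl l))
      (rfl : (0 : Fin (m + 1)) = 0)
  have hz : ∀ v w : Fin (m + 1) ⊕ (Fin r ⊕ Fin z), HasPaths (lf r z G) v w (min 0 0) := by
    intro v w
    exact HasPaths.zero v w
  rintro (i | l | l) (j | k | k) hne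
  · have hij : i ≠ j := fun h => hne (by rw [h])
    rw [lf_deg, lf_deg]
    refine (hll i j hij).mono ?_
    have e1 := h0 i
    have e2 := h0 j
    by_cases hi : i = 0
    · subst hi
      rw [if_pos rfl, if_neg (Ne.symm hij)]
      omega
    · by_cases hj : j = 0
      · subst hj
        rw [if_pos rfl, if_neg hi]
        omega
      · rw [if_neg hi, if_neg hj]
        omega
  · rw [lf_leaf]
    exact (hasPaths_one ((hreach i).symm.trans (hleaf k))).mono (min_le_right _ _)
  · rw [lf_zero]
    exact (HasPaths.zero _ _).mono (min_le_right _ _)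
  · rw [lf_leaf]
    exact (hasPaths_one ((hleaf l).symm.trans (hreach j))).mono (min_le_left _ _)
  · rw [lf_leaf, lf_leaf]
    exact (hasPaths_one ((hleaf l).symm.trans (hleaf k))).mono (min_le_left _ _)
  · rw [lf_zero]
    exact (HasPaths.zero _ _).mono (min_le_right _ _)
  · rw [lf_zero]
    exact (HasPaths.zero _ _).mono (min_le_left _ _)
  · rw [lf_zero]
    exact (HasPaths.zero _ _).mono (min_le_left _ _)
  · rw [lf_zero]
    exact (HasPaths.zero _ _).mono (min_le_left _ _)

end sufficiency

/-- members of a sorted list that are at least three -/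
lemma three_le_getElem {l : List ℕ} (hl : l.Pairwise (· ≥ ·)) :
    ∀ (i : ℕ) (hi : i < l.length), i < (l.filter fun x => decide (3 ≤ x)).length → 3 ≤ l[i] := by
  induction l with
  | nil => intro i hi; simp at hi
  | cons x l ih =>
    rw [List.pairwise_cons] at hl
    intro i hi h
    by_cases hx : 3 ≤ x
    · rw [List.filter_cons_of_pos (by simpa using hx), List.length_cons] at h
      cases i with
      | zero => exact hx
      | succ i => exact ih hl.2 i (by simpa using hi) (by omega)
    · exfalso
      have : (x :: l).filter (fun x => decide (3 ≤ x)) = [] := by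
        rw [List.filter_eq_nil_iff]
        intro y hy
        rw [decide_eq_true_eq]
        rcases List.mem_cons.1 hy with rfl | hy
        · exact hx
        · have := hl.1 y hy
          omega
      rw [this] at h
      simp at h

lemma exists_equiv_lf {A D : List ℕ} {m r z : ℕ} (hA : A.length = m + 1)
    (h : D.Perm (A ++ (List.replicate r 1 ++ List.replicate z 0))) :
    ∃ e : Fin D.length ≃ Fin (m + 1) ⊕ (Fin r ⊕ Fin z),
      ∀ i, D[i] = Sum.elim (fun x : Fin (m + 1) => A.getD x 0)
        (Sum.elim (fun _ => 1) fun _ => 0) (e i) := by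
  classical
  apply exists_equiv (fun i : Fin D.length => D[i])
  intro y
  rw [sum_ite_getElem, h.count_eq, List.count_append, List.count_append, Fintype.sum_sum_type,
    Fintype.sum_sum_type]
  congr 1
  · rw [← sum_ite_getElem]
    have e : Fin A.length ≃ Fin (m + 1) := finCongr hA
    refine Fintype.sum_equiv (finCongr hA) _ _ ?_
    intro i
    show (if A[i] = y then 1 else 0) = if A.getD i 0 = y then 1 else 0
    rw [List.getD_eq_getElem _ _ i.2]
    rfl
  · congr 1
    · rw [List.count_replicate]
      show _ = ∑ _ : Fin r, if 1 = y then 1 else 0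
      by_cases h : 1 = y
      · subst h
        simp
      · simp [h]
    · rw [List.count_replicate]
      show _ = ∑ _ : Fin z, if 0 = y then 1 else 0
      by_cases h : 0 = y <;> simp [h]

/-- **Sufficiency.** -/
theorem attainable_large {a b : ℕ} {L D : List ℕ} (hDdef : D = a :: b :: L)
    (hD : D.Pairwise (· ≥ ·)) (hN : 1000 * a ^ 2 ≤ (D.filter fun x => decide (3 ≤ x)).length)
    (hb : 3 ≤ b) (heven : Even D.sum) (hr : D.count 1 + b ≤ a) : Attainable D := by
  classical
  set r := D.count 1 with hrdef
  set z := D.count 0 with hzdef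
  set A' := (a - r) :: b :: L.filter (fun x => decide (2 ≤ x)) with hA'
  have hDp := hD
  rw [hDdef, List.pairwise_cons, List.pairwise_cons] at hDp
  obtain ⟨p1, p2, p3⟩ := hDp
  have hLf : (L.filter fun x => decide (2 ≤ x)).Pairwise (· ≥ ·) := p3.filter _
  have hA's : A'.Pairwise (· ≥ ·) := by
    rw [hA', List.pairwise_cons, List.pairwise_cons]
    refine ⟨?_, ?_, hLf⟩
    · intro x hx
      rcases List.mem_cons.1 hx with rfl | hx
      · omega
      · have := p2 x (List.mem_filter.1 hx).1
        omega
    · intro x hx
      exact p2 x (List.mem_filter.1 hx).1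
  have hA'2 : ∀ x ∈ A', 2 ≤ x := by
    intro x hx
    rw [hA'] at hx
    rcases List.mem_cons.1 hx with rfl | hx
    · omega
    rcases List.mem_cons.1 hx with rfl | hx
    · omega
    · simpa using (List.mem_filter.1 hx).2
  have hA'le : ∀ x ∈ A', x ≤ a - r := by
    intro x hx
    rw [hA', List.pairwise_cons] at hA's
    rw [hA'] at hx
    rcases List.mem_cons.1 hx with rfl | hx
    · exact le_rfl
    · exact hA's.1 x hx
  have hfilt : (A'.filter fun x => decide (3 ≤ x)).length =
      (D.filter fun x => decide (3 ≤ x)).length := by
    rw [hA', hDdef, List.filter_cons_of_pos (by simp; omega), List.filter_cons_of_pos (by simp; omega),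
      List.filter_cons_of_pos (by simp; omega), List.filter_cons_of_pos (by simp; omega),
      List.filter_filter]
    simp only [List.length_cons]
    congr 3
    apply List.filter_congr
    intro x _
    by_cases h : 3 ≤ x
    · have : 2 ≤ x := by omega
      simp [h, this]
    · simp [h]
  have hlen : (A'.filter fun x => decide (3 ≤ x)).length ≤ A'.length := List.length_filter_le _ _
  have hΔ : 1000 * (a - r) ^ 2 ≤ (A'.filter fun x => decide (3 ≤ x)).length := by
    rw [hfilt]
    refine le_trans (Nat.mul_le_mul_left _ (Nat.pow_le_pow_left (Nat.sub_le _ _) 2)) hN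
  -- the sum
  have hLsum : ∀ l : List ℕ, l.sum = (l.filter fun x => decide (2 ≤ x)).sum + l.count 1 := by
    intro l
    induction l with
    | nil => rfl
    | cons x l ih =>
      rw [List.sum_cons, List.filter_cons, List.count_cons, ih]
      by_cases hx : 2 ≤ x
      · have : ¬ x = 1 := by omega
        simp only [hx, decide_true, if_true, List.sum_cons, beq_iff_eq, this, if_false]
        omega
      · simp only [hx, decide_false, Bool.false_eq_true, if_false, beq_iff_eq]
        split_ifs with h1 <;> omega
  have hcr : r = L.count 1 := by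
    rw [hrdef, hDdef, List.count_cons_of_ne (by omega), List.count_cons_of_ne (by omega)]
  have hsum : D.sum = A'.sum + 2 * r := by
    rw [hDdef, hA']
    simp only [List.sum_cons]
    have := hLsum L
    omega
  have hA'even : Even A'.sum := by
    rw [hsum] at heven
    exact (Nat.even_add.1 heven).2 (even_two_mul r)
  -- the graph on the vertices of degree at least two
  obtain ⟨m, hm⟩ : ∃ m, A'.length = m + 1 := ⟨A'.length - 1, by rw [hA']; simp⟩
  obtain ⟨G, hG, hI⟩ := exists_ideal (n := m + 1) (Δ := a - r) (fun i => A'.getD i 0) (by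
      intro i j hij
      have hi : i.val < A'.length := by rw [hm]; exact i.2
      have hj : j.val < A'.length := by rw [hm]; exact j.2
      show A'.getD j 0 ≤ A'.getD i 0
      rw [List.getD_eq_getElem _ _ hi, List.getD_eq_getElem _ _ hj]
      rcases Nat.eq_or_lt_of_le (Fin.le_def.1 hij) with h | h
      · simp only [h]; exact le_rfl
      · exact List.pairwise_iff_getElem.1 hA's i j hi hj h) (by
      intro i
      have hi : i.val < A'.length := by rw [hm]; exact i.2
      show 2 ≤ A'.getD i 0
      rw [List.getD_eq_getElem _ _ hi]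
      exact hA'2 _ (List.getElem_mem _)) (by
      intro i
      have hi : i.val < A'.length := by rw [hm]; exact i.2
      show A'.getD i 0 ≤ a - r
      rw [List.getD_eq_getElem _ _ hi]
      exact hA'le _ (List.getElem_mem _)) (by omega) (by omega) (by
      intro i h
      have hi : i.val < A'.length := by rw [hm]; exact i.2
      show 3 ≤ A'.getD i 0
      rw [List.getD_eq_getElem _ _ hi]
      exact three_le_getElem hA's i hi (by omega)) (by
      have h1 := Fin.sum_univ_fun_getElem A' id
      rw [List.map_id] at h1
      rw [← h1] at hA'even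
      convert hA'even using 1
      refine (Fintype.sum_equiv (finCongr hm) _ _ ?_).symm
      intro i
      show A'[i] = A'.getD i 0
      rw [List.getD_eq_getElem _ _ i.2]
      rfl)
  -- the degrees
  set A := a :: b :: L.filter (fun x => decide (2 ≤ x)) with hAdef
  have hAlen : A.length = m + 1 := by
    rw [← hm, hAdef, hA']
    simp
  have hperm : D.Perm (A ++ (List.replicate r 1 ++ List.replicate z 0)) := by
    rw [List.perm_iff_count]
    intro y
    rw [List.count_append, List.count_append, List.count_replicate, List.count_replicate]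
    have hLc : ∀ l : List ℕ, (l.filter fun x => decide (2 ≤ x)).count y =
        if 2 ≤ y then l.count y else 0 := by
      intro l
      split_ifs with h
      · exact List.count_filter (by simpa using h)
      · rw [List.count_eq_zero]
        intro hm
        exact h (by simpa using (List.mem_filter.1 hm).2)
    have e1 : D.count y = (L.count y + if b = y then 1 else 0) + if a = y then 1 else 0 := by
      rw [hDdef, List.count_cons, List.count_cons]
      simp
    have e2 : A.count y = ((if 2 ≤ y then L.count y else 0) + if b = y then 1 else 0) +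
        if a = y then 1 else 0 := by
      rw [hAdef, List.count_cons, List.count_cons, hLc]
      simp
    rw [e2]
    by_cases h2 : 2 ≤ y
    · have h0 : ¬ 0 = y := by omega
      have h1 : ¬ 1 = y := by omega
      rw [e1]
      simp [h2, h0, h1]
    · have ha' : ¬ a = y := by omega
      have hb' : ¬ b = y := by omega
      rcases Nat.lt_or_ge 0 y with h0 | h0
      · obtain rfl : y = 1 := by omega
        rw [hrdef]
        simp [ha', hb']
      · obtain rfl : y = 0 := by omega
        rw [hzdef]
        simp [ha', hb']
  obtain ⟨e, he⟩ := exists_equiv_lf hAlen hperm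
  have hA0 : ∀ i : Fin (m + 1), A.getD i 0 = A'.getD i 0 + if i = 0 then r else 0 := by
    intro i
    obtain ⟨i, hi⟩ := i
    cases i with
    | zero =>
      rw [if_pos (by rfl), hAdef, hA']
      show a = (a - r) + r
      omega
    | succ i =>
      rw [if_neg (by intro h; exact absurd (congrArg Fin.val h) (by simp)), hAdef, hA']
      rfl
  have hdeg : ∀ i, ((lf r z G).neighborSet (e i)).ncard = D[i] := by
    intro i
    rw [he i]
    rcases e i with x | x | x
    · rw [lf_deg, hG]
      exact (hA0 x).symm
    · rw [lf_leaf]
      rfl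
    · rw [lf_zero]
      rfl
  obtain ⟨H, hH, hH'⟩ := exists_graph e (lf r z G) hdeg
  rw [attainable_iff]
  refine ⟨?_, hD, H, hH, hH' (lf_ideal hI ?_ ?_)⟩
  · rw [hDdef]
    simp
  · intro i
    rw [hG]
    have hi : i.val < A'.length := by rw [hm]; exact i.2
    show 2 ≤ A'.getD i 0
    rw [List.getD_eq_getElem _ _ hi]
    exact hA'2 _ (List.getElem_mem _)
  · intro i
    rw [hG, hG]
    have hi : i.val < A'.length := by rw [hm]; exact i.2
    show A'.getD i 0 ≤ A'.getD (0 : Fin (m + 1)) 0
    rw [List.getD_eq_getElem _ _ hi]
    have h1 : A'.getD (0 : Fin (m + 1)) 0 = a - r := by rw [hA']; rfl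
    rw [h1]
    exact hA'le _ (List.getElem_mem _)

/-- **The criterion.** If at least `1000 d_1 ^ 2` entries of a non-increasing sequence `D` are at
least three, then `D` is attainable if and only if its sum is even and the number of entries equal
to one is at most `d_1 - d_2`. -/
theorem criterion {D : List ℕ} (h2 : 2 ≤ D.length) (hD : D.Pairwise (· ≥ ·))
    (hN : 1000 * D.getD 0 0 ^ 2 ≤ (D.filter fun x => decide (3 ≤ x)).length) :
    Attainable D ↔ Even D.sum ∧ D.count 1 + D.getD 1 0 ≤ D.getD 0 0 := by
  obtain ⟨a, b, L, rfl⟩ : ∃ a b L, D = a :: b :: L := by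
    rcases D with _ | ⟨a, _ | ⟨b, L⟩⟩
    · simp at h2
    · simp at h2
    · exact ⟨a, b, L, rfl⟩
  have hN' : 1000 * a ^ 2 ≤ ((a :: b :: L).filter fun x => decide (3 ≤ x)).length := hN
  show _ ↔ _ ∧ (a :: b :: L).count 1 + b ≤ a
  rcases Nat.eq_zero_or_pos a with h0 | h0
  · -- all entries vanish
    subst h0
    have hall : ∀ x ∈ (0 :: b :: L), x = 0 := by
      intro x hx
      rw [List.pairwise_cons] at hD
      rcases List.mem_cons.1 hx with h | h
      · exact h
      · exact Nat.le_zero.1 (hD.1 x h)
    have hrep : (0 :: b :: L) = List.replicate (0 :: b :: L).length 0 :=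
      List.eq_replicate_of_mem hall
    have hb0 : b = 0 := hall b (by simp)
    constructor
    · intro _
      rw [hrep]
      refine ⟨by simp, ?_⟩
      rw [List.count_replicate, if_neg (by decide), hb0]
    · intro _
      rw [attainable_iff]
      refine ⟨h2, hD, ⊥, ?_, ?_⟩
      · intro i
        have h3 : (⊥ : SimpleGraph (Fin (0 :: b :: L).length)).neighborSet i = ∅ := by
          ext x
          simp
        rw [h3, Set.ncard_empty]
        exact (hall _ (List.getElem_mem _)).symm
      · intro v w _
        have h3 : (⊥ : SimpleGraph (Fin (0 :: b :: L).length)).neighborSet v = ∅ := by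
          ext x
          simp
        rw [h3, Set.ncard_empty]
        exact (HasPaths.zero _ _).mono (min_le_left _ _)
  · have ha : 3 ≤ a := by
      have := three_le_getElem hD 0 (by simp) (by nlinarith)
      exact this
    have hb : 3 ≤ b := by
      have := three_le_getElem hD 1 (by simp) (by nlinarith)
      exact this
    constructor
    · intro hA
      rw [attainable_iff] at hA
      obtain ⟨_, _, G, hG, hI⟩ := hA
      exact ⟨even_of_realises hG, ones_le rfl hD (by omega) hG hI⟩
    · rintro ⟨h3, h4⟩
      exact attainable_large rfl hD hN' hb h3 h4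

end Pool.Agent.AvgConn
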