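import Mathlib
import Pool.Agent.Lib_helper79.Poly.NP

/-!
# Average connectivity: the definitions of problem MP_98234c_co
-/

set_option autoImplicit false

namespace Pool.Agent.AvgConn

/-- There are `k` internally disjoint paths from `v` to `w`: they are pairwise different and any
two of them have only `v` and `w` in common. -/
def HasPaths {V : Type} (G : SimpleGraph V) (v w : V) (k : ℕ) : Prop :=
  ∃ P : Fin k → G.Path v w, ∀ i j, i ≠ j → P i ≠ P j ∧
    ∀ x, x ∈ (P i : G.Walk v w).support → x ∈ (P j : G.Walk v w).support → x = v ∨ x = w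

/-- `κ(v, w)`, the largest number of internally disjoint paths from `v` to `w`. -/
noncomputable def kap {V : Type} (G : SimpleGraph V) (v w : V) : ℕ :=
  sSup {k | HasPaths G v w k}

/-- The average connectivity of a graph with vertices `0, …, n - 1`. -/
noncomputable def avgConn {n : ℕ} (G : SimpleGraph (Fin n)) : ℝ :=
  (∑ v : Fin n, ∑ w ∈ Finset.Ioi v, (kap G v w : ℝ)) / ((n : ℝ) * (n - 1) / 2)

/-- `B(D)` for a sequence `D = (d_1, …, d_n)`: the sum of the `(i - 1) d_i` divided by
`n (n - 1) / 2`. -/
noncomputable def bound (D : List ℕ) : ℝ :=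
  (∑ i : Fin D.length, ((i : ℕ) : ℝ) * (D[i] : ℝ)) / ((D.length : ℝ) * (D.length - 1) / 2)

/-- The degree of the `i`-th vertex is the `i`-th entry of `D`. -/
def Realises (D : List ℕ) (G : SimpleGraph (Fin D.length)) : Prop :=
  ∀ i : Fin D.length, (G.neighborSet i).ncard = D[i]

/-- `D` is a non-increasing sequence of length at least two and the degree sequence of a graph. -/
def Graphical (D : List ℕ) : Prop :=
  2 ≤ D.length ∧ D.Pairwise (· ≥ ·) ∧ ∃ G, Realises D G

/-- `D` is non-increasing, has length at least two, and some realisation `G` of `D` has average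
connectivity `B(D)`. -/
def Attainable (D : List ℕ) : Prop :=
  2 ≤ D.length ∧ D.Pairwise (· ≥ ·) ∧ ∃ G, Realises D G ∧ avgConn G = bound D

/-- The problem 3-PARTITION (Garey and Johnson, SP15). An instance is a number `B` and a list of
`3 m` numbers, `m ≥ 1`, all strictly between `B / 4` and `B / 2`, with sum `m B`. The question is
whether the list can be partitioned into `m` parts of sum `B`. -/
def ThreePartition (I : ℕ × List ℕ) : Prop :=
  ∃ m, 1 ≤ m ∧ I.2.length = 3 * m ∧ (∀ a ∈ I.2, I.1 < 4 * a ∧ 2 * a < I.1) ∧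
    I.2.sum = m * I.1 ∧
    ∃ f : Fin I.2.length → Fin m, ∀ c, ∑ i ∈ Finset.univ.filter (fun i => f i = c), I.2[i] = I.1

end Pool.Agent.AvgConn
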