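import Pool.Agent.Lib_helper36.AvgConn.Equiv

/-!
# Partitions with fillers and pads
-/

set_option autoImplicit false

namespace Pool.Agent.AvgConn

open Finset

/-- there is a partition into `M` groups of sum `B` -/
def Part {ι : Type} [Fintype ι] (w : ι → ℕ) (M B : ℕ) : Prop :=
  ∃ f : ι → Fin M, ∀ c, (∑ i, if f i = c then w i else 0) = B

lemma part_list {a : List ℕ} {M B : ℕ} : Part (fun i : Fin a.length => a[i]) M B ↔
    ∃ f : Fin a.length → Fin M, ∀ c, ∑ i ∈ univ.filter (fun i => f i = c), a[i] = B := by
  unfold Part
  refine exists_congr fun f => forall_congr' fun c => ?_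
  rw [Finset.sum_filter]

lemma Part.map {ι κ : Type} [Fintype ι] [Fintype κ] {w : ι → ℕ} {w' : κ → ℕ} (e : ι ≃ κ)
    (h : ∀ i, w i = w' (e i)) {M B : ℕ} (hp : Part w M B) : Part w' M B := by
  obtain ⟨f, hf⟩ := hp
  refine ⟨fun k => f (e.symm k), fun c => ?_⟩
  rw [← hf c, ← e.sum_comp]
  apply Finset.sum_congr rfl
  intro i _
  simp only [Equiv.symm_apply_apply, h]

lemma part_congr {ι κ : Type} [Fintype ι] [Fintype κ] {w : ι → ℕ} {w' : κ → ℕ} (e : ι ≃ κ)
    (h : ∀ i, w i = w' (e i)) {M B : ℕ} : Part w M B ↔ Part w' M B :=
  ⟨Part.map e h, Part.map e.symm fun k => by rw [h, Equiv.apply_symm_apply]⟩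

/-- the items with fillers and pads -/
def items {N : ℕ} (a : Fin N → ℕ) (B m K M : ℕ) : Fin (M * K) ⊕ (Fin (M - m) ⊕ Fin N) → ℕ :=
  Sum.elim (fun _ => B + 1) (Sum.elim (fun _ => B) a)

theorem part_items {N : ℕ} {a : Fin N → ℕ} (ha : ∀ i, 1 ≤ a i) {B m K M : ℕ} (hB : 1 ≤ B)
    (hmM : m ≤ M) : Part (items a B m K M) M (B + K * (B + 1)) ↔ Part a m B := by
  classical
  constructor
  · rintro ⟨f, hf⟩
    -- numbers of fillers and pads in a group
    set φ : Fin M → ℕ := fun c => ∑ i : Fin (M * K), if f (.inl i) = c then 1 else 0 with hφ
    set ψ : Fin M → ℕ := fun c => ∑ i : Fin (M - m), if f (.inr (.inl i)) = c then 1 else 0 with hψ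
    set ω : Fin M → ℕ := fun c => ∑ i : Fin N, if f (.inr (.inr i)) = c then a i else 0 with hω
    have h1 : ∀ c, φ c * (B + 1) + (ψ c * B + ω c) = B + K * (B + 1) := by
      intro c
      rw [← hf c, Fintype.sum_sum_type, Fintype.sum_sum_type, hφ, hψ]
      simp only [Finset.sum_mul, ite_mul, one_mul, zero_mul]
      rfl
    have h2 : ∀ c, φ c ≤ K := by
      intro c
      by_contra hcon
      push Not at hcon
      have : (K + 1) * (B + 1) ≤ φ c * (B + 1) := Nat.mul_le_mul_right _ hcon
      have h3 := h1 c
      nlinarith
    have tot : ∀ {κ : Type} [Fintype κ] (g : κ → Fin M),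
        ∑ c, (∑ i : κ, if g i = c then 1 else 0) = Fintype.card κ := by
      intro κ _ g
      rw [Finset.sum_comm]
      simp
    have h3 : ∑ c, φ c = M * K := by
      rw [hφ, tot]
      simp
    have h4 : ∀ c, φ c = K := by
      intro c
      refine (Finset.sum_eq_sum_iff_of_le (s := univ) (g := fun _ => K) fun c _ => h2 c).1 ?_ c
        (mem_univ c)
      rw [h3]
      simp
    have h5 : ∀ c, ψ c * B + ω c = B := by
      intro c
      have := h1 c
      rw [h4] at this
      omega
    have h6 : ∀ c, ψ c ≤ 1 := by
      intro c
      by_contra hcon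
      push Not at hcon
      have : 2 * B ≤ ψ c * B := Nat.mul_le_mul_right _ hcon
      have := h5 c
      omega
    have h7 : ∑ c, ψ c = M - m := by
      rw [hψ, tot]
      simp
    -- the groups without a pad
    have h8 : Fintype.card {c // ψ c = 0} = m := by
      rw [Fintype.card_subtype]
      have e1 : (univ.filter fun c => ψ c = 0).card + (univ.filter fun c => ¬ ψ c = 0).card = M := by
        rw [Finset.card_filter_add_card_filter_not, card_univ, Fintype.card_fin]
      have e2 : ∑ c, ψ c = (univ.filter fun c => ¬ ψ c = 0).card := by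
        rw [Finset.card_filter]
        apply Finset.sum_congr rfl
        intro c _
        have := h6 c
        by_cases h : ψ c = 0
        · rw [if_neg (not_not.2 h), h]
        · rw [if_pos h]
          omega
      omega
    let e := Fintype.equivFinOfCardEq h8
    have h9 : ∀ i, ψ (f (.inr (.inr i))) = 0 := by
      intro i
      by_contra hcon
      have e1 : ψ (f (.inr (.inr i))) = 1 := by
        have := h6 (f (.inr (.inr i)))
        omega
      have e2 := h5 (f (.inr (.inr i)))
      rw [e1, one_mul] at e2
      have e3 : a i ≤ ω (f (.inr (.inr i))) := by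
        have := Finset.single_le_sum (f := fun j : Fin N =>
          if f (.inr (.inr j)) = f (.inr (.inr i)) then a j else 0)
          (fun _ _ => Nat.zero_le _) (mem_univ i)
        simpa using this
      have := ha i
      omega
    refine ⟨fun i => e ⟨f (.inr (.inr i)), h9 i⟩, fun c => ?_⟩
    have e1 := h5 (e.symm c).1
    rw [(e.symm c).2, zero_mul, zero_add] at e1
    rw [← e1]
    apply Finset.sum_congr rfl
    intro i _
    congr 1
    rw [eq_iff_iff]
    constructor
    · intro h
      have := congrArg e.symm h
      rw [Equiv.symm_apply_apply] at this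
      rw [← this]
    · intro h
      rw [← Equiv.eq_symm_apply]
      exact Subtype.ext h
  · rintro ⟨f, hf⟩
    let F : Fin (M * K) ⊕ (Fin (M - m) ⊕ Fin N) → Fin M :=
      Sum.elim (fun t => (finProdFinEquiv.symm t).1)
        (Sum.elim (fun t => ⟨m + t.val, by omega⟩) fun i => Fin.castLE hmM (f i))
    refine ⟨F, fun c => ?_⟩
    rw [Fintype.sum_sum_type, Fintype.sum_sum_type]
    have e1 : (∑ i : Fin (M * K), if F (.inl i) = c then items a B m K M (.inl i) else 0) =
        K * (B + 1) := by
      have : (∑ i : Fin (M * K), if F (.inl i) = c then items a B m K M (.inl i) else 0) =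
          ∑ p : Fin M × Fin K, if p.1 = c then (B + 1) else 0 := by
        refine Fintype.sum_equiv finProdFinEquiv.symm _ _ ?_
        intro i
        rfl
      rw [this, Fintype.sum_prod_type, Finset.sum_comm]
      simp
    have e2 : (∑ i : Fin (M - m), if F (.inr (.inl i)) = c then items a B m K M (.inr (.inl i)) else 0) =
        if c.val < m then 0 else B := by
      have hs : ∀ i : Fin (M - m), (F (.inr (.inl i)) = c) ↔ m + i.val = c.val := fun i => Fin.ext_iff
      split_ifs with h
      · apply Finset.sum_eq_zero
        intro i _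
        rw [if_neg]
        rw [hs]
        omega
      · rw [Finset.sum_eq_single (⟨c.val - m, by have := c.2; omega⟩ : Fin (M - m))]
        · rw [if_pos]
          · rfl
          · rw [hs]
            show m + (c.val - m) = c.val
            omega
        · intro i _ hi
          rw [if_neg]
          rw [hs]
          intro hh
          apply hi
          apply Fin.ext
          show i.val = c.val - m
          omega
        · intro h'
          exact absurd (mem_univ _) h'
    have e3 : (∑ i : Fin N, if F (.inr (.inr i)) = c then items a B m K M (.inr (.inr i)) else 0) =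
        if c.val < m then B else 0 := by
      split_ifs with h
      · rw [← hf ⟨c.val, h⟩]
        apply Finset.sum_congr rfl
        intro i _
        have : (F (.inr (.inr i)) = c) ↔ (f i = ⟨c.val, h⟩) := by
          rw [Fin.ext_iff, Fin.ext_iff]
          exact Iff.rfl
        simp only [this]
        rfl
      · apply Finset.sum_eq_zero
        intro i _
        rw [if_neg]
        intro hh
        have := congrArg Fin.val hh
        apply h
        rw [← this]
        exact (f i).2
    rw [e1, e2, e3]
    split_ifs <;> omega

end Pool.Agent.AvgConn
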