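import Pool.Agent.Lib_helper36.AvgConn.Basic

/-!
# The lower part of an ideal graph is a disjoint union of trees

The hard direction of the reduction.
-/

set_option autoImplicit false

namespace Pool.Agent.AvgConn

open SimpleGraph Finset

variable {V : Type} {G : SimpleGraph V} {S : Finset V}

/-- the graph induced by the vertices outside `S` -/
abbrev low (G : SimpleGraph V) (S : Finset V) : SimpleGraph {x : V // x ∉ S} :=
  G.induce {x | x ∉ S}

/-- the vertex `x` lies in the component `C` -/
def In (C : (low G S).ConnectedComponent) (x : V) : Prop :=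
  ∃ h : x ∉ S, (low G S).connectedComponentMk ⟨x, h⟩ = C

open Classical in
/-- number of neighbours of `a` in `C` -/
noncomputable def sN [Fintype V] (C : (low G S).ConnectedComponent) (a : V) : ℕ :=
  (univ.filter fun x => In C x ∧ G.Adj a x).card

lemma reach_pen {b : V} (hb : b ∈ S) : ∀ {x : V} (q : G.Walk x b) (hx : x ∉ S), q.IsPath →
    (∀ y ∈ q.support, y ∈ S → y = b) →
    ∃ h : q.penultimate ∉ S, (low G S).Reachable ⟨x, hx⟩ ⟨q.penultimate, h⟩ := by
  intro x q
  induction q with
  | nil => intro hx; exact absurd hb hx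
  | @cons u v w h t ih =>
    intro hx hp hs
    have hp' := (Walk.cons_isPath_iff _ _).1 hp
    by_cases hv : v ∈ S
    · have hvb : v = w := hs v (by simp) hv
      subst hvb
      have ht := hp'.1
      rw [Walk.isPath_iff_nil] at ht
      rw [ht.eq_nil]
      refine ⟨by simpa using hx, ?_⟩
      simp
    · obtain ⟨h1, h2⟩ := ih hb hv hp'.1 fun y hy => hs y (by simp [hy])
      have hn : ¬ t.Nil := by
        intro hn
        exact hv (hn.eq ▸ hb)
      rw [Walk.penultimate_cons_of_not_nil _ _ hn]
      refine ⟨h1, Reachable.trans (Adj.reachable ?_) h2⟩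
      exact h

/-- A walk from a component to `S` meets a neighbour of the component in `S`. -/
lemma exists_exit {b : V} (hb : b ∈ S) : ∀ {x : V} (q : G.Walk x b) (hx : x ∉ S),
    ∃ (y z : V) (hy : y ∉ S), (low G S).Reachable ⟨x, hx⟩ ⟨y, hy⟩ ∧ z ∈ S ∧ G.Adj y z ∧
      z ∈ q.support := by
  intro x q
  induction q with
  | nil => intro hx; exact absurd hb hx
  | @cons u v w h t ih =>
    intro hx
    by_cases hv : v ∈ S
    · exact ⟨u, v, hx, Reachable.refl _, hv, h, by simp⟩
    · obtain ⟨y, z, hy, h1, h2, h3, h4⟩ := ih hb hv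
      refine ⟨y, z, hy, Reachable.trans (Adj.reachable ?_) h1, h2, h3, by simp [h4]⟩
      exact h

lemma In.of_reach {C : (low G S).ConnectedComponent} {x y : V} {hx : x ∉ S} {hy : y ∉ S}
    (h : (low G S).Reachable ⟨x, hx⟩ ⟨y, hy⟩) (hC : In C x) : In C y := by
  obtain ⟨_, rfl⟩ := hC
  exact ⟨hy, (ConnectedComponent.sound h).symm⟩

lemma In.not_mem {C : (low G S).ConnectedComponent} {x : V} (h : In C x) : x ∉ S := h.1

lemma exists_in {x : V} (hx : x ∉ S) : ∃ C : (low G S).ConnectedComponent, In C x :=
  ⟨_, hx, rfl⟩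

lemma In.unique {C D : (low G S).ConnectedComponent} {x : V} (h : In C x) (h' : In D x) :
    C = D := by
  obtain ⟨_, rfl⟩ := h
  obtain ⟨_, rfl⟩ := h'
  rfl

section fin

variable [Fintype V] [DecidableEq V] [Fintype (low G S).ConnectedComponent]

open Classical in
/-- The main inequality for a pair of vertices of `S`. -/
lemma pair_le {a b : V} (ha : a ∈ S) (hb : b ∈ S) (hab : a ≠ b) {k : ℕ}
    (h : HasPaths G a b k) : k ≤ (if G.Adj a b then 1 else 0) + (S.card - 2) +
      ∑ C : (low G S).ConnectedComponent, min (sN C a) (sN C b) := by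
  obtain ⟨P, hP⟩ := h
  set T1 : Finset (Fin k) := univ.filter fun i => (P i : G.Walk a b).snd = b with hT1
  set T2 : Finset (Fin k) := univ.filter fun i => ∃ x ∈ (P i : G.Walk a b).support,
    x ∈ S ∧ x ≠ a ∧ x ≠ b with hT2
  set T3 : Finset (Fin k) := univ.filter fun i => (P i : G.Walk a b).snd ≠ b ∧
    ∀ x ∈ (P i : G.Walk a b).support, x ∈ S → x = a ∨ x = b with hT3
  have hnn : ∀ i, ¬ (P i : G.Walk a b).Nil := fun i hn => hab hn.eq
  have c1 : T1.card ≤ if G.Adj a b then 1 else 0 := by
    by_cases hadj : G.Adj a b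
    · rw [if_pos hadj, Finset.card_le_one]
      intro i hi j hj
      by_contra hne
      rw [hT1, mem_filter] at hi hj
      exact snd_inj hab (hP i j hne).1 (hP i j hne).2 (hi.2.trans hj.2.symm)
    · rw [if_neg hadj, Nat.le_zero, Finset.card_eq_zero, Finset.eq_empty_iff_forall_notMem]
      intro i hi
      rw [hT1, mem_filter] at hi
      exact hadj (hi.2 ▸ (P i : G.Walk a b).adj_snd (hnn i))
  have c2 : T2.card ≤ S.card - 2 := by
    have h1 : ∀ i : Fin k, ∃ x, i ∈ T2 → x ∈ (P i : G.Walk a b).support ∧ x ∈ S ∧ x ≠ a ∧ x ≠ b := by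
      intro i
      by_cases hi : i ∈ T2
      · obtain ⟨x, h1, h2⟩ := (mem_filter.1 hi).2
        exact ⟨x, fun _ => ⟨h1, h2⟩⟩
      · exact ⟨a, fun h => absurd h hi⟩
    choose g hg using h1
    have h2 : T2.card ≤ ((S.erase a).erase b).card := by
      apply Finset.card_le_card_of_injOn g
      · intro i hi
        obtain ⟨_, h2, h3, h4⟩ := hg i hi
        simp [h2, h3, h4]
      · intro i hi j hj hij
        by_contra hne
        obtain ⟨h1, _, h3, h4⟩ := hg i hi
        obtain ⟨h1', _, _, _⟩ := hg j hj
        rcases (hP i j hne).2 (g i) h1 (hij ▸ h1') with h | h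
        · exact h3 h
        · exact h4 h
    rw [Finset.card_erase_of_mem (by simp [hb, hab.symm]), Finset.card_erase_of_mem ha] at h2
    omega
  have hpen : ∀ i ∈ T3, (P i : G.Walk a b).snd ∉ S ∧ ∀ C : (low G S).ConnectedComponent,
      In C (P i : G.Walk a b).snd → In C (P i : G.Walk a b).penultimate := by
    intro i hi
    obtain ⟨h1, h2⟩ := (mem_filter.1 hi).2
    generalize P i = Q at h1 h2 ⊢
    obtain ⟨p, hp⟩ := Q
    simp only at h1 h2 ⊢
    cases p with
    | nil => exact absurd rfl hab
    | @cons _ v _ h t =>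
      rw [Walk.snd_cons] at h1 ⊢
      have hp' := (Walk.cons_isPath_iff _ _).1 hp
      have hv : v ∉ S := by
        intro hv
        rcases h2 v (by simp) hv with h3 | h3
        · exact h.ne h3.symm
        · exact h1 h3
      refine ⟨hv, fun C hC => ?_⟩
      obtain ⟨h3, h4⟩ := reach_pen hb t hv hp'.1 (by
        intro y hy hyS
        rcases h2 y (by simp [hy]) hyS with h5 | h5
        · exact absurd (h5 ▸ hy) hp'.2
        · exact h5)
      have hn : ¬ t.Nil := fun hn => hv (hn.eq ▸ hb)
      rw [Walk.penultimate_cons_of_not_nil _ _ hn]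
      exact hC.of_reach h4
  have c3 : T3.card ≤ ∑ C : (low G S).ConnectedComponent, min (sN C a) (sN C b) := by
    have h1 : T3 ⊆ univ.biUnion fun C : (low G S).ConnectedComponent =>
        T3.filter fun i => In C (P i : G.Walk a b).snd := by
      intro i hi
      obtain ⟨C, hC⟩ := exists_in (G := G) (hpen i hi).1
      exact mem_biUnion.2 ⟨C, mem_univ _, mem_filter.2 ⟨hi, hC⟩⟩
    refine (card_le_card h1).trans (card_biUnion_le.trans (sum_le_sum fun C _ => le_min ?_ ?_))
    · apply card_le_card_of_injOn fun i => (P i : G.Walk a b).snd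
      · intro i hi
        have hi' := mem_filter.1 hi
        exact mem_filter.2 ⟨mem_univ _, hi'.2, (P i : G.Walk a b).adj_snd (hnn i)⟩
      · intro i _ j _ hij
        by_contra hne
        exact snd_inj hab (hP i j hne).1 (hP i j hne).2 hij
    · apply card_le_card_of_injOn fun i => (P i : G.Walk a b).penultimate
      · intro i hi
        have hi' := mem_filter.1 hi
        exact mem_filter.2 ⟨mem_univ _, (hpen i hi'.1).2 C hi'.2,
          ((P i : G.Walk a b).adj_penultimate (hnn i)).symm⟩
      · intro i _ j _ hij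
        by_contra hne
        have h5 := hP i j hne
        have h6 : (P i).reverse ≠ (P j).reverse := by
          intro h
          apply h5.1
          apply Subtype.ext
          have h2 := congrArg (fun q => Walk.reverse (q : G.Path b a).1) h
          simpa using h2
        refine snd_inj hab.symm h6 ?_ ?_
        · intro x hx hy
          simp only [Path.reverse_coe, Walk.support_reverse, List.mem_reverse] at hx hy
          exact (h5.2 x hx hy).symm
        · simpa using hij
  have c4 : (univ : Finset (Fin k)) ⊆ T1 ∪ T2 ∪ T3 := by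
    intro i _
    by_cases h1 : i ∈ T1
    · simp [h1]
    by_cases h2 : i ∈ T2
    · simp [h2]
    · simp only [mem_union, h1, h2, false_or]
      refine mem_filter.2 ⟨mem_univ _, fun h => h1 (mem_filter.2 ⟨mem_univ _, h⟩), ?_⟩
      intro x hx hxS
      by_contra hc
      push Not at hc
      exact h2 (mem_filter.2 ⟨mem_univ _, x, hx, hxS, hc.1, hc.2⟩)
  have c5 := card_le_card c4
  rw [card_univ, Fintype.card_fin] at c5
  have c6 := card_union_le (T1 ∪ T2) T3
  have c7 := card_union_le T1 T2
  omega

open Classical in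
omit [Fintype (low G S).ConnectedComponent] in
/-- A component has at least three neighbours in `S`. -/
lemma three_le {C : (low G S).ConnectedComponent} (hI : Ideal G) (hS : 3 ≤ S.card)
    (hd : ∀ a ∈ S, 3 ≤ (G.neighborSet a).ncard) {x : V} (hx : In C x)
    (hdx : 3 ≤ (G.neighborSet x).ncard) : 3 ≤ ∑ a ∈ S, sN C a := by
  set N := S.filter fun a => 1 ≤ sN C a with hN
  have hNle : N.card ≤ ∑ a ∈ S, sN C a := by
    rw [card_eq_sum_ones]
    refine (sum_le_sum fun a ha => (mem_filter.1 ha).2).trans ?_
    exact sum_le_sum_of_subset (filter_subset _ _)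
  refine le_trans ?_ hNle
  by_contra hlt
  push Not at hlt
  obtain ⟨b, hbS, hbN⟩ : ∃ b ∈ S, b ∉ N := by
    by_contra hc
    push Not at hc
    exact absurd (card_le_card hc) (by omega)
  have hxS := hx.not_mem
  have hxb : x ≠ b := fun h => hxS (h ▸ hbS)
  have hp := (hI x b hxb).mono (k := 3) (le_min hdx (hd b hbS))
  obtain ⟨P, hP⟩ := hp
  have h1 : ∀ i : Fin 3, ∃ z, z ∈ N ∧ z ∈ (P i : G.Walk x b).support := by
    intro i
    obtain ⟨y, z, hy, h1, h2, h3, h4⟩ := exists_exit hbS (P i : G.Walk x b) hxS
    refine ⟨z, mem_filter.2 ⟨h2, ?_⟩, h4⟩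
    rw [Nat.one_le_iff_ne_zero, ← Nat.pos_iff_ne_zero]
    exact card_pos.2 ⟨y, mem_filter.2 ⟨mem_univ _, hx.of_reach h1, h3.symm⟩⟩
  choose g hg1 hg2 using h1
  have h2 : (univ : Finset (Fin 3)).card ≤ N.card := by
    apply card_le_card_of_injOn g
    · intro i _
      exact hg1 i
    · intro i _ j _ hij
      by_contra hne
      rcases (hP i j hne).2 (g i) (hg2 i) (hij ▸ hg2 j) with h | h
      · exact hxS (h ▸ (mem_filter.1 (hg1 i)).1)
      · exact hbN (h ▸ hg1 i)
  rw [card_univ, Fintype.card_fin] at h2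
  omega

end fin

end Pool.Agent.AvgConn
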