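import Pool.Agent.Lib_helper36.AvgConn.Count

/-!
# The structure of the ideal graphs with the degree sequence of the reduction
-/

set_option autoImplicit false

namespace Pool.Agent.AvgConn

open SimpleGraph Finset

variable {V : Type} [Fintype V] [DecidableEq V] {G : SimpleGraph V} {S : Finset V}

open Classical in
/-- All components outside `S` have the right sum, and there are `m` of them. -/
theorem comp_structure [Fintype (low G S).ConnectedComponent] (hI : Ideal G) {B m : ℕ}
    (hB : 1 ≤ B) (hm : 1 ≤ m) (hS : S.card = B + 2)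
    (hd : ∀ a ∈ S, (G.neighborSet a).ncard = B + 1 + m) {α : V → ℕ}
    (hα : ∀ x, x ∉ S → 1 ≤ α x ∧ (G.neighborSet x).ncard = α x + 2)
    (hsum : ∑ x ∈ Sᶜ, α x = m * B) :
    Fintype.card (low G S).ConnectedComponent = m ∧
      ∀ C : (low G S).ConnectedComponent, ∑ x ∈ univ.filter (fun x => In C x), α x = B := by
  set p := Fintype.card (low G S).ConnectedComponent with hp
  let T : (low G S).ConnectedComponent → ℕ := fun C =>
    ∑ a ∈ S, ∑ b ∈ S.erase a, min (sN C a) (sN C b)
  let σ : (low G S).ConnectedComponent → ℕ := fun C => ∑ a ∈ S, sN C a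
  let ε : (low G S).ConnectedComponent → ℕ := fun C => ∑ x ∈ univ.filter (fun x => In C x), dL G S x
  let c : (low G S).ConnectedComponent → ℕ := fun C => (univ.filter fun x => In C x).card
  let A : (low G S).ConnectedComponent → ℕ := fun C => ∑ x ∈ univ.filter (fun x => In C x), α x
  -- degrees inside `S`
  have hdS : ∀ a ∈ S, ∑ b ∈ S.erase a, (if G.Adj a b then 1 else 0) = dS G S a := by
    intro a ha
    rw [dS, card_filter, ← sum_erase_add _ _ ha]
    simp
  have hdSle : ∑ a ∈ S, dS G S a ≤ (B + 2) * (B + 1) := by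
    have : ∀ a ∈ S, dS G S a ≤ B + 1 := by
      intro a ha
      rw [← hdS a ha]
      refine (sum_le_sum fun b _ => (?_ : _ ≤ 1)).trans ?_
      · split_ifs <;> omega
      · rw [sum_const, card_erase_of_mem ha, hS]
        simp
    refine (sum_le_sum this).trans ?_
    rw [sum_const, hS, smul_eq_mul]
  obtain ⟨M, hM⟩ := Nat.exists_eq_add_of_le hdSle
  -- (1), (2)
  have h1 : (B + 2) * (B + 1) * (m + 1) ≤ ∑ a ∈ S, dS G S a + ∑ C, T C := by
    have e1 : ∑ C, T C = ∑ a ∈ S, ∑ b ∈ S.erase a, ∑ C : (low G S).ConnectedComponent,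
        min (sN C a) (sN C b) := by
      rw [sum_comm]
      apply sum_congr rfl
      intro a _
      rw [sum_comm]
    have e2 : ∀ a ∈ S, ∀ b ∈ S.erase a, m + 1 ≤ (if G.Adj a b then 1 else 0) +
        ∑ C : (low G S).ConnectedComponent, min (sN C a) (sN C b) := by
      intro a ha b hb
      rw [mem_erase] at hb
      have := hI a b hb.1.symm
      rw [hd a ha, hd b hb.2, min_self] at this
      have := pair_le ha hb.2 hb.1.symm this
      rw [hS] at this
      omega
    have e3 : ∑ a ∈ S, ∑ b ∈ S.erase a, (m + 1) = (B + 2) * (B + 1) * (m + 1) := by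
      have : ∀ a ∈ S, ∑ b ∈ S.erase a, (m + 1) = (B + 1) * (m + 1) := by
        intro a ha
        rw [sum_const, card_erase_of_mem ha, hS]
        simp
      rw [sum_congr rfl this, sum_const, hS, smul_eq_mul]
      ring
    rw [← e3, e1, ← sum_add_distrib]
    apply sum_le_sum
    intro a ha
    rw [← hdS a ha, ← sum_add_distrib]
    exact sum_le_sum (e2 a ha)
  -- (3)
  have h3 : ∑ C, σ C = (B + 2) * m + M := by
    have e1 : ∑ C, σ C = ∑ a ∈ S, dL G S a := by
      rw [sum_comm]
      exact sum_congr rfl fun a _ => sum_sN a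
    have e2 : ∑ a ∈ S, dS G S a + ∑ a ∈ S, dL G S a = (B + 2) * (B + 1 + m) := by
      rw [← sum_add_distrib]
      have : ∀ a ∈ S, dS G S a + dL G S a = B + 1 + m := fun a ha => by rw [← deg_eq, hd a ha]
      rw [sum_congr rfl this, sum_const, hS, smul_eq_mul]
    rw [e1]
    nlinarith
  -- (4)
  have h4 : ∀ C, A C + 2 * c C = ε C + σ C := by
    intro C
    have e1 : σ C = ∑ x ∈ univ.filter (fun x => In C x), dS G S x := sum_sN_eq C
    rw [e1, ← sum_add_distrib]
    have e2 : ∀ x ∈ univ.filter (fun x => In C x), dL G S x + dS G S x = α x + 2 := by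
      intro x hx
      rw [add_comm, ← deg_eq, (hα x (mem_filter.1 hx).2.not_mem).2]
    rw [sum_congr rfl e2, sum_add_distrib, sum_const, smul_eq_mul, mul_comm 2]
  have h5 : ∑ C, A C = m * B := by
    rw [← hsum]
    exact sum_comp α
  have h6 : ∀ C, 2 * c C ≤ ε C + 2 := fun C => comp_edges C
  -- (5)
  have h7 : 2 * m + M ≤ 2 * p := by
    have e1 : ∑ C, A C + ∑ C, 2 * c C = ∑ C, ε C + ∑ C, σ C := by
      rw [← sum_add_distrib, ← sum_add_distrib]
      exact sum_congr rfl fun C _ => h4 C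
    have e2 : ∑ C, 2 * c C ≤ ∑ C, ε C + 2 * p := by
      refine (sum_le_sum fun C _ => h6 C).trans ?_
      rw [sum_add_distrib, sum_const, card_univ, smul_eq_mul, mul_comm]
    rw [h5, h3] at e1
    nlinarith
  -- (6)
  have hS3 : 3 ≤ S.card := by omega
  have hσ3 : ∀ C, 3 ≤ σ C := by
    intro C
    obtain ⟨⟨x, hx⟩, hC⟩ := C.exists_rep
    have hxC : In C x := ⟨hx, hC⟩
    apply three_le hI hS3 (fun a ha => by rw [hd a ha]; omega) hxC
    have := hα x hx
    omega
  have hT1 : ∀ C, T C ≤ (B + 1) * σ C := by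
    intro C
    have := T_le (S := S) (sN C)
    rw [hS] at this
    exact this
  have hT2 : ∀ C, T C + σ C ≤ σ C * σ C := fun C => T_add_le (sN C)
  have h8 : ∀ C, 3 * (B + 2) + T C ≤ (B + 4) * σ C := by
    intro C
    have e1 := hT1 C
    have e2 := hT2 C
    have e3 := hσ3 C
    rcases le_or_gt (B + 2) (σ C) with h | h
    · nlinarith
    · obtain ⟨t, ht⟩ := Nat.exists_eq_add_of_lt h
      -- `σ (j - σ) ≥ 3 (j - σ)`
      have e4 : 3 * (B + 2) + σ C * σ C ≤ σ C * (B + 2) + 3 * σ C := by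
        rw [ht]
        nlinarith
      nlinarith
  have h9 : 3 * (B + 2) * p + ∑ C, T C ≤ (B + 4) * ((B + 2) * m + M) := by
    have := sum_le_sum fun (C : (low G S).ConnectedComponent) (_ : C ∈ univ) => h8 C
    rw [sum_add_distrib, sum_const, card_univ, ← mul_sum, h3, smul_eq_mul] at this
    rw [mul_comm (3 * (B + 2))]
    exact this
  have h10 : (B + 2) * (B + 1) * m + M ≤ ∑ C, T C := by nlinarith
  have hM0 : M = 0 := by
    have e1 : 3 * (B + 2) * (2 * m + M) ≤ 3 * (B + 2) * (2 * p) := Nat.mul_le_mul_left _ h7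
    nlinarith
  subst hM0
  have hpm : p = m := by
    apply le_antisymm
    · by_contra hc
      push Not at hc
      have : 3 * (B + 2) * (m + 1) ≤ 3 * (B + 2) * p := Nat.mul_le_mul_left _ hc
      nlinarith
    · omega
  refine ⟨hpm, fun C₀ => ?_⟩
  -- equality everywhere
  have h11 : ∑ C, T C = ∑ C, (B + 1) * σ C := by
    apply le_antisymm (sum_le_sum fun C _ => hT1 C)
    rw [← mul_sum, h3]
    nlinarith
  have h12 : ∀ C, T C = (B + 1) * σ C := by
    intro C
    exact (sum_eq_sum_iff_of_le fun C _ => hT1 C).1 h11 C (mem_univ _)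
  have h13 : ∀ C, B + 2 ≤ σ C := by
    intro C
    have e1 := h8 C
    rw [h12 C] at e1
    nlinarith
  have h14 : ∀ C, B + 2 = σ C := by
    intro C
    refine (sum_eq_sum_iff_of_le (s := univ) (f := fun _ => B + 2) fun C _ => h13 C).1 ?_ C
      (mem_univ _)
    rw [h3, sum_const, card_univ, ← hp, hpm, smul_eq_mul]
    ring
  have h15 : ∀ C, 2 * c C = ε C + 2 := by
    intro C
    refine (sum_eq_sum_iff_of_le (s := univ) fun C _ => h6 C).1 ?_ C (mem_univ _)
    have e1 : ∑ C, A C + ∑ C, 2 * c C = ∑ C, ε C + ∑ C, σ C := by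
      rw [← sum_add_distrib, ← sum_add_distrib]
      exact sum_congr rfl fun C _ => h4 C
    rw [h5, h3] at e1
    rw [sum_add_distrib, sum_const, card_univ, ← hp, hpm, smul_eq_mul]
    have e2 : (B + 2) * m = m * B + m * 2 := by ring
    rw [e2] at e1
    clear * - e1
    omega
  have e1 := h4 C₀
  have e2 := h15 C₀
  have e3 := h14 C₀
  show A C₀ = B
  omega

/-- **The hard direction.** -/
theorem exists_partition (hI : Ideal G) {B m : ℕ} (hB : 1 ≤ B) (hm : 1 ≤ m) (hS : S.card = B + 2)
    (hd : ∀ a ∈ S, (G.neighborSet a).ncard = B + 1 + m) {α : V → ℕ}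
    (hα : ∀ x, x ∉ S → 1 ≤ α x ∧ (G.neighborSet x).ncard = α x + 2)
    (hsum : ∑ x ∈ Sᶜ, α x = m * B) :
    ∃ f : V → Fin m, ∀ c, ∑ x ∈ Sᶜ.filter (fun x => f x = c), α x = B := by
  classical
  have : Fintype (low G S).ConnectedComponent := Fintype.ofFinite _
  obtain ⟨h1, h2⟩ := comp_structure hI hB hm hS hd hα hsum
  let e : (low G S).ConnectedComponent ≃ Fin m := Fintype.equivFinOfCardEq h1
  refine ⟨fun x => if h : x ∈ S then ⟨0, hm⟩ else
    e ((low G S).connectedComponentMk ⟨x, h⟩), fun k => ?_⟩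
  rw [← h2 (e.symm k)]
  apply sum_congr _ fun _ _ => rfl
  ext x
  simp only [mem_filter, mem_compl, mem_univ, true_and]
  constructor
  · rintro ⟨hx, h⟩
    rw [dif_neg hx] at h
    exact ⟨hx, by rw [← h, Equiv.symm_apply_apply]⟩
  · rintro ⟨hx, h⟩
    refine ⟨hx, ?_⟩
    rw [dif_neg hx, h, Equiv.apply_symm_apply]

end Pool.Agent.AvgConn
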