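import Pool.Agent.Lib_helper36.AvgConn.Build
import Pool.Agent.Lib_helper36.AvgConn.Main

/-!
# Attainable sequences and partitions
-/

set_option autoImplicit false

namespace Pool.Agent.AvgConn

open SimpleGraph Finset

lemma sum_getElem (a : List ℕ) : ∑ i : Fin a.length, a[i] = a.sum := by
  have := Fin.sum_univ_fun_getElem a id
  rw [List.map_id] at this
  exact this

/-- a realisation with average connectivity `B(D)` gives a partition -/
theorem partition_of_attainable {B m : ℕ} {a D : List ℕ} (hB : 1 ≤ B) (hm : 1 ≤ m)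
    (ha : ∀ x ∈ a, 1 ≤ x) (hsum : a.sum = m * B)
    (hperm : D.Perm (List.replicate (B + 2) (B + 1 + m) ++ a.map (· + 2)))
    (h : Attainable D) :
    ∃ f : Fin a.length → Fin m, ∀ c, ∑ i ∈ univ.filter (fun i => f i = c), a[i] = B := by
  classical
  rw [attainable_iff] at h
  obtain ⟨h1, h2, G, hG, hI⟩ := h
  obtain ⟨e, he⟩ := exists_equiv_list hperm
  set S : Finset (Fin D.length) := univ.filter fun i => (e i).isLeft with hS
  have hSc : ∀ i, i ∉ S ↔ ∃ x, e i = .inr x := by
    intro i
    rw [hS, mem_filter]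
    cases h : e i <;> simp
  have hSi : ∀ i, i ∈ S ↔ ∃ x, e i = .inl x := by
    intro i
    rw [hS, mem_filter]
    cases h : e i <;> simp
  -- sums over the complement
  have hsumS : ∀ (p : Fin D.length → Prop) [DecidablePred p], ∑ i ∈ Sᶜ.filter p, (D[i] - 2) =
      ∑ x ∈ univ.filter (fun x : Fin a.length => p (e.symm (.inr x))), a[x] := by
    intro p _
    refine (Finset.sum_bij (fun x _ => e.symm (.inr x)) ?_ ?_ ?_ ?_).symm
    · intro x hx
      rw [mem_filter] at hx
      rw [mem_filter, mem_compl, hSc]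
      exact ⟨⟨x, by simp⟩, hx.2⟩
    · intro x _ y _ hxy
      exact Sum.inr_injective (e.symm.injective hxy)
    · intro i hi
      rw [mem_filter, mem_compl, hSc] at hi
      obtain ⟨⟨x, hx⟩, hi⟩ := hi
      refine ⟨x, ?_, by rw [← hx]; simp⟩
      rw [mem_filter, ← hx]
      exact ⟨mem_univ _, by simpa using hi⟩
    · intro x _
      rw [he (e.symm (.inr x)), Equiv.apply_symm_apply]
      simp
  have p1 : S.card = B + 2 := by
    have : S = univ.image fun x : Fin (B + 2) => e.symm (.inl x) := by
      ext i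
      rw [hSi]
      simp only [mem_image, mem_univ, true_and]
      exact ⟨fun ⟨x, hx⟩ => ⟨x, by rw [← hx]; simp⟩, fun ⟨x, hx⟩ => ⟨x, by rw [← hx]; simp⟩⟩
    rw [this, card_image_of_injective _ (fun x y h => Sum.inl_injective (e.symm.injective h)),
      card_univ, Fintype.card_fin]
  have p2 : ∀ i ∈ S, (G.neighborSet i).ncard = B + 1 + m := by
    intro i hi
    obtain ⟨x, hx⟩ := (hSi i).1 hi
    rw [hG i, he i, hx]
    rfl
  have p3 : ∀ i, i ∉ S → 1 ≤ D[i] - 2 ∧ (G.neighborSet i).ncard = (D[i] - 2) + 2 := by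
    intro i hi
    obtain ⟨x, hx⟩ := (hSc i).1 hi
    have h3 : D[i] = a[x] + 2 := by rw [he i, hx]; rfl
    have h4 : 1 ≤ a[x] := ha _ (List.getElem_mem _)
    rw [hG i, h3]
    omega
  have p4 : ∑ i ∈ Sᶜ, (D[i] - 2) = m * B := by
    have := hsumS (fun _ => True)
    simp only [Finset.filter_true] at this
    rw [this, ← hsum, sum_getElem]
  obtain ⟨f, hf⟩ := exists_partition (S := S) hI hB hm p1 p2 p3 p4
  exact ⟨fun x => f (e.symm (.inr x)), fun c => (hsumS (fun i => f i = c)).symm.trans (hf c)⟩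

/-- functions with given fibre sizes -/
lemma exists_fun {n k : ℕ} (r : Fin k → ℕ) (h : ∑ i, r i = n) :
    ∃ g : Fin n → Fin k, ∀ i, {s | g s = i}.ncard = r i := by
  subst h
  refine ⟨fun s => (finSigmaFinEquiv.symm s).1, fun i => ?_⟩
  have : {s | (finSigmaFinEquiv.symm s).1 = i} =
      Set.range fun t : Fin (r i) => finSigmaFinEquiv (n := r) ⟨i, t⟩ := by
    ext s
    constructor
    · intro hs
      obtain ⟨⟨x, t⟩, rfl⟩ := (finSigmaFinEquiv (n := r)).surjective s
      simp only [Set.mem_ofPred_eq, Equiv.symm_apply_apply] at hs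
      subst hs
      exact ⟨t, rfl⟩
    · rintro ⟨t, rfl⟩
      simp
  rw [this, Set.ncard_range_of_injective, Nat.card_eq_fintype_card, Fintype.card_fin]
  intro t t' h
  have := (finSigmaFinEquiv (n := r)).injective h
  simpa using this

/-- bipartite graphs that are regular on one side -/
lemma exists_bip {N : ℕ} (j m : ℕ) (r : Fin N → ℕ) (hr : ∀ x, r x ≤ j) (hs : ∑ x, r x = m * j) :
    ∃ H : Fin j → Fin N → Prop, (∀ s, {x | H s x}.ncard = m) ∧ ∀ x, {s | H s x}.ncard = r x := by
  let E : (Σ x : Fin N, Fin (r x)) ≃ Fin (m * j) := finSigmaFinEquiv.trans (finCongr hs)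
  let R : Fin N → ℕ := fun x => ∑ i : Fin x, r (Fin.castLE x.2.le i)
  have hR : ∀ x t, (E ⟨x, t⟩).val = R x + t.val := by
    intro x t
    simp only [E, Equiv.trans_apply, finCongr_apply_coe]
    exact finSigmaFinEquiv_apply _
  have hjpos : ∀ x, Fin (r x) → 0 < j := fun x t => (Nat.zero_le _).trans_lt (t.2.trans_le (hr x))
  -- two places of the same block
  have key : ∀ x t t', (E ⟨x, t⟩).val % j = (E ⟨x, t'⟩).val % j → t = t' := by
    intro x t t' h
    rw [hR, hR] at h
    have h1 := t.2.trans_le (hr x)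
    have h2 := t'.2.trans_le (hr x)
    have h3 : (t.val : ℕ) ≡ t'.val [MOD j] := Nat.ModEq.add_left_cancel' _ h
    exact Fin.ext (Nat.ModEq.eq_of_lt_of_lt h3 h1 h2)
  refine ⟨fun s x => ∃ t : Fin (r x), (E ⟨x, t⟩).val % j = s.val, ?_, ?_⟩
  · intro s
    have hj : 0 < j := (Nat.zero_le _).trans_lt s.2
    have hlt : ∀ k : Fin m, k.val * j + s.val < m * j := by
      intro k
      have : (k.val + 1) * j ≤ m * j := Nat.mul_le_mul_right _ k.2
      have := s.2
      nlinarith
    have : {x | ∃ t : Fin (r x), (E ⟨x, t⟩).val % j = s.val} =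
        Set.range fun k : Fin m => (E.symm ⟨k.val * j + s.val, hlt k⟩).1 := by
      ext x
      constructor
      · rintro ⟨t, ht⟩
        have h1 := (E ⟨x, t⟩).2
        refine ⟨⟨(E ⟨x, t⟩).val / j, Nat.div_lt_of_lt_mul (h1.trans_eq (Nat.mul_comm _ _))⟩, ?_⟩
        have : (⟨(E ⟨x, t⟩).val / j * j + s.val, by
            rw [← ht, Nat.div_add_mod']; exact h1⟩ : Fin (m * j)) = E ⟨x, t⟩ := by
          apply Fin.ext
          show (E ⟨x, t⟩).val / j * j + s.val = _
          rw [← ht, Nat.div_add_mod']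
        simp only [this, Equiv.symm_apply_apply]
      · rintro ⟨k, rfl⟩
        refine ⟨(E.symm ⟨k.val * j + s.val, hlt k⟩).2, ?_⟩
        rw [Sigma.eta, Equiv.apply_symm_apply]
        show (k.val * j + s.val) % j = s.val
        rw [Nat.mul_add_mod_of_lt s.2]
    rw [this, Set.ncard_range_of_injective, Nat.card_eq_fintype_card, Fintype.card_fin]
    intro k k' h
    simp only at h
    obtain ⟨⟨x, t⟩, ht⟩ := E.surjective ⟨k.val * j + s.val, hlt k⟩
    obtain ⟨⟨x', t'⟩, ht'⟩ := E.surjective ⟨k'.val * j + s.val, hlt k'⟩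
    rw [← ht, ← ht', Equiv.symm_apply_apply, Equiv.symm_apply_apply] at h
    simp only at h
    subst h
    have h1 := congrArg Fin.val ht
    have h2 := congrArg Fin.val ht'
    simp only at h1 h2
    have h3 := key x t t' (by rw [h1, h2]; simp [Nat.add_mod])
    subst h3
    have h4 : k.val * j = k'.val * j := by omega
    exact Fin.ext (Nat.eq_of_mul_eq_mul_right hj h4)
  · intro x
    have : {s : Fin j | ∃ t : Fin (r x), (E ⟨x, t⟩).val % j = s.val} =
        Set.range fun t : Fin (r x) => (⟨(E ⟨x, t⟩).val % j, Nat.mod_lt _ (hjpos x t)⟩ : Fin j) := by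
      ext s
      constructor
      · rintro ⟨t, ht⟩
        exact ⟨t, Fin.ext ht⟩
      · rintro ⟨t, rfl⟩
        exact ⟨t, rfl⟩
    rw [this, Set.ncard_range_of_injective, Nat.card_eq_fintype_card, Fintype.card_fin]
    intro t t' h
    exact key x t t' (congrArg Fin.val h)

/-- the number of edges from a vertex to the clique -/
def rr {m : ℕ} (b : Fin m × Fin 3 → ℕ) (x : Fin m × Fin 3) : ℕ :=
  b x + 2 - if x.2 = 1 then 2 else 1

lemma rr_eq {m : ℕ} (b : Fin m × Fin 3 → ℕ) (x : Fin m × Fin 3) :
    rr b x + (if x.2 = 1 then 2 else 1) = b x + 2 := by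
  unfold rr
  split_ifs <;> omega

lemma sum_rr {m : ℕ} (b : Fin m × Fin 3 → ℕ) (c : Fin m) :
    ∑ i, rr b (c, i) = ∑ i, b (c, i) + 2 := by
  rw [Fin.sum_univ_three, Fin.sum_univ_three]
  have h0 := rr_eq b (c, 0)
  have h1 := rr_eq b (c, 1)
  have h2 := rr_eq b (c, 2)
  simp only at h0 h1 h2
  rw [if_neg (by decide)] at h0 h2
  rw [if_pos (by trivial)] at h1
  omega

/-- the vertices and degrees, for triples -/
lemma exists_equiv_triples {B m : ℕ} {a D : List ℕ}
    (hperm : D.Perm (List.replicate (B + 2) (B + 1 + m) ++ a.map (· + 2)))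
    (E : Fin a.length ≃ Fin m × Fin 3) :
    ∃ e : Fin D.length ≃ Fin (B + 2) ⊕ (Fin m × Fin 3),
      ∀ i, D[i] = Sum.elim (fun _ => B + 1 + m) (fun x => a[E.symm x] + 2) (e i) := by
  obtain ⟨e, he⟩ := exists_equiv_list hperm
  refine ⟨e.trans (Equiv.sumCongr (Equiv.refl _) E), fun i => ?_⟩
  rw [he i, Equiv.trans_apply]
  cases e i with
  | inl s => rfl
  | inr x =>
    show a[x] + 2 = a[E.symm (E x)] + 2
    simp only [Equiv.symm_apply_apply]

/-- the degree sequences in question are graphical -/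
theorem graphical_of {B m : ℕ} {a D : List ℕ} (hlen : a.length = 3 * m)
    (ha : ∀ x ∈ a, 1 ≤ x ∧ x ≤ B) (hsum : a.sum = m * B) (hD : D.Pairwise (· ≥ ·))
    (hperm : D.Perm (List.replicate (B + 2) (B + 1 + m) ++ a.map (· + 2))) :
    Graphical D := by
  classical
  have E : Fin a.length ≃ Fin m × Fin 3 :=
    (finCongr (by rw [hlen, Nat.mul_comm])).trans finProdFinEquiv.symm
  obtain ⟨e, he⟩ := exists_equiv_triples hperm E
  set b : Fin m × Fin 3 → ℕ := fun x => a[E.symm x] with hb
  have hb1 : ∀ x, 1 ≤ b x ∧ b x ≤ B := fun x => ha _ (List.getElem_mem _)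
  have hbs : ∑ x, b x = m * B := by
    rw [← hsum, ← sum_getElem, hb]
    exact E.symm.sum_comp (fun i => a[i])
  let F : Fin (m * 3) ≃ Fin m × Fin 3 := finProdFinEquiv.symm
  obtain ⟨H, h1, h2⟩ := exists_bip (B + 2) m (fun x => rr b (F x)) (by
    intro x
    have := (hb1 (F x)).2
    unfold rr
    split_ifs <;> omega) (by
    rw [F.sum_comp (fun x => rr b x), Fintype.sum_prod_type]
    rw [sum_congr rfl fun c _ => sum_rr b c, sum_add_distrib, ← Fintype.sum_prod_type, hbs]
    simp
    ring)
  let H' : Fin (B + 2) → Fin m × Fin 3 → Prop := fun s x => H s (F.symm x)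
  have h1' : ∀ s, {x | H' s x}.ncard = m := by
    intro s
    refine Eq.trans ?_ (h1 s)
    have : {x | H' s x} = F '' {x | H s x} := by
      ext x
      constructor
      · intro hx
        exact ⟨F.symm x, hx, by simp⟩
      · rintro ⟨y, hy, rfl⟩
        show H s (F.symm (F y))
        rw [Equiv.symm_apply_apply]
        exact hy
    rw [this, Set.ncard_image_of_injective _ F.injective]
  have h2' : ∀ x, {s | H' s x}.ncard = rr b x := by
    intro x
    have := h2 (F.symm x)
    rw [Equiv.apply_symm_apply] at this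
    exact this
  have hdeg : ∀ i, ((gr H').neighborSet (e i)).ncard = D[i] := by
    intro i
    rw [he i]
    cases h : e i with
    | inl s =>
      rw [gr_ncard_l s (h1' s)]
      show B + 2 - 1 + m = B + 1 + m
      omega
    | inr x =>
      rw [gr_ncard_r x (h2' x), rr_eq]
      rfl
  obtain ⟨G, hG, _⟩ := exists_graph e (gr H') hdeg
  refine ⟨?_, hD, G, hG⟩
  rw [hperm.length_eq, List.length_append, List.length_replicate]
  omega

/-- a partition into groups of sum `B` gives a realisation with average connectivity `B(D)` -/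
theorem attainable_of_partition {B m : ℕ} {a D : List ℕ} (hB : 1 ≤ B)
    (ha : ∀ x ∈ a, B < 4 * x ∧ 2 * x < B) (hD : D.Pairwise (· ≥ ·))
    (hperm : D.Perm (List.replicate (B + 2) (B + 1 + m) ++ a.map (· + 2)))
    (h : ∃ f : Fin a.length → Fin m, ∀ c, ∑ i ∈ univ.filter (fun i => f i = c), a[i] = B) :
    Attainable D := by
  classical
  obtain ⟨f, hf⟩ := h
  -- every group has three members
  have hcard : ∀ c, Fintype.card {i // f i = c} = 3 := by
    intro c
    rw [Fintype.card_subtype]
    have h1 := hf c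
    set T := univ.filter (fun i => f i = c) with hT
    have hne : T.Nonempty := by
      rw [Finset.nonempty_iff_ne_empty]
      intro h0
      rw [h0, Finset.sum_empty] at h1
      omega
    have h2 : T.card * B < 4 * B := by
      conv_rhs => rw [← h1, mul_sum]
      rw [← smul_eq_mul, ← Finset.sum_const]
      exact Finset.sum_lt_sum_of_nonempty hne fun i _ => (ha _ (List.getElem_mem _)).1
    have h3 : 2 * B < T.card * B := by
      conv_lhs => rw [← h1, mul_sum]
      rw [← smul_eq_mul, ← Finset.sum_const]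
      exact Finset.sum_lt_sum_of_nonempty hne fun i _ => (ha _ (List.getElem_mem _)).2
    have h4 := Nat.lt_of_mul_lt_mul_right h2
    have h5 := Nat.lt_of_mul_lt_mul_right h3
    omega
  let E : Fin a.length ≃ Fin m × Fin 3 :=
    ((Equiv.sigmaFiberEquiv f).symm.trans
      (Equiv.sigmaCongrRight fun c => Fintype.equivFinOfCardEq (hcard c))).trans
      (Equiv.sigmaEquivProd (Fin m) (Fin 3))
  have hE : ∀ i, (E i).1 = f i := fun i => rfl
  obtain ⟨e, he⟩ := exists_equiv_triples hperm E
  set b : Fin m × Fin 3 → ℕ := fun x => a[E.symm x] with hb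
  have hb1 : ∀ x, 1 ≤ b x ∧ b x ≤ B := fun x => by
    have := ha _ (List.getElem_mem (E.symm x).2)
    show 1 ≤ a[(E.symm x).val] ∧ a[(E.symm x).val] ≤ B
    omega
  have hbs : ∀ c, ∑ k, b (c, k) = B := by
    intro c
    rw [← hf c]
    refine Finset.sum_bij (fun k _ => E.symm (c, k)) ?_ ?_ ?_ ?_
    · intro k _
      rw [mem_filter, ← hE, Equiv.apply_symm_apply]
      exact ⟨mem_univ _, rfl⟩
    · intro k _ k' _ h
      have := E.symm.injective h
      exact (Prod.mk.inj this).2
    · intro i hi
      rw [mem_filter] at hi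
      refine ⟨(E i).2, mem_univ _, ?_⟩
      rw [Equiv.symm_apply_eq, ← hi.2, ← hE]
    · intro k _
      rfl
  have hg : ∀ c, ∃ g : Fin (B + 2) → Fin 3, ∀ i, {s | g s = i}.ncard = rr b (c, i) := by
    intro c
    apply exists_fun
    rw [sum_rr, hbs]
  choose g hg using hg
  let H : Fin (B + 2) → Fin m × Fin 3 → Prop := fun s x => g x.1 s = x.2
  have h3 : ∀ s c, ∃! i, H s (c, i) := fun s c => ⟨g c s, rfl, fun i hi => hi.symm⟩
  have hne : ∀ x, ∃ s, H s x := by
    intro x
    have h1 := hg x.1 x.2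
    have h2 := rr_eq b x
    have h4 := (hb1 x).1
    have h5 : {s | g x.1 s = x.2}.Nonempty := by
      rw [← Set.ncard_pos (Set.toFinite _), h1]
      show 0 < rr b x
      split_ifs at h2 <;> omega
    exact h5
  have d1 : ∀ s, ((gr H).neighborSet (.inl s)).ncard = B + 1 + m := by
    intro s
    have h1 : {x | H s x}.ncard = m := by
      have : {x | H s x} = Set.range fun c : Fin m => (c, g c s) := by
        ext x
        constructor
        · intro hx
          exact ⟨x.1, Prod.ext rfl hx⟩
        · rintro ⟨c, rfl⟩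
          rfl
      refine (congrArg Set.ncard this).trans ?_
      rw [Set.ncard_range_of_injective, Nat.card_eq_fintype_card, Fintype.card_fin]
      intro c c' h
      exact (Prod.mk.inj h).1
    rw [gr_ncard_l s h1]
    omega
  have d2 : ∀ x, ((gr H).neighborSet (.inr x)).ncard = b x + 2 := by
    intro x
    rw [gr_ncard_r x (hg x.1 x.2), rr_eq]
  have hI : Ideal (gr H) := by
    refine gr_ideal h3 hne (d := B + 1 + m) ?_ d1 (by omega)
    intro x
    rw [d2]
    have := ha _ (List.getElem_mem (E.symm x).2)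
    show a[(E.symm x).val] + 2 ≤ B + 1 + m
    omega
  have hdeg : ∀ i, ((gr H).neighborSet (e i)).ncard = D[i] := by
    intro i
    rw [he i]
    cases h : e i with
    | inl s => exact d1 s
    | inr x => exact d2 x
  obtain ⟨G, hG, hG'⟩ := exists_graph e (gr H) hdeg
  rw [attainable_iff]
  refine ⟨?_, hD, G, hG, hG' hI⟩
  rw [hperm.length_eq, List.length_append, List.length_replicate]
  omega

end Pool.Agent.AvgConn
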