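import Pool.Agent.Lib_helper36.AvgConn.Build2
import Pool.Agent.Lib_helper36.AvgConn.Iff

/-!
# Attainable sequences and partitions into groups of any size
-/

set_option autoImplicit false

namespace Pool.Agent.AvgConn.Gen

open SimpleGraph Finset

/-- the number of edges from a vertex to the clique -/
def rr {m : ℕ} {n : Fin m → ℕ} (b : (Σ c, Fin (n c)) → ℕ) (x : Σ c, Fin (n c)) : ℕ :=
  b x + 2 - dT (n x.1) x.2

lemma dT_le (n i : ℕ) : dT n i ≤ 2 := by
  unfold dT
  split_ifs <;> omega

lemma rr_eq {m : ℕ} {n : Fin m → ℕ} (b : (Σ c, Fin (n c)) → ℕ) (x : Σ c, Fin (n c)) :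
    rr b x + dT (n x.1) x.2 = b x + 2 := by
  have := dT_le (n x.1) x.2
  unfold rr
  omega

lemma sum_rr {m : ℕ} {n : Fin m → ℕ} (b : (Σ c, Fin (n c)) → ℕ) (c : Fin m) (hn : 1 ≤ n c) :
    ∑ i, rr b ⟨c, i⟩ = ∑ i, b ⟨c, i⟩ + 2 := by
  have h1 : ∑ i, rr b ⟨c, i⟩ + ∑ i : Fin (n c), dT (n c) i = ∑ i, b ⟨c, i⟩ + 2 * n c := by
    rw [← Finset.sum_add_distrib, Finset.sum_congr rfl fun i _ => rr_eq b ⟨c, i⟩,
      Finset.sum_add_distrib, Finset.sum_const, card_univ, Fintype.card_fin, smul_eq_mul]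
    omega
  have h2 := sum_dT hn
  omega

/-- the vertices and degrees -/
lemma exists_equiv_groups {B m : ℕ} {n : Fin m → ℕ} {a D : List ℕ}
    (hperm : D.Perm (List.replicate (B + 2) (B + 1 + m) ++ a.map (· + 2)))
    (E : Fin a.length ≃ Σ c, Fin (n c)) :
    ∃ e : Fin D.length ≃ Fin (B + 2) ⊕ (Σ c, Fin (n c)),
      ∀ i, D[i] = Sum.elim (fun _ => B + 1 + m) (fun x => a[E.symm x] + 2) (e i) := by
  obtain ⟨e, he⟩ := exists_equiv_list hperm
  refine ⟨e.trans (Equiv.sumCongr (Equiv.refl _) E), fun i => ?_⟩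
  rw [he i, Equiv.trans_apply]
  cases e i with
  | inl s => rfl
  | inr x =>
    show a[x] + 2 = a[E.symm (E x)] + 2
    simp only [Equiv.symm_apply_apply]

/-- the equivalence with the groups of a function -/
lemma exists_groups {N m : ℕ} (f : Fin N → Fin m) :
    ∃ (n : Fin m → ℕ) (E : Fin N ≃ Σ c, Fin (n c)), (∀ i, (E i).1 = f i) ∧
      ∀ c, (∃ i, f i = c) → 1 ≤ n c := by
  classical
  refine ⟨fun c => Fintype.card {i // f i = c}, (Equiv.sigmaFiberEquiv f).symm.trans
    (Equiv.sigmaCongrRight fun c => Fintype.equivFin _), fun i => rfl, ?_⟩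
  rintro c ⟨i, hi⟩
  exact Fintype.card_pos_iff.2 ⟨⟨i, hi⟩⟩

/-- the degree sequences in question are graphical -/
theorem graphical_of {B m : ℕ} {a D : List ℕ} (hm : 1 ≤ m) (hB : 1 ≤ B)
    (ha : ∀ x ∈ a, 1 ≤ x ∧ x ≤ B) (hsum : a.sum = m * B) (hD : D.Pairwise (· ≥ ·))
    (hperm : D.Perm (List.replicate (B + 2) (B + 1 + m) ++ a.map (· + 2))) :
    Graphical D := by
  classical
  -- there are at least `m` items
  have hlen : m ≤ a.length := by
    have h1 : a.sum ≤ a.length * B := by
      have := List.sum_le_card_nsmul a B fun x hx => (ha x hx).2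
      rwa [smul_eq_mul] at this
    rw [hsum] at h1
    exact Nat.le_of_mul_le_mul_right h1 hB
  obtain ⟨n, E, hE, hn⟩ := exists_groups (fun i : Fin a.length =>
    (⟨min i.val (m - 1), by omega⟩ : Fin m))
  have hn1 : ∀ c, 1 ≤ n c := by
    intro c
    refine hn c ⟨⟨c.val, by have := c.2; omega⟩, ?_⟩
    apply Fin.ext
    have := c.2
    show min c.val (m - 1) = c.val
    omega
  obtain ⟨e, he⟩ := exists_equiv_groups hperm E
  set b : (Σ c, Fin (n c)) → ℕ := fun x => a[E.symm x] with hb
  have hb1 : ∀ x, 1 ≤ b x ∧ b x ≤ B := fun x => ha _ (List.getElem_mem _)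
  have hbs : ∑ x, b x = m * B := by
    rw [← hsum, ← sum_getElem, hb]
    exact E.symm.sum_comp (fun i => a[i])
  have hrs : ∑ x, rr b x = m * (B + 2) := by
    rw [Fintype.sum_sigma, Finset.sum_congr rfl fun c _ => sum_rr b c (hn1 c),
      Finset.sum_add_distrib, ← Fintype.sum_sigma, hbs]
    simp
    ring
  obtain ⟨H, h1, h2⟩ := exists_bip (N := a.length) (B + 2) m (fun x => rr b (E x)) (by
    intro x
    have h3 := (hb1 (E x)).2
    show b (E x) + 2 - dT (n (E x).1) (E x).2 ≤ B + 2
    omega) (by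
    rw [E.sum_comp (fun x => rr b x), hrs])
  let H' : Fin (B + 2) → (Σ c, Fin (n c)) → Prop := fun s x => H s (E.symm x)
  have h1' : ∀ s, {x | H' s x}.ncard = m := by
    intro s
    refine Eq.trans ?_ (h1 s)
    have : {x | H' s x} = E '' {x | H s x} := by
      ext x
      constructor
      · intro hx
        exact ⟨E.symm x, hx, by simp⟩
      · rintro ⟨y, hy, rfl⟩
        show H s (E.symm (E y))
        rw [Equiv.symm_apply_apply]
        exact hy
    rw [this, Set.ncard_image_of_injective _ E.injective]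
  have h2' : ∀ x, {s | H' s x}.ncard = rr b x := by
    intro x
    have := h2 (E.symm x)
    rw [Equiv.apply_symm_apply] at this
    exact this
  have hdeg : ∀ i, ((gr H').neighborSet (e i)).ncard = D[i] := by
    intro i
    rw [he i]
    cases h : e i with
    | inl s =>
      rw [gr_ncard_l s (h1' s)]
      show B + 2 - 1 + m = B + 1 + m
      omega
    | inr x =>
      rw [gr_ncard_r x (h2' x), rr_eq]
      rfl
  obtain ⟨G, hG, _⟩ := exists_graph e (gr H') hdeg
  refine ⟨?_, hD, G, hG⟩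
  rw [hperm.length_eq, List.length_append, List.length_replicate]
  omega

/-- a partition into groups of sum `B` gives a realisation with average connectivity `B(D)` -/
theorem attainable_of_partition {B m : ℕ} {a D : List ℕ} (hB : 1 ≤ B)
    (ha : ∀ x ∈ a, 1 ≤ x) (hD : D.Pairwise (· ≥ ·))
    (hperm : D.Perm (List.replicate (B + 2) (B + 1 + m) ++ a.map (· + 2)))
    (h : ∃ f : Fin a.length → Fin m, ∀ c, ∑ i ∈ univ.filter (fun i => f i = c), a[i] = B) :
    Attainable D := by
  classical
  obtain ⟨f, hf⟩ := h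
  obtain ⟨n, E, hE, hn⟩ := exists_groups f
  have hn1 : ∀ c, 1 ≤ n c := by
    intro c
    apply hn
    have h1 := hf c
    by_contra hcon
    push Not at hcon
    rw [Finset.filter_false_of_mem fun i _ => hcon i, Finset.sum_empty] at h1
    omega
  obtain ⟨e, he⟩ := exists_equiv_groups hperm E
  set b : (Σ c, Fin (n c)) → ℕ := fun x => a[E.symm x] with hb
  have hb1 : ∀ x, 1 ≤ b x := fun x => ha _ (List.getElem_mem _)
  have hbs : ∀ c, ∑ k, b ⟨c, k⟩ = B := by
    intro c
    rw [← hf c]
    refine Finset.sum_bij (fun k _ => E.symm ⟨c, k⟩) ?_ ?_ ?_ ?_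
    · intro k _
      rw [mem_filter, ← hE, Equiv.apply_symm_apply]
      exact ⟨mem_univ _, rfl⟩
    · intro k _ k' _ h
      have := E.symm.injective h
      exact eq_of_heq (Sigma.mk.inj this).2
    · intro i hi
      rw [mem_filter, ← hE] at hi
      obtain ⟨-, hi⟩ := hi
      subst hi
      refine ⟨(E i).2, mem_univ _, ?_⟩
      rw [Equiv.symm_apply_eq]
    · intro k _
      rfl
  have hbB : ∀ x, b x ≤ B := by
    intro x
    rw [← hbs x.1]
    exact Finset.single_le_sum (f := fun k => b ⟨x.1, k⟩) (fun _ _ => Nat.zero_le _) (mem_univ x.2)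
  have hg : ∀ c, ∃ g : Fin (B + 2) → Fin (n c), ∀ i, {s | g s = i}.ncard = rr b ⟨c, i⟩ := by
    intro c
    apply exists_fun
    rw [sum_rr b c (hn1 c), hbs]
  choose g hg using hg
  let H : Fin (B + 2) → (Σ c, Fin (n c)) → Prop := fun s x => g x.1 s = x.2
  have h3 : ∀ s c, ∃! i, H s ⟨c, i⟩ := fun s c => ⟨g c s, rfl, fun i hi => hi.symm⟩
  have hne : ∀ x, ∃ s, H s x := by
    intro x
    have h1 := hg x.1 x.2
    have h2 := rr_eq b x
    have h4 := hb1 x
    have h6 := dT_le (n x.1) x.2
    have h5 : {s | g x.1 s = x.2}.Nonempty := by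
      rw [← Set.ncard_pos (Set.toFinite _), h1]
      show 0 < rr b x
      omega
    exact h5
  have d1 : ∀ s, ((gr H).neighborSet (.inl s)).ncard = B + 1 + m := by
    intro s
    have h1 : {x | H s x}.ncard = m := by
      have : {x | H s x} = Set.range fun c : Fin m => (⟨c, g c s⟩ : Σ c, Fin (n c)) := by
        ext x
        constructor
        · intro hx
          exact ⟨x.1, Sigma.ext rfl (heq_of_eq hx)⟩
        · rintro ⟨c, rfl⟩
          rfl
      refine (congrArg Set.ncard this).trans ?_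
      rw [Set.ncard_range_of_injective, Nat.card_eq_fintype_card, Fintype.card_fin]
      intro c c' h
      exact (Sigma.mk.inj h).1
    rw [gr_ncard_l s h1]
    omega
  have d2 : ∀ x, ((gr H).neighborSet (.inr x)).ncard = b x + 2 := by
    intro x
    rw [gr_ncard_r x (hg x.1 x.2)]
    exact rr_eq b x
  have hm : 1 ≤ m ∨ m = 0 := by omega
  have hI : Ideal (gr H) := by
    refine gr_ideal h3 hne (d := B + 1 + m) ?_ d1 (by omega)
    intro x
    rw [d2]
    have h1 := hbB x
    have h2 : 1 ≤ m := (Nat.zero_le _).trans_lt x.1.2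
    omega
  have hdeg : ∀ i, ((gr H).neighborSet (e i)).ncard = D[i] := by
    intro i
    rw [he i]
    cases h : e i with
    | inl s => exact d1 s
    | inr x => exact d2 x
  obtain ⟨G, hG, hG'⟩ := exists_graph e (gr H) hdeg
  rw [attainable_iff]
  refine ⟨?_, hD, G, hG, hG' hI⟩
  rw [hperm.length_eq, List.length_append, List.length_replicate]
  omega

end Pool.Agent.AvgConn.Gen
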