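import Pool.Agent.Lib_helper36.AvgConn.Concrete

/-!
# Sequences with many entries at least three are attained
-/

set_option autoImplicit false

namespace Pool.Agent.AvgConn

open SimpleGraph Finset

/-- the rows have nearly equal sums -/
lemma row_sum {n R Δ : ℕ} (hR : 1 ≤ R) (f : Fin n → ℕ) (hanti : ∀ i j : Fin n, i ≤ j → f j ≤ f i)
    (hf : ∀ i, f i ≤ Δ) {ρ ρ' : ℕ} (hρ' : ρ' < R) :
    ∑ v ∈ univ.filter (fun v : Fin n => v.val % R = ρ), f v ≤
      Δ + ∑ v ∈ univ.filter (fun v : Fin n => v.val % R = ρ'), f v := by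
  classical
  rw [← Finset.sum_filter_add_sum_filter_not (univ.filter (fun v : Fin n => v.val % R = ρ))
    (fun v => v.val < R) f]
  apply Nat.add_le_add
  · have h1 : ((univ.filter (fun v : Fin n => v.val % R = ρ)).filter fun v => v.val < R).card ≤ 1 := by
      rw [card_le_one]
      intro a ha b hb
      simp only [mem_filter, mem_univ, true_and] at ha hb
      apply Fin.ext
      rw [← Nat.mod_eq_of_lt ha.2, ← Nat.mod_eq_of_lt hb.2, ha.1, hb.1]
    calc _ ≤ ∑ v ∈ (univ.filter (fun v : Fin n => v.val % R = ρ)).filter (fun v => v.val < R), Δ :=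
          Finset.sum_le_sum fun v _ => hf v
      _ = ((univ.filter (fun v : Fin n => v.val % R = ρ)).filter fun v => v.val < R).card * Δ := by
          rw [Finset.sum_const, smul_eq_mul]
      _ ≤ 1 * Δ := Nat.mul_le_mul_right _ h1
      _ = Δ := Nat.one_mul _
  · -- move one column to the left
    set A := (univ.filter (fun v : Fin n => v.val % R = ρ)).filter (fun v => ¬ v.val < R) with hA
    have hlt : ∀ v : Fin n, ¬ v.val < R → ρ' + (v.val / R - 1) * R < v.val := by
      intro v hv
      have e1 := Nat.mod_add_div v.val R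
      have e2 : 1 ≤ v.val / R := (Nat.one_le_div_iff (by omega)).2 (not_lt.1 hv)
      obtain ⟨k, hk⟩ : ∃ k, v.val / R = k + 1 := ⟨v.val / R - 1, by omega⟩
      rw [hk, Nat.add_sub_cancel]
      rw [hk, Nat.mul_add, Nat.mul_one, Nat.mul_comm] at e1
      omega
    let e : Fin n → Fin n := fun v => if h : ¬ v.val < R then
      ⟨ρ' + (v.val / R - 1) * R, (hlt v h).trans v.2⟩ else v
    have he : ∀ v ∈ A, (e v).val = ρ' + (v.val / R - 1) * R := by
      intro v hv
      rw [hA, mem_filter] at hv
      simp only [e, dif_pos hv.2]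
    have hinj : Set.InjOn e A := by
      intro v hv w hw hvw
      have h1 := congrArg Fin.val hvw
      rw [he v hv, he w hw] at h1
      rw [mem_coe, hA, mem_filter, mem_filter] at hv hw
      have h2 : (v.val / R - 1) = (w.val / R - 1) := by
        apply Nat.eq_of_mul_eq_mul_right (show 0 < R by omega)
        omega
      have e1 := Nat.mod_add_div v.val R
      have e2 := Nat.mod_add_div w.val R
      have e3 : 1 ≤ v.val / R := (Nat.one_le_div_iff (by omega)).2 (not_lt.1 hv.2)
      have e4 : 1 ≤ w.val / R := (Nat.one_le_div_iff (by omega)).2 (not_lt.1 hw.2)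
      have e5 : v.val / R = w.val / R := by omega
      apply Fin.ext
      rw [← e1, ← e2, hv.1.2, hw.1.2, e5]
    calc ∑ v ∈ A, f v ≤ ∑ v ∈ A, f (e v) := by
          apply Finset.sum_le_sum
          intro v hv
          apply hanti
          have h1 := he v hv
          rw [hA, mem_filter] at hv
          rw [Fin.le_def, h1]
          exact (hlt v hv.2).le
      _ = ∑ w ∈ A.image e, f w := (Finset.sum_image hinj).symm
      _ ≤ _ := by
          apply Finset.sum_le_sum_of_subset
          intro w hw
          rw [mem_image] at hw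
          obtain ⟨v, hv, rfl⟩ := hw
          rw [mem_filter]
          refine ⟨mem_univ _, ?_⟩
          rw [he v hv, Nat.add_mul_mod_self_right, Nat.mod_eq_of_lt hρ']

lemma row_sum_le {n R Δ : ℕ} (hR : 1 ≤ R) (f : Fin n → ℕ)
    (hanti : ∀ i j : Fin n, i ≤ j → f j ≤ f i) (hf : ∀ i, f i ≤ Δ) (ρ : ℕ) :
    ∑ v ∈ univ.filter (fun v : Fin n => v.val % R = ρ), f v ≤ (∑ v, f v) / R + Δ := by
  classical
  have h1 : R * ∑ v ∈ univ.filter (fun v : Fin n => v.val % R = ρ), f v ≤ R * Δ + ∑ v, f v := by
    have h2 : ∑ v, f v = ∑ ρ' ∈ range R, ∑ v ∈ univ.filter (fun v : Fin n => v.val % R = ρ'), f v := by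
      rw [Finset.sum_fiberwise_of_maps_to]
      intro v _
      rw [mem_range]
      exact Nat.mod_lt _ hR
    rw [h2]
    have h3 : R * Δ = ∑ ρ' ∈ range R, Δ := by rw [Finset.sum_const, card_range, smul_eq_mul]
    have h4 : R * ∑ v ∈ univ.filter (fun v : Fin n => v.val % R = ρ), f v =
        ∑ ρ' ∈ range R, ∑ v ∈ univ.filter (fun v : Fin n => v.val % R = ρ), f v := by
      rw [Finset.sum_const, card_range, smul_eq_mul]
    rw [h3, h4, ← Finset.sum_add_distrib]
    apply Finset.sum_le_sum
    intro ρ' hρ'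
    rw [mem_range] at hρ'
    exact row_sum hR f hanti hf hρ'
  set s := ∑ v ∈ univ.filter (fun v : Fin n => v.val % R = ρ), f v
  set S := ∑ v, f v
  have h5 : s ≤ (S + Δ * R) / R := by
    rw [Nat.le_div_iff_mul_le hR]
    nlinarith
  rwa [Nat.add_mul_div_right _ _ hR] at h5

/-- **The construction.** -/
theorem exists_ideal {n Δ : ℕ} (d : Fin n → ℕ) (hanti : ∀ i j : Fin n, i ≤ j → d j ≤ d i)
    (h2 : ∀ i, 2 ≤ d i) (hΔ : ∀ i, d i ≤ Δ) (hn : 1000 * Δ ^ 2 ≤ n) (hn0 : 0 < n)
    (hN : ∀ i : Fin n, i.val < 1000 * Δ ^ 2 → 3 ≤ d i) (heven : Even (∑ i, d i)) :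
    ∃ G : SimpleGraph (Fin n), (∀ i, (G.neighborSet i).ncard = d i) ∧ Ideal G := by
  classical
  have hΔ1 : 2 ≤ Δ := (h2 ⟨0, hn0⟩).trans (hΔ _)
  set R := 40 * Δ with hR
  set T := Δ + 2 with hT
  have hR1 : 1 ≤ R := by omega
  have hTR : 2 * T * R ≤ 240 * Δ ^ 2 := by
    rw [hT, hR]
    nlinarith
  have hΔsq : 4 ≤ Δ ^ 2 := by nlinarith
  have hTn : 2 * T * R ≤ n := by omega
  have hRn : 3 * R ≤ n := by
    have : 3 * R ≤ 240 * Δ ^ 2 := by rw [hR]; nlinarith
    omega
  set f : Fin n → ℕ := fun i => d i - 2 with hf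
  have hfd : ∀ i, f i + 2 = d i := fun i => Nat.sub_add_cancel (h2 i)
  have hfanti : ∀ i j : Fin n, i ≤ j → f j ≤ f i := fun i j hij => Nat.sub_le_sub_right (hanti i j hij) 2
  have hfΔ : ∀ i, f i ≤ Δ := fun i => (Nat.sub_le _ _).trans (hΔ i)
  -- the sum of the targets
  have hS : 1000 * Δ ^ 2 ≤ ∑ i, f i := by
    have e1 : ((univ.filter fun i : Fin n => i.val < 1000 * Δ ^ 2).card) = 1000 * Δ ^ 2 := by
      have : (univ.filter fun i : Fin n => i.val < 1000 * Δ ^ 2).card =
          (range (1000 * Δ ^ 2)).card := by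
        apply Finset.card_bij (fun i _ => i.val)
        · intro i hi
          rw [mem_filter] at hi
          rw [mem_range]
          exact hi.2
        · intro i _ j _ h
          exact Fin.ext h
        · intro x hx
          rw [mem_range] at hx
          exact ⟨⟨x, by omega⟩, by rw [mem_filter]; exact ⟨mem_univ _, hx⟩, rfl⟩
      rw [this, card_range]
    calc 1000 * Δ ^ 2 = ∑ i ∈ univ.filter (fun i : Fin n => i.val < 1000 * Δ ^ 2), 1 := by
          rw [Finset.sum_const, smul_eq_mul, mul_one, e1]
      _ ≤ ∑ i ∈ univ.filter (fun i : Fin n => i.val < 1000 * Δ ^ 2), f i := by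
          apply Finset.sum_le_sum
          intro i hi
          rw [mem_filter] at hi
          have := hN i hi.2
          have := hfd i
          omega
      _ ≤ ∑ i, f i := Finset.sum_le_sum_of_subset (Finset.filter_subset _ _)
  have hfe : Even (∑ i, f i) := by
    have e1 : ∑ i, d i = ∑ i, f i + 2 * n := by
      rw [← Finset.sum_congr rfl fun i _ => hfd i, Finset.sum_add_distrib, Finset.sum_const,
        card_univ, Fintype.card_fin, smul_eq_mul, Nat.mul_comm]
    rw [e1] at heven
    exact (Nat.even_add.1 heven).2 (even_two_mul n)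
  obtain ⟨H, hgood, hle, hdeg⟩ := exists_good (row := fun i : Fin n => i.val % R)
    (H₀ := rungs n R T) (rungs_good hR1) (f := f) (by
      intro v
      refine (dg_rungs hR1 v).trans ?_
      split_ifs with h
      · have := hN v (by omega)
        have := hfd v
        omega
      · exact Nat.zero_le _) hfe (Δ := Δ) (s := (∑ v, f v) / R + Δ) hfΔ (by
      intro u
      convert row_sum_le hR1 f hfanti hfΔ (u.val % R)) (by
      have e1 := sum_dg_rungs (n := n) (T := T) hR1
      have e2 : R * ((∑ v, f v) / R) ≤ ∑ v, f v := Nat.mul_div_le _ _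
      set S := ∑ v, f v
      set q := S / R
      rw [hR] at e2
      have e3 : (1 + 2 * Δ) * (q + Δ) ≤ 3 * (Δ * q) + 3 * Δ ^ 2 := by nlinarith [Nat.zero_le q]
      have e4 : 40 * Δ * q = 40 * (Δ * q) := by ring
      rw [e4] at e2
      omega)
  -- the graph
  have hne : ∀ i : Fin n, sp n R hR1 i ≠ i := by
    intro i h
    have h1 := congrArg Fin.val h
    rw [sp_val] at h1
    have := i.2
    have m1 := Nat.mod_lt i.val hR1
    split_ifs at h1 <;> omega
  have hne2 : ∀ i : Fin n, sp n R hR1 (sp n R hR1 i) ≠ i := by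
    intro i h
    have h1 := congrArg Fin.val h
    rw [sp_val, sp_val] at h1
    have := i.2
    have m1 := Nat.mod_lt i.val hR1
    by_cases h3 : i.val + R < n
    · rw [if_pos h3] at h1
      rw [Nat.add_mod_right] at h1
      split_ifs at h1 <;> omega
    · rw [if_neg h3] at h1
      rw [if_pos (by omega)] at h1
      omega
  let G : SimpleGraph (Fin n) :=
    { Adj := fun v w => w = sp n R hR1 v ∨ v = sp n R hR1 w ∨ H.Adj v w
      symm := ⟨by
        rintro v w (h | h | h)
        · exact Or.inr (Or.inl h)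
        · exact Or.inl h
        · exact Or.inr (Or.inr h.symm)⟩
      loopless := ⟨by
        rintro v (h | h | h)
        · exact hne v h.symm
        · exact hne v h.symm
        · exact H.loopless.irrefl v h⟩ }
  have hG : ∀ v w, G.Adj v w ↔ (w = sp n R hR1 v ∨ v = sp n R hR1 w ∨ H.Adj v w) :=
    fun v w => Iff.rfl
  have hdG : ∀ i, (G.neighborSet i).ncard = d i := by
    intro i
    have h1 : G.neighborSet i = (((univ.filter fun w => H.Adj i w) ∪
        {sp n R hR1 i, (sp n R hR1)⁻¹ i} : Finset (Fin n)) : Set (Fin n)) := by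
      ext w
      rw [mem_neighborSet, hG, mem_coe, mem_union, mem_filter, mem_insert, mem_singleton]
      constructor
      · rintro (h | h | h)
        · exact Or.inr (Or.inl h)
        · right; right
          rw [h]
          exact ((sp n R hR1).symm_apply_apply w).symm
        · exact Or.inl ⟨mem_univ _, h⟩
      · rintro (h | h | h)
        · exact Or.inr (Or.inr h.2)
        · exact Or.inl h
        · right; left
          rw [h]
          exact ((sp n R hR1).apply_symm_apply i).symm
    rw [h1, Set.ncard_coe_finset, card_union_of_disjoint, card_pair]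
    · have := hdeg i
      unfold dg at this
      rw [this, hfd]
    · intro h
      apply hne2 i
      have h3 : sp n R hR1 ((sp n R hR1)⁻¹ i) = i := (sp n R hR1).apply_symm_apply i
      rw [h, h3]
    · rw [Finset.disjoint_left]
      intro w hw hw2
      rw [mem_filter] at hw
      have h3 := hgood.ne i w hw.2
      apply h3
      show i.val % R = w.val % R
      rw [sp_same hR1]
      rw [mem_insert, mem_singleton] at hw2
      rcases hw2 with h | h
      · exact ⟨1, by rw [h]; simp⟩
      · exact ⟨-1, by rw [h]; simp⟩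
  refine ⟨G, hdG, ?_⟩
  refine ideal_of_rows (row := fun i : Fin n => i.val % R) hG (sp_same hR1) hgood.ne hgood.inj
    (Δ := Δ) (fun v => by rw [hdG]; exact hΔ v) ?_
  intro Y hY
  -- a block outside `Y`
  have hex : ∃ c ∈ range T, c ∉ Y.image fun y => y.val / (2 * R) := by
    by_contra hcon
    push Not at hcon
    have h1 := Finset.card_le_card hcon
    rw [card_range] at h1
    have h3 := Finset.card_image_le (s := Y) (f := fun y => y.val / (2 * R))
    omega
  obtain ⟨c, hc, hcY⟩ := hex
  rw [mem_range] at hc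
  refine ⟨fun p => p.val / (2 * R) = c, ?_, ?_, ?_⟩
  · intro p hp hpY
    exact hcY (mem_image.2 ⟨p, hpY, hp⟩)
  · intro v
    have m1 := Nat.mod_lt v.val hR1
    have hbound : 2 * (c + 1) * R ≤ 2 * T * R :=
      Nat.mul_le_mul_right _ (Nat.mul_le_mul_left _ hc)
    have hexp : 2 * (c + 1) * R = 2 * c * R + 2 * R := by ring
    refine ⟨⟨2 * c * R + v.val % R, by omega⟩, ?_, ?_⟩
    · show (2 * c * R + v.val % R) / (2 * R) = c
      rw [show 2 * c * R + v.val % R = v.val % R + (2 * R) * c by ring,
        Nat.add_mul_div_left _ _ (by omega), Nat.div_eq_of_lt (by omega), Nat.zero_add]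
    · show (2 * c * R + v.val % R) % R = v.val % R
      rw [show 2 * c * R + v.val % R = v.val % R + R * (2 * c) by ring,
        Nat.add_mul_mod_self_left, Nat.mod_mod]
  · intro p q hp hq
    refine block_conn hR1 ⟨20 * Δ, by rw [hR]; ring⟩ ?_ ?_ hTn hc p q hp hq
    · intro i j hij
      left
      apply Fin.ext
      rw [sp_val, if_pos (by rw [← hij]; exact j.2), hij]
    · intro a b hab
      exact Or.inr (Or.inr (hle hab))

end Pool.Agent.AvgConn
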