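import Pool.Agent.Lib_helper36.AvgConn.Basic

/-!
# Internally disjoint paths from connectivity, through Menger's theorem
-/

set_option autoImplicit false

namespace Pool.Agent.AvgConn

open SimpleGraph Pool.Agent.Lib53.HamBase

variable {V : Type} {G : SimpleGraph V}

lemma HasPaths.of_fintype {v w : V} {ι : Type} [Fintype ι] (P : ι → G.Path v w)
    (hP : ∀ i j, i ≠ j → P i ≠ P j ∧
    ∀ x, x ∈ (P i : G.Walk v w).support → x ∈ (P j : G.Walk v w).support → x = v ∨ x = w)
    {k : ℕ} (hk : k ≤ Fintype.card ι) : HasPaths G v w k := by
  have e : Fin (Fintype.card ι) ≃ ι := (Fintype.equivFin ι).symm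
  refine HasPaths.mono ⟨fun i => P (e i), fun i j hij => hP _ _ fun h => hij (e.injective h)⟩ hk

/-- a walk with a given list of vertices -/
lemma exists_walk : ∀ (l : List V) {a b : V}, l.IsChain G.Adj → l.head? = some a →
    l.getLast? = some b → ∃ p : G.Walk a b, p.support = l := by
  intro l
  induction l with
  | nil => intro a b _ h; simp at h
  | cons x l ih =>
    intro a b hc ha hb
    obtain rfl : x = a := by simpa using ha
    cases l with
    | nil =>
      obtain rfl : x = b := by simpa using hb
      exact ⟨Walk.nil, rfl⟩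
    | cons y l =>
      rw [List.isChain_cons_cons] at hc
      obtain ⟨p, hp⟩ := ih (a := y) (b := b) hc.2 rfl (by rwa [List.getLast?_cons_cons] at hb)
      exact ⟨Walk.cons hc.1 p, by rw [Walk.support_cons, hp]⟩

open Classical in
/-- If deleting fewer than `k` vertices (counting the edge `vw` as one) leaves a connection from
`v` to `w`, then there are `k` internally disjoint paths. -/
theorem hasPaths_of_conn [Fintype V] {v w : V} (hvw : v ≠ w) {k : ℕ}
    (h : ∀ X : Finset V, v ∉ X → w ∉ X → X.card + (if G.Adj v w then 1 else 0) < k →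
      ∃ u u', G.Adj v u ∧ u ≠ w ∧ u ∉ X ∧ G.Adj u' w ∧ u' ≠ v ∧
        Relation.ReflTransGen (fun p q => G.Adj p q ∧ q ∉ X ∧ q ≠ v ∧ q ≠ w) u u') :
    HasPaths G v w k := by
  set A : V → V → Prop := fun p q => G.Adj p q ∧ p ≠ v ∧ p ≠ w ∧ q ≠ v ∧ q ≠ w with hA
  set k' := k - (if G.Adj v w then 1 else 0) with hk'
  have hlink := menger A Finset.univ (fun _ _ _ => by simp)
    (fun u => G.Adj v u ∧ u ≠ w) (fun u => G.Adj u w ∧ u ≠ v) k' (by
      intro X hX hsep
      set X' := (X.erase v).erase w with hX'
      have h1 : X'.card ≤ X.card := (Finset.card_erase_le).trans Finset.card_erase_le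
      obtain ⟨u, u', h2, h3, h4, h5, h6, h7⟩ := h X' (by simp [hX']) (by simp [hX']) (by omega)
      -- a walk of the digraph
      have h8 : ∃ l : List V, Wlk A (fun x => x = u) (fun x => x = u') l ∧ ∀ x ∈ l, x ∉ X' ∧
          x ≠ v ∧ x ≠ w := by
        clear h5 h6
        induction h7 with
        | refl => 
          refine ⟨[u], ⟨by simp, ⟨u, rfl, rfl⟩, ⟨u, rfl, rfl⟩⟩, ?_⟩
          intro x hx
          rw [List.mem_singleton] at hx
          subst hx
          exact ⟨h4, h2.ne', h3⟩
        | @tail b c _ hbc ih =>
          obtain ⟨l, ⟨hc, ⟨x, hx1, hx2⟩, ⟨y, hy1, hy2⟩⟩, hl⟩ := ih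
          subst hx2 hy2
          have hyl : y ∈ l := List.mem_of_getLast? hy1
          refine ⟨l ++ [c], ⟨?_, ⟨x, ?_, rfl⟩, ⟨c, by simp, rfl⟩⟩, ?_⟩
          · refine List.isChain_append.2 ⟨hc, by simp, ?_⟩
            intro p hp q hq
            rw [hy1] at hp
            obtain rfl : y = p := by simpa using hp
            obtain rfl : c = q := by simpa using hq
            exact ⟨hbc.1, (hl y hyl).2.1, (hl y hyl).2.2, hbc.2.2.1, hbc.2.2.2⟩
          · rw [List.head?_append, hx1]; rfl
          · intro p hp
            rcases List.mem_append.1 hp with hp | hp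
            · exact hl p hp
            · rw [List.mem_singleton] at hp
              subst hp
              exact hbc.2
      obtain ⟨l, ⟨hc, ⟨x, hx1, hx2⟩, ⟨y, hy1, hy2⟩⟩, hl⟩ := h8
      subst hx2 hy2
      obtain ⟨z, hz1, hz2⟩ := hsep l ⟨hc, ⟨x, hx1, h2, h3⟩, ⟨y, hy1, h5, h6⟩⟩
      obtain ⟨h9, h10, h11⟩ := hl z hz1
      exact h9 (by simp [hX', h10, h11, hz2]))
  obtain ⟨P, hP, hdisj⟩ := hlink
  -- the members of the paths
  have hmem : ∀ i, ∀ x ∈ P i, x ≠ v ∧ x ≠ w := by
    intro i
    obtain ⟨a, b, hab, ⟨h1, h2⟩, h3, h4⟩ := hP i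
    have hch : (P i).IsChain A := hab.chain
    have ha : (P i).head? = some a := hab.head
    have h5 : a ≠ v ∧ a ≠ w := ⟨h1.ne', h2⟩
    clear hab h1 h2 h3 h4
    generalize P i = l at hch ha
    induction l generalizing a with
    | nil => simp
    | cons z l ih =>
      obtain rfl : z = a := by simpa using ha
      intro x hx
      rcases List.mem_cons.1 hx with hx | hx
      · exact hx ▸ h5
      · cases l with
        | nil => simp at hx
        | cons y l =>
          rw [List.isChain_cons_cons] at hch
          exact ih y ⟨hch.1.2.2.2.1, hch.1.2.2.2.2⟩ hch.2 rfl x hx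
  -- the paths
  have hpath : ∀ i, ∃ p : G.Path v w, (p : G.Walk v w).support = v :: (P i ++ [w]) := by
    intro i
    obtain ⟨a, b, hab, ⟨h1, h2⟩, h3, h4⟩ := hP i
    have hch : (P i).IsChain G.Adj := hab.chain.imp fun _ _ h => h.1
    have hc : (v :: (P i ++ [w])).IsChain G.Adj := by
      have e1 : (P i ++ [w]).IsChain G.Adj := by
        refine List.isChain_append.2 ⟨hch, by simp, ?_⟩
        intro p hp q hq
        rw [hab.last] at hp
        obtain rfl : b = p := by simpa using hp
        obtain rfl : w = q := by simpa using hq
        exact h3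
      have e2 := hab.head
      generalize P i = l at e1 e2
      cases l with
      | nil => simp at e2
      | cons z l =>
        obtain rfl : z = a := by simpa using e2
        exact List.isChain_cons_cons.2 ⟨h1, e1⟩
    obtain ⟨p, hp⟩ := exists_walk (G := G) (v :: (P i ++ [w])) (a := v) (b := w) hc rfl
      (by rw [← List.cons_append, List.getLast?_append]; rfl)
    refine ⟨⟨p, ?_⟩, hp⟩
    rw [Walk.isPath_def, hp, List.nodup_cons]
    refine ⟨?_, ?_⟩
    · simp only [List.mem_append, List.mem_singleton, not_or]
      exact ⟨fun hh => (hmem i v hh).1 rfl, hvw⟩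
    · rw [List.nodup_append]
      refine ⟨hab.nodup, by simp, ?_⟩
      intro x hx y hy
      rw [List.mem_singleton] at hy
      subst hy
      exact (hmem i x hx).2
  choose Q hQ using hpath
  have hne : ∀ i, P i ≠ [] := by
    intro i
    obtain ⟨a, b, hab, _⟩ := hP i
    intro h0
    have := hab.head
    rw [h0] at this
    simp at this
  have hQd : ∀ i j, i ≠ j → Q i ≠ Q j ∧
      ∀ x, x ∈ (Q i : G.Walk v w).support → x ∈ (Q j : G.Walk v w).support → x = v ∨ x = w := by
    intro i j hij
    have hd := hdisj i j hij
    constructor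
    · intro he
      have e1 : P i = P j := by
        have e2 := hQ i
        rw [he, hQ j] at e2
        have e3 := List.append_cancel_right (List.cons.inj e2).2
        exact e3.symm
      rw [e1] at hd
      obtain ⟨x, hx⟩ := List.exists_mem_of_ne_nil _ (hne j)
      exact hd hx hx
    · intro x hx hy
      rw [hQ i] at hx
      rw [hQ j] at hy
      by_contra hcon
      push Not at hcon
      have e1 : x ∈ P i := by
        simp only [List.mem_cons, List.mem_append, List.not_mem_nil, or_false] at hx
        tauto
      have e2 : x ∈ P j := by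
        simp only [List.mem_cons, List.mem_append, List.not_mem_nil, or_false] at hy
        tauto
      exact hd e1 e2
  by_cases hadj : G.Adj v w
  · let P0 : G.Path v w := Path.singleton hadj
    refine HasPaths.of_fintype (ι := Option (Fin k')) (fun o => o.elim P0 Q) ?_ ?_
    · have hP0 : ∀ i, P0 ≠ Q i ∧ ∀ x, x ∈ (P0 : G.Walk v w).support →
          x ∈ (Q i : G.Walk v w).support → x = v ∨ x = w := by
        intro i
        constructor
        · intro he
          have e1 := hQ i
          rw [← he] at e1
          have e2 : (P0 : G.Walk v w).support = [v, w] := rfl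
          rw [e2] at e1
          have e3 := congrArg List.length e1
          simp only [List.length_cons, List.length_append, List.length_nil] at e3
          have e4 : (P i).length = 0 := by omega
          exact hne i (List.length_eq_zero_iff.1 e4)
        · intro x hx _
          have e2 : (P0 : G.Walk v w).support = [v, w] := rfl
          rw [e2] at hx
          simpa using hx
      intro i j hij
      cases i with
      | none =>
        cases j with
        | none => exact absurd rfl hij
        | some j => exact hP0 j
      | some i =>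
        cases j with
        | none => exact ⟨(hP0 i).1.symm, fun x hx hy => (hP0 i).2 x hy hx⟩
        | some j => exact hQd i j fun h => hij (by rw [h])
    · rw [Fintype.card_option, Fintype.card_fin, hk', if_pos hadj]
      omega
  · have : k' = k := by rw [hk', if_neg hadj]; rfl
    rw [← this]
    exact ⟨Q, hQd⟩

end Pool.Agent.AvgConn
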