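import Pool.Agent.Lib_helper36.AvgConn.Seq
import Pool.Agent.Lib_helper79.Seg.Verify

/-!
# Attainability is in NP
-/

set_option autoImplicit false

namespace Pool.Agent.AvgConn

open List Pool.Agent.Poly Pool.Agent.Seg

/-- the number of codes of path entries -/
def off (n : ℕ) : ℕ := n * n * n * (n + 1)

/-- an entry of a path -/
def pp (v : ℕ → ℕ) (n x y i t : ℕ) : ℕ := v (((x * n + y) * n + i) * (n + 1) + t)

/-- adjacency -/
def adB (v : ℕ → ℕ) (n x y : ℕ) : Bool :=
  !(decide (x = y)) && (decide (0 < v (off n + (x * n + y))) || decide (0 < v (off n + (y * n + x))))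

/-- the condition on a certificate -/
def Cond (D : List ℕ) (v : ℕ → ℕ) : Prop :=
  2 ≤ D.length ∧ (∀ i < D.length, ∀ j < D.length, i < j → D.getD j 0 ≤ D.getD i 0) ∧
  (∀ x < D.length, ((range D.length).filter fun y => adB v D.length x y).length = D.getD x 0) ∧
  ∀ x < D.length, ∀ y < D.length, x ≠ y → ∀ i < D.length, (i < D.getD x 0 ∧ i < D.getD y 0) →
    (pp v D.length x y i 0 = x ∧ pp v D.length x y i D.length = y) ∧
    (∀ t < D.length, (adB v D.length (pp v D.length x y i t) (pp v D.length x y i (t + 1)) = true ∧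
        ¬ pp v D.length x y i (t + 1) = x ∧ pp v D.length x y i (t + 1) < D.length) ∨
      (pp v D.length x y i t = y ∧ pp v D.length x y i (t + 1) = y)) ∧
    ∀ i' < D.length, (i' < D.getD x 0 ∧ i' < D.getD y 0 ∧ ¬ i = i') →
      ¬ (pp v D.length x y i 1 = y ∧ pp v D.length x y i' 1 = y) ∧
      ∀ t < D.length + 1, ∀ t' < D.length + 1, pp v D.length x y i t = pp v D.length x y i' t' →
        (pp v D.length x y i t = x ∨ pp v D.length x y i t = y)

lemma adB_symm (v : ℕ → ℕ) (n x y : ℕ) (h : adB v n x y = true) : adB v n y x = true := by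
  unfold adB at h ⊢
  simp only [Bool.and_eq_true, Bool.not_eq_true', decide_eq_false_iff_not, Bool.or_eq_true,
    decide_eq_true_eq] at h ⊢
  exact ⟨fun hh => h.1 hh.symm, h.2.symm⟩

lemma adB_irrefl (v : ℕ → ℕ) (n x : ℕ) : ¬ adB v n x x = true := by
  unfold adB
  simp

lemma ncard_fin (n : ℕ) (p : ℕ → Bool) :
    {y : Fin n | p y = true}.ncard = ((range n).filter p).length := by
  classical
  have h1 : {y : Fin n | p y = true}.ncard = ∑ y : Fin n, if p y = true then 1 else 0 := by
    rw [← Finset.card_filter, ← Set.ncard_coe_finset]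
    congr 1
    ext y
    simp
  rw [h1, Fin.sum_univ_eq_sum_range (fun y => if p y = true then 1 else 0)]
  clear h1
  induction n with
  | zero => rfl
  | succ n ih =>
    rw [Finset.sum_range_succ, ih, range_succ, filter_append, length_append]
    congr 1
    by_cases h : p n = true <;> simp [h]

theorem of_cond {D : List ℕ} {v : ℕ → ℕ} (h : Cond D v) : Attainable D := by
  classical
  obtain ⟨h1, h2, h3, h4⟩ := h
  rw [attainable_iff]
  set n := D.length with hn
  refine ⟨h1, ?_, ?_⟩
  · rw [pairwise_iff_getElem]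
    intro i j hi hj hij
    have := h2 i hi j hj hij
    rwa [getD_eq_getElem _ _ hi, getD_eq_getElem _ _ hj] at this
  let G : SimpleGraph (Fin n) :=
    { Adj := fun x y => adB v n x y = true
      symm := ⟨fun x y h => adB_symm v n x y h⟩
      loopless := ⟨fun x h => adB_irrefl v n x h⟩ }
  have hdeg : ∀ x : Fin n, (G.neighborSet x).ncard = D[x] := by
    intro x
    have e1 := h3 x x.2
    rw [getD_eq_getElem _ _ x.2, ← ncard_fin] at e1
    exact e1
  refine ⟨G, hdeg, ?_⟩
  intro x y hxy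
  rw [hdeg x, hdeg y]
  have hxy' : (x : ℕ) ≠ y := fun h => hxy (Fin.ext h)
  have hlt : ∀ x : Fin n, D[x] < n := by
    intro x
    rw [← hdeg x]
    have : (G.neighborSet x).ncard < (Set.univ : Set (Fin n)).ncard := by
      apply Set.ncard_lt_ncard _ (Set.toFinite _)
      rw [Set.ssubset_univ_iff]
      intro h
      have : x ∈ G.neighborSet x := by rw [h]; trivial
      exact G.loopless.irrefl x this
    rwa [Set.ncard_univ, Nat.card_eq_fintype_card, Fintype.card_fin] at this
  have hk : ∀ i, i < min D[x] D[y] → i < n ∧ (i < D.getD x 0 ∧ i < D.getD y 0) := by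
    intro i hi
    rw [lt_min_iff] at hi
    rw [getD_eq_getElem _ _ x.2, getD_eq_getElem _ _ y.2]
    exact ⟨hi.1.trans (hlt x), hi⟩
  have hval : ∀ i, i < min D[x] D[y] → ∀ t ≤ n, pp v n x y i t < n := by
    intro i hi t
    obtain ⟨a1, a2, a3⟩ := h4 x x.2 y y.2 hxy' i (hk i hi).1 (hk i hi).2
    induction t with
    | zero =>
      intro _
      rw [a1.1]
      exact x.2
    | succ t ih =>
      intro ht
      rcases a2 t (by omega) with h | h
      · exact h.2.2
      · rw [h.2]
        exact y.2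
  let p : ℕ → ℕ → Fin n := fun i t => if h : pp v n x y i t < n then ⟨pp v n x y i t, h⟩ else x
  have hp : ∀ i, i < min D[x] D[y] → ∀ t ≤ n, (p i t).val = pp v n x y i t := by
    intro i hi t ht
    simp only [p, dif_pos (hval i hi t ht)]
  refine Seqs.hasPaths hxy (n := n) (p := p) ⟨?_, ?_, ?_, ?_, ?_⟩
  · intro i hi
    obtain ⟨a1, a2, a3⟩ := h4 x x.2 y y.2 hxy' i (hk i hi).1 (hk i hi).2
    apply Fin.ext
    rw [hp i hi 0 (Nat.zero_le _), a1.1]
  · intro i hi
    obtain ⟨a1, a2, a3⟩ := h4 x x.2 y y.2 hxy' i (hk i hi).1 (hk i hi).2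
    apply Fin.ext
    rw [hp i hi n le_rfl, a1.2]
  · intro i hi t ht
    obtain ⟨a1, a2, a3⟩ := h4 x x.2 y y.2 hxy' i (hk i hi).1 (hk i hi).2
    rcases a2 t ht with h | h
    · left
      refine ⟨?_, ?_⟩
      · show adB v n (p i t) (p i (t + 1)) = true
        rw [hp i hi t ht.le, hp i hi (t + 1) ht]
        exact h.1
      · intro hh
        apply h.2.1
        rw [← hp i hi (t + 1) ht, hh]
    · right
      refine ⟨Fin.ext ?_, Fin.ext ?_⟩
      · rw [hp i hi t ht.le, h.1]
      · rw [hp i hi (t + 1) ht, h.2]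
  · intro i hi i' hi' hne
    obtain ⟨a1, a2, a3⟩ := h4 x x.2 y y.2 hxy' i (hk i hi).1 (hk i hi).2
    obtain ⟨a4, a5⟩ := a3 i' (hk i' hi').1 ⟨(hk i' hi').2.1, (hk i' hi').2.2, hne⟩
    rintro ⟨e1, e2⟩
    apply a4
    rw [← hp i hi 1 (by omega), ← hp i' hi' 1 (by omega), e1, e2]
    exact ⟨rfl, rfl⟩
  · intro i hi i' hi' hne t ht t' ht' heq
    obtain ⟨a1, a2, a3⟩ := h4 x x.2 y y.2 hxy' i (hk i hi).1 (hk i hi).2
    obtain ⟨a4, a5⟩ := a3 i' (hk i' hi').1 ⟨(hk i' hi').2.1, (hk i' hi').2.2, hne⟩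
    have := a5 t (by omega) t' (by omega) (by rw [← hp i hi t ht, ← hp i' hi' t' ht', heq])
    rw [← hp i hi t ht] at this
    rcases this with h | h
    · exact Or.inl (Fin.ext h)
    · exact Or.inr (Fin.ext h)

/-! ### Certificates exist -/

/-- the numbers of a certificate -/
def enc (F : ℕ → ℕ → ℕ → ℕ → ℕ) (A : ℕ → ℕ → ℕ) (n q : ℕ) : ℕ :=
  if q < off n then F (q / (n + 1) / n / n) (q / (n + 1) / n % n) (q / (n + 1) % n) (q % (n + 1))
  else A ((q - off n) / n) ((q - off n) % n)

lemma enc_pp (F : ℕ → ℕ → ℕ → ℕ → ℕ) (A : ℕ → ℕ → ℕ) {n x y i t : ℕ} (hx : x < n) (hy : y < n)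
    (hi : i < n) (ht : t < n + 1) : pp (enc F A n) n x y i t = F x y i t := by
  have hn : 0 < n := by omega
  have e1 : ((x * n + y) * n + i) * (n + 1) + t < off n := by
    have a1 : x * n + y + 1 ≤ n * n := by nlinarith
    have a2 : (x * n + y) * n + i + 1 ≤ n * n * n := by nlinarith
    unfold off
    have a3 : ((x * n + y) * n + i + 1) * (n + 1) ≤ n * n * n * (n + 1) := Nat.mul_le_mul_right _ a2
    nlinarith
  have e2 : (((x * n + y) * n + i) * (n + 1) + t) % (n + 1) = t := by
    rw [Nat.mul_comm, Nat.mul_add_mod, Nat.mod_eq_of_lt ht]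
  have e3 : (((x * n + y) * n + i) * (n + 1) + t) / (n + 1) = (x * n + y) * n + i := by
    rw [Nat.mul_comm, Nat.mul_add_div (by omega), Nat.div_eq_of_lt ht, Nat.add_zero]
  have e4 : ((x * n + y) * n + i) % n = i := by
    rw [Nat.mul_comm, Nat.mul_add_mod, Nat.mod_eq_of_lt hi]
  have e5 : ((x * n + y) * n + i) / n = x * n + y := by
    rw [Nat.mul_comm, Nat.mul_add_div hn, Nat.div_eq_of_lt hi, Nat.add_zero]
  have e6 : (x * n + y) % n = y := by
    rw [Nat.mul_comm, Nat.mul_add_mod, Nat.mod_eq_of_lt hy]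
  have e7 : (x * n + y) / n = x := by
    rw [Nat.mul_comm, Nat.mul_add_div hn, Nat.div_eq_of_lt hy, Nat.add_zero]
  unfold pp enc
  rw [if_pos e1, e2, e3, e4, e5, e6, e7]

lemma enc_ad (F : ℕ → ℕ → ℕ → ℕ → ℕ) (A : ℕ → ℕ → ℕ) {n x y : ℕ} (hy : y < n) :
    enc F A n (off n + (x * n + y)) = A x y := by
  have hn : 0 < n := by omega
  have e6 : (x * n + y) % n = y := by
    rw [Nat.mul_comm, Nat.mul_add_mod, Nat.mod_eq_of_lt hy]
  have e7 : (x * n + y) / n = x := by
    rw [Nat.mul_comm, Nat.mul_add_div hn, Nat.div_eq_of_lt hy, Nat.add_zero]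
  unfold enc
  rw [if_neg (by omega), Nat.add_sub_cancel_left, e6, e7]

theorem cond_of {D : List ℕ} (h : Attainable D) : ∃ v : ℕ → ℕ, (∀ q, v q ≤ D.length) ∧ Cond D v := by
  classical
  rw [attainable_iff] at h
  obtain ⟨h1, h2, G, hdeg, hI⟩ := h
  have hS : ∀ x y : Fin D.length, x ≠ y → ∃ p, Seqs G x y (min D[x] D[y]) D.length p := by
    intro x y hxy
    have := (hI x y hxy).seqs hxy
    rw [hdeg x, hdeg y, Fintype.card_fin] at this
    exact this
  choose! p hp using hS
  let F : ℕ → ℕ → ℕ → ℕ → ℕ := fun x y i t =>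
    if h : x < D.length ∧ y < D.length then (p ⟨x, h.1⟩ ⟨y, h.2⟩ i t).val else 0
  let A : ℕ → ℕ → ℕ := fun x y =>
    if h : x < D.length ∧ y < D.length then (if G.Adj ⟨x, h.1⟩ ⟨y, h.2⟩ then 1 else 0) else 0
  have hF : ∀ (x y : Fin D.length) (i t : ℕ), F x y i t = p x y i t := by
    intro x y i t
    simp only [F, dif_pos (show (x : ℕ) < D.length ∧ (y : ℕ) < D.length from ⟨x.2, y.2⟩)]
  have hA : ∀ (x y : Fin D.length), A x y = if G.Adj x y then 1 else 0 := by
    intro x y
    simp only [A, dif_pos (show (x : ℕ) < D.length ∧ (y : ℕ) < D.length from ⟨x.2, y.2⟩)]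
  have hv : ∀ (x y : Fin D.length) (i t : ℕ), i < D.length → t < D.length + 1 → pp (enc F A D.length) D.length x y i t = p x y i t := by
    intro x y i t hi ht
    rw [enc_pp F A x.2 y.2 hi ht, hF]
  have had : ∀ x y : Fin D.length, adB (enc F A D.length) D.length x y = true ↔ G.Adj x y := by
    intro x y
    unfold adB
    rw [enc_ad F A y.2, enc_ad F A x.2, hA, hA]
    simp only [Bool.and_eq_true, Bool.not_eq_true', decide_eq_false_iff_not, Bool.or_eq_true,
      decide_eq_true_eq]
    by_cases hxy : G.Adj x y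
    · rw [if_pos hxy]
      have : (x : ℕ) ≠ y := fun h => hxy.ne (Fin.ext h)
      simp [this, hxy]
    · rw [if_neg hxy, if_neg fun h => hxy h.symm]
      simp [hxy]
  refine ⟨enc F A D.length, ?_, ?_, ?_, ?_, ?_⟩
  · intro q
    unfold enc
    split_ifs with hq
    · simp only [F]
      split_ifs with hh
      · exact (Fin.is_lt _).le
      · exact Nat.zero_le _
    · simp only [A]
      split_ifs <;> omega
  · exact h1
  · intro i hi j hj hij
    rw [getD_eq_getElem _ _ hi, getD_eq_getElem _ _ hj]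
    exact pairwise_iff_getElem.1 h2 i j hi hj hij
  · intro x hx
    rw [getD_eq_getElem _ _ hx, ← ncard_fin]
    have := hdeg ⟨x, hx⟩
    refine Eq.trans ?_ this
    congr 1
    ext y
    exact had ⟨x, hx⟩ y
  · intro x hx y hy hxy i hi hik
    have hxy' : (⟨x, hx⟩ : Fin D.length) ≠ ⟨y, hy⟩ := fun h => hxy (congrArg Fin.val h)
    rw [getD_eq_getElem _ _ hx, getD_eq_getElem _ _ hy] at hik
    have hik' : i < min (D[(⟨x, hx⟩ : Fin D.length)]) (D[(⟨y, hy⟩ : Fin D.length)]) := lt_min hik.1 hik.2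
    have hs := hp ⟨x, hx⟩ ⟨y, hy⟩ hxy'
    have hv' : ∀ i t, i < D.length → t < D.length + 1 →
        pp (enc F A D.length) D.length x y i t = p ⟨x, hx⟩ ⟨y, hy⟩ i t := hv ⟨x, hx⟩ ⟨y, hy⟩
    refine ⟨⟨?_, ?_⟩, ?_, ?_⟩
    · rw [hv' i 0 hi (by omega), hs.zero i hik']
    · rw [hv' i D.length hi (by omega), hs.last i hik']
    · intro t ht
      rw [hv' i t hi (by omega), hv' i (t + 1) hi (by omega)]
      rcases hs.step i hik' t ht with h | h
      · left
        exact ⟨(had _ _).2 h.1, fun hh => h.2 (Fin.ext hh), Fin.is_lt _⟩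
      · right
        rw [h.1, h.2]
        exact ⟨rfl, rfl⟩
    · intro i' hi' hik2
      rw [getD_eq_getElem _ _ hx, getD_eq_getElem _ _ hy] at hik2
      have hik2' : i' < min (D[(⟨x, hx⟩ : Fin D.length)]) (D[(⟨y, hy⟩ : Fin D.length)]) :=
        lt_min hik2.1 hik2.2.1
      refine ⟨?_, ?_⟩
      · rw [hv' i 1 hi (by omega), hv' i' 1 hi' (by omega)]
        rintro ⟨e1, e2⟩
        exact hs.one i hik' i' hik2' hik2.2.2 ⟨Fin.ext e1, Fin.ext e2⟩
      · intro t ht t' ht'
        rw [hv' i t hi ht, hv' i' t' hi' ht']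
        intro heq
        rcases hs.disj i hik' i' hik2' hik2.2.2 t (by omega) t' (by omega) (Fin.ext heq) with h | h
        · left; rw [h]
        · right; rw [h]

lemma cond_congr {D : List ℕ} {v v' : ℕ → ℕ}
    (h : ∀ q < off D.length + D.length * D.length, v q = v' q) (hc : Cond D v) : Cond D v' := by
  obtain ⟨h1, h2, h3, h4⟩ := hc
  set n := D.length with hn
  have hpp : ∀ x y i t, x < n → y < n → i < n → t < n + 1 → pp v n x y i t = pp v' n x y i t := by
    intro x y i t hx hy hi ht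
    apply h
    have a1 : x * n + y + 1 ≤ n * n := by nlinarith
    have a2 : (x * n + y) * n + i + 1 ≤ n * n * n := by nlinarith
    unfold off
    have a3 : ((x * n + y) * n + i + 1) * (n + 1) ≤ n * n * n * (n + 1) := Nat.mul_le_mul_right _ a2
    nlinarith
  have had : ∀ x y, x < n → y < n → adB v n x y = adB v' n x y := by
    intro x y hx hy
    unfold adB
    have a1 : x * n + y + 1 ≤ n * n := by nlinarith
    have a2 : y * n + x + 1 ≤ n * n := by nlinarith
    rw [h _ (by omega), h _ (by omega)]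
  refine ⟨h1, h2, ?_, ?_⟩
  · intro x hx
    rw [← h3 x hx]
    congr 1
    apply filter_congr
    intro y hy
    rw [mem_range] at hy
    rw [had x y hx hy]
  · intro x hx y hy hxy i hi hik
    obtain ⟨a1, a2, a3⟩ := h4 x hx y hy hxy i hi hik
    -- the entries are vertices
    have hlt : ∀ t ≤ n, pp v n x y i t < n := by
      intro t
      induction t with
      | zero => intro _; rw [a1.1]; exact hx
      | succ t ih =>
        intro ht
        rcases a2 t (by omega) with h | h
        · exact h.2.2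
        · rw [h.2]; exact hy
    refine ⟨?_, ?_, ?_⟩
    · rw [← hpp x y i 0 hx hy hi (by omega), ← hpp x y i n hx hy hi (by omega)]
      exact a1
    · intro t ht
      rw [← hpp x y i t hx hy hi (by omega), ← hpp x y i (t + 1) hx hy hi (by omega),
        ← had _ _ (hlt t ht.le) (hlt (t + 1) ht)]
      exact a2 t ht
    · intro i' hi' hik'
      obtain ⟨a4, a5⟩ := a3 i' hi' hik'
      refine ⟨?_, ?_⟩
      · rw [← hpp x y i 1 hx hy hi (by omega), ← hpp x y i' 1 hx hy hi' (by omega)]
        exact a4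
      · intro t ht t' ht'
        rw [← hpp x y i t hx hy hi ht, ← hpp x y i' t' hx hy hi' ht']
        exact a5 t ht t' ht'

end Pool.Agent.AvgConn
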