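import Pool.Agent.Lib_helper36.AvgConn.Iff
import Pool.Agent.Lib_helper79.Seg.Verify

/-!
# The reduction from 3-PARTITION
-/

set_option autoImplicit false

namespace Pool.Agent.AvgConn

open List Pool.Agent.Poly

/-- a third of the length -/
def mm (a : List ℕ) : ℕ := ((range a.length).filter fun i => decide (3 * i < a.length)).length

/-- the members that are at most `B`, in non-increasing order -/
def srt (B : ℕ) (a : List ℕ) : List ℕ :=
  (range (B + 1)).flatMap fun v => a.filter fun x => decide (x = B - v)

/-- well-formed instances of 3-PARTITION -/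
def wf (I : ℕ × List ℕ) : Bool :=
  (decide (1 ≤ mm I.2) && decide (I.2.length = 3 * mm I.2)) &&
  (I.2.all (fun x => decide (I.1 < 4 * x) && decide (2 * x < I.1)) &&
    decide ((I.2.flatMap fun x => replicate x 0).length = mm I.2 * I.1))

/-- the reduction -/
def red (I : ℕ × List ℕ) : List ℕ :=
  bif wf I then replicate (I.1 + 2) (I.1 + 1 + mm I.2) ++ (srt I.1 I.2).map fun x => x + 2
  else replicate 9 10 ++ [6, 4, 4, 4, 4, 4]

lemma mm_eq {a : List ℕ} {m : ℕ} (h : a.length = 3 * m) : mm a = m := by
  unfold mm
  rw [h]
  have h1 : ((range (3 * m)).filter fun i => decide (3 * i < 3 * m)) =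
      (range (3 * m)).filter fun i => decide (i < m) := by
    apply filter_congr
    intro i _
    rw [decide_eq_decide]
    omega
  rw [h1]
  have h5 : ∀ n v, v ≤ n → ((range n).filter fun p => decide (p < v)).length = v := by
    intro n
    induction n with
    | zero => intro v hv; simp; omega
    | succ n ih =>
      intro v hv
      rw [range_succ, filter_append, length_append]
      rcases Nat.lt_or_ge n v with h | h
      · have hv' : v = n + 1 := by omega
        subst hv'
        have : ((range n).filter fun p => decide (p < n + 1)) = range n := by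
          rw [filter_eq_self]
          intro p hp
          rw [mem_range] at hp
          simp
          omega
        rw [this]
        simp
      · rw [ih v h]
        have : ¬ n < v := by omega
        simp [this]
  exact h5 _ _ (by omega)

lemma srt_succ (B : ℕ) (a : List ℕ) :
    srt (B + 1) a = (a.filter fun x => decide (x = B + 1)) ++ srt B a := by
  unfold srt
  rw [range_succ_eq_map (n := B + 1), flatMap_cons, Nat.sub_zero, flatMap_map]
  congr 1
  apply flatMap_congr
  intro v _
  congr 1
  funext x
  congr 1
  rw [show (B + 1) - (v + 1) = B - v by omega]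

lemma mem_srt {B : ℕ} {a : List ℕ} {x : ℕ} (h : x ∈ srt B a) : x ≤ B := by
  unfold srt at h
  rw [mem_flatMap] at h
  obtain ⟨v, _, h⟩ := h
  rw [mem_filter, decide_eq_true_eq] at h
  omega

lemma srt_pairwise (B : ℕ) (a : List ℕ) : (srt B a).Pairwise (· ≥ ·) := by
  have h1 : ∀ y, (a.filter fun x => decide (x = y)).Pairwise (· ≥ ·) := by
    intro y
    rw [pairwise_filter]
    apply pairwise_of_forall
    intro x z hx hz
    rw [decide_eq_true_eq] at hx hz
    omega
  induction B with
  | zero =>
    have : srt 0 a = a.filter fun x => decide (x = 0) := by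
      unfold srt
      simp
    rw [this]
    exact h1 0
  | succ B ih =>
    rw [srt_succ, pairwise_append]
    refine ⟨h1 _, ih, ?_⟩
    intro x hx y hy
    rw [mem_filter, decide_eq_true_eq] at hx
    have := mem_srt hy
    omega

lemma srt_perm (B : ℕ) (a : List ℕ) : srt B a ~ a.filter fun x => decide (x ≤ B) := by
  induction B with
  | zero =>
    have : srt 0 a = a.filter fun x => decide (x ≤ 0) := by
      unfold srt
      simp
    rw [this]
  | succ B ih =>
    rw [srt_succ]
    refine (Perm.append_left _ ih).trans ?_
    rw [perm_iff_count]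
    intro y
    have key : ∀ (p : ℕ → Bool), (a.filter p).count y = bif p y then a.count y else 0 := by
      intro p
      cases hp : p y with
      | true => rw [count_filter hp, cond_true]
      | false =>
        rw [cond_false, count_eq_zero]
        intro hm
        rw [mem_filter, hp] at hm
        exact absurd hm.2 (by simp)
    rw [count_append, key, key, key]
    by_cases h1 : y = B + 1
    · have h2 : ¬ y ≤ B := by omega
      have h3 : y ≤ B + 1 := by omega
      rw [decide_eq_true h1, decide_eq_false h2, decide_eq_true h3]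
      simp
    · by_cases h2 : y ≤ B
      · have h3 : y ≤ B + 1 := by omega
        rw [decide_eq_false h1, decide_eq_true h2, decide_eq_true h3]
        simp
      · have h3 : ¬ y ≤ B + 1 := by omega
        rw [decide_eq_false h1, decide_eq_false h2, decide_eq_false h3]
        simp

lemma wf_iff (I : ℕ × List ℕ) : wf I = true ↔ ∃ m, 1 ≤ m ∧ I.2.length = 3 * m ∧
    (∀ a ∈ I.2, I.1 < 4 * a ∧ 2 * a < I.1) ∧ I.2.sum = m * I.1 := by
  have hs : (I.2.flatMap fun x => replicate x 0).length = I.2.sum := by
    rw [length_flatMap]
    congr 1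
    simp
  unfold wf
  simp only [Bool.and_eq_true, decide_eq_true_eq, all_eq_true, hs]
  constructor
  · rintro ⟨⟨h1, h2⟩, h3, h4⟩
    exact ⟨mm I.2, h1, h2, h3, h4⟩
  · rintro ⟨m, h1, h2, h3, h4⟩
    rw [mm_eq h2]
    exact ⟨⟨h1, h2⟩, h3, h4⟩

/-- the facts on the image of a well-formed instance -/
lemma red_wf {B m : ℕ} {a : List ℕ} (hm : 1 ≤ m) (hlen : a.length = 3 * m)
    (ha : ∀ x ∈ a, B < 4 * x ∧ 2 * x < B) (hsum : a.sum = m * B) :
    1 ≤ B ∧ (red (B, a)).Pairwise (· ≥ ·) ∧
      red (B, a) ~ replicate (B + 2) (B + 1 + m) ++ a.map (· + 2) := by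
  have hwf : wf (B, a) = true := (wf_iff _).2 ⟨m, hm, hlen, ha, hsum⟩
  have hred : red (B, a) = replicate (B + 2) (B + 1 + m) ++ (srt B a).map fun x => x + 2 := by
    unfold red
    rw [hwf, cond_true, mm_eq hlen]
  have hB : 1 ≤ B := by
    have hne : a ≠ [] := by
      rintro rfl
      simp at hlen
      omega
    obtain ⟨x, hx⟩ := exists_mem_of_ne_nil _ hne
    have := ha x hx
    omega
  refine ⟨hB, ?_, ?_⟩
  · rw [hred, pairwise_append]
    refine ⟨?_, ?_, ?_⟩
    · rw [pairwise_replicate]
      exact Or.inr le_rfl
    · rw [pairwise_map]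
      exact (srt_pairwise B a).imp fun h => by omega
    · intro x hx y hy
      rw [eq_of_mem_replicate hx]
      obtain ⟨z, hz, rfl⟩ := mem_map.1 hy
      have h1 : z ∈ a := by
        have := (srt_perm B a).mem_iff.1 hz
        exact (mem_filter.1 this).1
      have := ha z h1
      omega
  · rw [hred]
    apply Perm.append_left
    apply Perm.map
    refine (srt_perm B a).trans ?_
    rw [filter_eq_self.2]
    intro x hx
    have := ha x hx
    rw [decide_eq_true_eq]
    omega

lemma bad_perm : (replicate 9 10 ++ [6, 4, 4, 4, 4, 4]) ~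
    replicate (7 + 2) (7 + 1 + 2) ++ [4, 2, 2, 2, 2, 2].map (· + 2) := Perm.refl _

lemma bad_pairwise : (replicate 9 10 ++ [6, 4, 4, 4, 4, 4]).Pairwise (· ≥ ·) := by decide

lemma bad_even (i : Fin ([4, 2, 2, 2, 2, 2] : List ℕ).length) :
    2 ∣ ([4, 2, 2, 2, 2, 2] : List ℕ)[i] := by
  revert i
  decide

lemma bad_not_attainable : ¬ Attainable (replicate 9 10 ++ [6, 4, 4, 4, 4, 4]) := by
  intro h
  obtain ⟨f, hf⟩ := partition_of_attainable (a := [4, 2, 2, 2, 2, 2]) (B := 7) (m := 2)
    (by norm_num) (by norm_num) (by decide) (by decide) bad_perm h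
  have h0 := hf 0
  have h1 : 2 ∣ ∑ i ∈ Finset.univ.filter (fun i => f i = 0), ([4, 2, 2, 2, 2, 2] : List ℕ)[i] := by
    exact Finset.dvd_sum fun i _ => bad_even i
  rw [h0] at h1
  revert h1
  decide

theorem red_graphical (I : ℕ × List ℕ) : Graphical (red I) := by
  obtain ⟨B, a⟩ := I
  cases h : wf (B, a) with
  | true =>
    obtain ⟨m, hm, hlen, ha, hsum⟩ := (wf_iff _).1 h
    simp only at hlen ha hsum
    obtain ⟨hB, h1, h2⟩ := red_wf hm hlen ha hsum
    exact graphical_of hlen (fun x hx => by have := ha x hx; omega) hsum h1 h2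
  | false =>
    unfold red
    rw [h, cond_false]
    exact graphical_of (B := 7) (m := 2) (a := [4, 2, 2, 2, 2, 2]) rfl (by decide) (by decide)
      bad_pairwise bad_perm

theorem red_iff (I : ℕ × List ℕ) : ThreePartition I ↔ Attainable (red I) := by
  obtain ⟨B, a⟩ := I
  cases h : wf (B, a) with
  | true =>
    obtain ⟨m, hm, hlen, ha, hsum⟩ := (wf_iff _).1 h
    simp only at hlen ha hsum
    obtain ⟨hB, h1, h2⟩ := red_wf hm hlen ha hsum
    constructor
    · rintro ⟨m', hm', hlen', _, _, hf⟩
      simp only at hlen' hf
      obtain rfl : m' = m := by omega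
      exact attainable_of_partition hB ha h1 h2 hf
    · intro hA
      exact ⟨m, hm, hlen, ha, hsum, partition_of_attainable hB hm
        (fun x hx => by have := ha x hx; omega) hsum h2 hA⟩
  | false =>
    unfold red
    rw [h, cond_false]
    constructor
    · rintro ⟨m, hm, hlen, ha, hsum, _⟩
      have := (wf_iff (B, a)).2 ⟨m, hm, hlen, ha, hsum⟩
      rw [h] at this
      cases this
    · intro hA
      exact absurd hA bad_not_attainable

/-! ### The reduction takes polynomial time -/

variable {α : Type} [Rep α]

lemma pt_mm {f : α → List ℕ} (hf : PolyTime f) : PolyTime (fun x => mm (f x)) := by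
  unfold mm
  apply PolyTime.length
  apply PolyTime.filter (by fun_prop)
  exact PolyTime.lt (by fun_prop) (by fun_prop)

lemma pt_wf : PolyTime wf := by
  unfold wf
  refine PolyTime.and (PolyTime.and ?_ ?_) (PolyTime.and ?_ ?_)
  · exact PolyTime.le (by fun_prop) (pt_mm (by fun_prop))
  · exact PolyTime.natEq (by fun_prop) (PolyTime.mul (by fun_prop) (pt_mm (by fun_prop)))
  · apply PolyTime.all (by fun_prop)
    exact PolyTime.and (PolyTime.lt (by fun_prop) (by fun_prop))
      (PolyTime.lt (by fun_prop) (by fun_prop))
  · apply PolyTime.natEq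
    · apply PolyTime.length
      apply PolyTime.flatMap (by fun_prop)
      fun_prop
    · exact PolyTime.mul (pt_mm (by fun_prop)) (by fun_prop)

lemma pt_red : PolyTime red := by
  unfold red
  apply PolyTime.cond pt_wf
  · apply PolyTime.append
    · exact PolyTime.replicate (by fun_prop) (PolyTime.add (by fun_prop) (pt_mm (by fun_prop)))
    · apply PolyTime.map
      · unfold srt
        apply PolyTime.flatMap (by fun_prop)
        apply PolyTime.filter (by fun_prop)
        exact PolyTime.natEq (by fun_prop) (by fun_prop)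
      · fun_prop
  · fun_prop

end Pool.Agent.AvgConn
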