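import Pool.Agent.Lib_helper36.AvgConn.Menger

/-!
# Graphs made of cyclic rows and a graph whose neighbourhoods meet different rows
-/

set_option autoImplicit false

namespace Pool.Agent.AvgConn

open SimpleGraph Finset

section arcs

variable {V : Type} [Finite V]

omit [Finite V] in
lemma pow_mod_apply {σ : Equiv.Perm V} {y : V} {a : ℕ} (h : (σ ^ a) y = y) (t : ℕ) :
    (σ ^ (t % a)) y = (σ ^ t) y := by
  conv_rhs => rw [← Nat.mod_add_div t a, pow_add, Equiv.Perm.mul_apply, pow_mul,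
    Equiv.Perm.pow_apply_eq_self_of_apply_eq_self h]

omit [Finite V] in
lemma pow_inv_apply (σ : Equiv.Perm V) (b : ℕ) (x : V) : (σ ^ b) ((σ⁻¹ ^ b) x) = x := by
  rw [inv_pow]
  exact (σ ^ b).apply_symm_apply x

omit [Finite V] in
lemma inv_pow_apply (σ : Equiv.Perm V) (b : ℕ) (x : V) : (σ⁻¹ ^ b) ((σ ^ b) x) = x := by
  rw [inv_pow]
  exact (σ ^ b).symm_apply_apply x

/-- the first member of `P` after `y` in a cycle -/
lemma first_hit (σ : Equiv.Perm V) {P K : V → Prop} {y : V} (hy : ¬ K y) (hKP : ∀ p, K p → P p)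
    (hp : ∃ p, K p ∧ σ.SameCycle y p) :
    ∃ a : ℕ, 1 ≤ a ∧ P ((σ ^ a) y) ∧ (∀ t, 1 ≤ t → t < a → ¬ P ((σ ^ t) y)) ∧ (σ ^ a) y ≠ y := by
  classical
  obtain ⟨p, hp, hs⟩ := hp
  obtain ⟨t₀, ht₀, -, ht⟩ := hs.exists_pow_eq''
  have hex : ∃ a, 1 ≤ a ∧ P ((σ ^ a) y) := ⟨t₀, ht₀, by rw [ht]; exact hKP p hp⟩
  refine ⟨Nat.find hex, (Nat.find_spec hex).1, (Nat.find_spec hex).2, ?_, ?_⟩
  · intro t h1 h2 h3
    exact Nat.find_min hex h2 ⟨h1, h3⟩
  · intro heq
    have h1 := pow_mod_apply heq t₀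
    rw [ht] at h1
    have h2 : t₀ % Nat.find hex < Nat.find hex := Nat.mod_lt _ (Nat.find_spec hex).1
    rcases Nat.eq_zero_or_pos (t₀ % Nat.find hex) with h0 | h0
    · rw [h0, pow_zero, Equiv.Perm.one_apply] at h1
      exact hy (h1 ▸ hp)
    · exact Nat.find_min hex h2 ⟨h0, by rw [h1]; exact hKP p hp⟩

/-- the two arcs from `y` to `K` -/
lemma two_arcs (σ : Equiv.Perm V) {Y K : V → Prop} {y : V} (hy : ¬ K y) (hKY : ∀ p, K p → ¬ Y p)
    (hp : ∃ p, K p ∧ σ.SameCycle y p) :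
    (∃ a : ℕ, 1 ≤ a ∧ K ((σ ^ a) y) ∧ ∀ t, 1 ≤ t → t ≤ a → ¬ Y ((σ ^ t) y)) ∨
    (∃ a : ℕ, 1 ≤ a ∧ K ((σ⁻¹ ^ a) y) ∧ ∀ t, 1 ≤ t → t ≤ a → ¬ Y ((σ⁻¹ ^ t) y)) ∨
    ∃ a b : ℕ, 1 ≤ a ∧ 1 ≤ b ∧ Y ((σ ^ a) y) ∧ Y ((σ⁻¹ ^ b) y) ∧
      (σ ^ a) y ≠ (σ⁻¹ ^ b) y ∧ (σ ^ a) y ≠ y ∧ (σ⁻¹ ^ b) y ≠ y ∧
      (∀ t, 1 ≤ t → t < a → ¬ Y ((σ ^ t) y)) ∧ (∀ t, 1 ≤ t → t < b → ¬ Y ((σ⁻¹ ^ t) y)) := by
  obtain ⟨a, ha1, ha2, ha3, ha4⟩ := first_hit σ (P := fun p => K p ∨ Y p) hy (fun p h => Or.inl h) hp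
  have hp' : ∃ p, K p ∧ σ⁻¹.SameCycle y p := by
    obtain ⟨p, h1, h2⟩ := hp
    exact ⟨p, h1, h2.inv⟩
  obtain ⟨b, hb1, hb2, hb3, hb4⟩ :=
    first_hit σ⁻¹ (P := fun p => K p ∨ Y p) hy (fun p h => Or.inl h) hp'
  rcases ha2 with ha2 | ha2
  · left
    refine ⟨a, ha1, ha2, fun t h1 h2 => ?_⟩
    rcases Nat.lt_or_ge t a with h | h
    · exact fun hh => ha3 t h1 h (Or.inr hh)
    · obtain rfl : t = a := by omega
      exact hKY _ ha2
  rcases hb2 with hb2 | hb2
  · right; left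
    refine ⟨b, hb1, hb2, fun t h1 h2 => ?_⟩
    rcases Nat.lt_or_ge t b with h | h
    · exact fun hh => hb3 t h1 h (Or.inr hh)
    · obtain rfl : t = b := by omega
      exact hKY _ hb2
  right; right
  refine ⟨a, b, ha1, hb1, ha2, hb2, ?_, ha4, hb4, fun t h1 h2 hh => ha3 t h1 h2 (Or.inr hh),
    fun t h1 h2 hh => hb3 t h1 h2 (Or.inr hh)⟩
  intro heq
  -- the whole cycle avoids `K`
  have hN : (σ ^ (b + a)) y = y := by
    rw [pow_add, Equiv.Perm.mul_apply, heq, pow_inv_apply]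
  obtain ⟨p, hpK, hs⟩ := hp
  obtain ⟨t₀, -, ht⟩ := hs.exists_pow_eq'
  have h1 := pow_mod_apply hN t₀
  rw [ht] at h1
  have h2 : t₀ % (b + a) < b + a := Nat.mod_lt _ (by omega)
  set t := t₀ % (b + a) with htdef
  rcases Nat.eq_zero_or_pos t with h0 | h0
  · rw [h0, pow_zero, Equiv.Perm.one_apply] at h1
    exact hy (h1 ▸ hpK)
  rcases lt_trichotomy t a with h3 | h3 | h3
  · exact ha3 t h0 h3 (Or.inl (h1 ▸ hpK))
  · rw [h3] at h1
    rw [h1] at ha2
    exact hKY p hpK ha2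
  · have h4 : (σ⁻¹ ^ (b + a - t)) y = p := by
      have h5 : (σ ^ (b + a - t)) p = y := by
        rw [← h1, ← Equiv.Perm.mul_apply, ← pow_add, Nat.sub_add_cancel (by omega), hN]
      rw [← h5, inv_pow_apply]
    exact hb3 (b + a - t) (by omega) (by omega) (Or.inl (h4 ▸ hpK))

end arcs

lemma rtg_mono {V : Type} {r s : V → V → Prop} (h : ∀ a b, r a b → s a b) {a b : V}
    (hab : Relation.ReflTransGen r a b) : Relation.ReflTransGen s a b := by
  induction hab with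
  | refl => exact .refl
  | tail _ hbc ih => exact ih.tail (h _ _ hbc)

section rows

variable {V ι : Type} {G H : SimpleGraph V} {σ : Equiv.Perm V} {row : V → ι}

lemma arc_path (hG : ∀ v w, G.Adj v w ↔ (w = σ v ∨ v = σ w ∨ H.Adj v w)) {Y : V → Prop} {y : V}
    {a : ℕ} (ha : 1 ≤ a) (h : ∀ t, 1 ≤ t → t ≤ a → ¬ Y ((σ ^ t) y)) :
    Relation.ReflTransGen (fun p q => G.Adj p q ∧ ¬ Y p ∧ ¬ Y q) (σ y) ((σ ^ a) y) := by
  induction a with
  | zero => omega
  | succ a ih =>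
    rcases Nat.eq_zero_or_pos a with h0 | h0
    · subst h0
      rw [Nat.zero_add, pow_one]
    · refine (ih h0 fun t h1 h2 => h t h1 (by omega)).tail ⟨?_, h a h0 (by omega),
        h (a + 1) (by omega) le_rfl⟩
      rw [hG, pow_succ', Equiv.Perm.mul_apply]
      exact Or.inl rfl

lemma arc_path' (hG : ∀ v w, G.Adj v w ↔ (w = σ v ∨ v = σ w ∨ H.Adj v w)) {Y : V → Prop} {y : V}
    {a : ℕ} (ha : 1 ≤ a) (h : ∀ t, 1 ≤ t → t ≤ a → ¬ Y ((σ⁻¹ ^ t) y)) :
    Relation.ReflTransGen (fun p q => G.Adj p q ∧ ¬ Y p ∧ ¬ Y q) (σ⁻¹ y) ((σ⁻¹ ^ a) y) := by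
  have hG' : ∀ v w, G.Adj v w ↔ (w = σ⁻¹ v ∨ v = σ⁻¹ w ∨ H.Adj v w) := by
    intro v w
    rw [hG]
    have h1 : (w = σ⁻¹ v) ↔ v = σ w := by
      constructor
      · rintro rfl
        exact (σ.apply_symm_apply v).symm
      · rintro rfl
        exact (σ.symm_apply_apply w).symm
    have h2 : (v = σ⁻¹ w) ↔ w = σ v := by
      constructor
      · rintro rfl
        exact (σ.apply_symm_apply w).symm
      · rintro rfl
        exact (σ.symm_apply_apply v).symm
    rw [h1, h2]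
    tauto
  exact arc_path hG' ha h

lemma adj_succ (hG : ∀ v w, G.Adj v w ↔ (w = σ v ∨ v = σ w ∨ H.Adj v w)) (v : V) :
    G.Adj v (σ v) := (hG _ _).2 (Or.inl rfl)

lemma adj_pred (hG : ∀ v w, G.Adj v w ↔ (w = σ v ∨ v = σ w ∨ H.Adj v w)) (v : V) :
    G.Adj v (σ⁻¹ v) := (hG _ _).2 (Or.inr (Or.inl (σ.apply_symm_apply v).symm))

open Classical in
/-- The claim for one of the two vertices. -/
lemma claim [Fintype V] (hG : ∀ v w, G.Adj v w ↔ (w = σ v ∨ v = σ w ∨ H.Adj v w))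
    (hsame : ∀ v w, row v = row w ↔ σ.SameCycle v w)
    (h1 : ∀ v w, H.Adj v w → row v ≠ row w)
    (h2 : ∀ v x y, H.Adj v x → H.Adj v y → row x = row y → x = y)
    {v w : V} (hvw : v ≠ w) {X : Finset V} (hv : v ∉ X) (hw : w ∉ X)
    (hcard : X.card + (if G.Adj v w then 1 else 0) < (G.neighborSet v).ncard)
    {K : V → Prop} (hKY : ∀ p, K p → ¬ (p ∈ X ∨ p = v ∨ p = w))
    (hKr : ∀ v, ∃ p, K p ∧ row p = row v) :
    (∃ u, G.Adj v u ∧ ¬ (u ∈ X ∨ u = v ∨ u = w) ∧ ∃ p, K p ∧ Relation.ReflTransGen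
      (fun p q => G.Adj p q ∧ ¬ (p ∈ X ∨ p = v ∨ p = w) ∧ ¬ (q ∈ X ∨ q = v ∨ q = w)) u p) ∨
    (∃ u u', G.Adj v u ∧ ¬ (u ∈ X ∨ u = v ∨ u = w) ∧ G.Adj u' w ∧
      ¬ (u' ∈ X ∨ u' = v ∨ u' = w) ∧ Relation.ReflTransGen
      (fun p q => G.Adj p q ∧ ¬ (p ∈ X ∨ p = v ∨ p = w) ∧ ¬ (q ∈ X ∨ q = v ∨ q = w)) u u') := by
  by_contra hcon
  obtain ⟨Y, hY⟩ : ∃ Y : V → Prop, Y = fun p => p ∈ X ∨ p = v ∨ p = w := ⟨_, rfl⟩
  have c1 : ∀ u, G.Adj v u → ¬ Y u → ∀ p, K p →
      ¬ Relation.ReflTransGen (fun p q => G.Adj p q ∧ ¬ Y p ∧ ¬ Y q) u p := by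
    subst hY
    exact fun u a1 a2 p a3 a4 => hcon (Or.inl ⟨u, a1, a2, p, a3, a4⟩)
  have c2 : ∀ u u', G.Adj v u → ¬ Y u → G.Adj u' w → ¬ Y u' →
      ¬ Relation.ReflTransGen (fun p q => G.Adj p q ∧ ¬ Y p ∧ ¬ Y q) u u' := by
    subst hY
    exact fun u u' a1 a2 a3 a4 a5 => hcon (Or.inr ⟨u, u', a1, a2, a3, a4, a5⟩)
  replace hKY : ∀ p, K p → ¬ Y p := by
    subst hY
    exact hKY
  have hYd : ∀ p, Y p → p ∈ X ∨ p = v ∨ p = w := by
    subst hY
    exact fun p h => h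
  have hYv : Y v := by
    subst hY
    exact Or.inr (Or.inl rfl)
  clear hcon hY
  have hKrow : ∀ y, ∃ p, K p ∧ σ.SameCycle y p := by
    intro y
    obtain ⟨p, hp1, hp2⟩ := hKr y
    exact ⟨p, hp1, (hsame _ _).1 hp2.symm⟩
  have hrow : ∀ y (a : ℕ), row ((σ ^ a) y) = row y := by
    intro y a
    exact ((hsame _ _).2 ⟨a, by simp⟩).symm
  have hrow' : ∀ y (a : ℕ), row ((σ⁻¹ ^ a) y) = row y := by
    intro y a
    refine ((hsame _ _).2 ⟨-a, by simp⟩).symm
  -- the row of `v`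
  have hvK : ¬ K v := fun h => hKY v h hYv
  have hin : 2 ≤ (X.filter fun x => row x = row v).card +
      (if w = σ v ∨ v = σ w then 1 else 0) := by
    rcases two_arcs σ (Y := Y) hvK hKY (hKrow v) with ⟨a, ha, ha2, ha3⟩ | ⟨a, ha, ha2, ha3⟩ |
      ⟨a, b, ha, hb, e1, e2, e3, e4, e5, e6, e7⟩
    · exfalso
      have h3 := ha3 1 le_rfl ha
      rw [pow_one] at h3
      exact c1 (σ v) (adj_succ hG v) h3 _ ha2 (arc_path hG ha ha3)
    · exfalso
      have h3 := ha3 1 le_rfl ha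
      rw [pow_one] at h3
      exact c1 (σ⁻¹ v) (adj_pred hG v) h3 _ ha2 (arc_path' hG ha ha3)
    · -- the two blocking vertices
      have hz1 : (σ ^ a) v = w → w = σ v := by
        intro hz
        rcases Nat.lt_or_ge 1 a with h | h
        · exfalso
          have h3 := e6 1 le_rfl h
          rw [pow_one] at h3
          have h4 := e6 (a - 1) (by omega) (by omega)
          refine c2 (σ v) ((σ ^ (a - 1)) v) (adj_succ hG v) h3 ?_ h4
            (arc_path (a := a - 1) hG (by omega) fun t h1 h2 => e6 t h1 (by omega))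
          have : w = σ ((σ ^ (a - 1)) v) := by
            rw [← hz, ← Equiv.Perm.mul_apply, ← pow_succ', Nat.sub_add_cancel ha]
          rw [this]
          exact adj_succ hG _
        · obtain rfl : a = 1 := by omega
          rw [pow_one] at hz
          exact hz.symm
      have hz2 : (σ⁻¹ ^ b) v = w → v = σ w := by
        intro hz
        rcases Nat.lt_or_ge 1 b with h | h
        · exfalso
          have h3 := e7 1 le_rfl h
          rw [pow_one] at h3
          have h4 := e7 (b - 1) (by omega) (by omega)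
          refine c2 (σ⁻¹ v) ((σ⁻¹ ^ (b - 1)) v) (adj_pred hG v) h3 ?_ h4
            (arc_path' (a := b - 1) hG (by omega) fun t h1 h2 => e7 t h1 (by omega))
          have : w = σ⁻¹ ((σ⁻¹ ^ (b - 1)) v) := by
            rw [← hz, ← Equiv.Perm.mul_apply, ← pow_succ', Nat.sub_add_cancel hb]
          rw [this]
          exact adj_pred hG _
        · obtain rfl : b = 1 := by omega
          rw [pow_one] at hz
          rw [← hz]
          exact (σ.apply_symm_apply v).symm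
      have m1 : (σ ^ a) v ≠ w → (σ ^ a) v ∈ X.filter fun x => row x = row v := by
        intro hne
        rw [mem_filter]
        refine ⟨?_, hrow v a⟩
        rcases hYd _ e1 with h | h | h
        · exact h
        · exact absurd h e4
        · exact absurd h hne
      have m2 : (σ⁻¹ ^ b) v ≠ w → (σ⁻¹ ^ b) v ∈ X.filter fun x => row x = row v := by
        intro hne
        rw [mem_filter]
        refine ⟨?_, hrow' v b⟩
        rcases hYd _ e2 with h | h | h
        · exact h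
        · exact absurd h e5
        · exact absurd h hne
      by_cases w1 : (σ ^ a) v = w
      · have w2 : (σ⁻¹ ^ b) v ≠ w := fun h => e3 (w1.trans h.symm)
        rw [if_pos (Or.inl (hz1 w1))]
        have := Finset.card_pos.2 ⟨_, m2 w2⟩
        omega
      · by_cases w2 : (σ⁻¹ ^ b) v = w
        · rw [if_pos (Or.inr (hz2 w2))]
          have := Finset.card_pos.2 ⟨_, m1 w1⟩
          omega
        · have : 1 < (X.filter fun x => row x = row v).card :=
            Finset.one_lt_card.2 ⟨_, m1 w1, _, m2 w2, e3⟩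
          omega
  -- the other neighbours of `v`
  have hout : ∀ y, H.Adj v y → y ≠ w → ∃ x ∈ X, row x = row y := by
    intro y hy hyw
    have hGy : G.Adj v y := (hG _ _).2 (Or.inr (Or.inr hy))
    by_cases hyY : Y y
    · rcases hYd _ hyY with h | h | h
      · exact ⟨y, h, rfl⟩
      · exact absurd h hGy.ne'
      · exact absurd h hyw
    · have hyK : ¬ K y := fun h => c1 y hGy hyY y h .refl
      rcases two_arcs σ (Y := Y) hyK hKY (hKrow y) with ⟨a, ha, ha2, ha3⟩ | ⟨a, ha, ha2, ha3⟩ |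
        ⟨a, b, ha, hb, e1, e2, e3, e4, e5, e6, e7⟩
      · exfalso
        have h3 := ha3 1 le_rfl ha
        rw [pow_one] at h3
        exact c1 y hGy hyY _ ha2
          ((arc_path hG ha ha3).head ⟨adj_succ hG y, hyY, h3⟩)
      · exfalso
        have h3 := ha3 1 le_rfl ha
        rw [pow_one] at h3
        exact c1 y hGy hyY _ ha2
          ((arc_path' hG ha ha3).head ⟨adj_pred hG y, hyY, h3⟩)
      · have hne : row v ≠ row y := h1 v y hy
        have n1 : (σ ^ a) y ≠ v := fun h => hne (by rw [← hrow y a, h])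
        have n2 : (σ⁻¹ ^ b) y ≠ v := fun h => hne (by rw [← hrow' y b, h])
        by_cases w1 : (σ ^ a) y = w
        · have w2 : (σ⁻¹ ^ b) y ≠ w := fun h => e3 (w1.trans h.symm)
          refine ⟨_, ?_, hrow' y b⟩
          rcases hYd _ e2 with h | h | h
          · exact h
          · exact absurd h n2
          · exact absurd h w2
        · refine ⟨_, ?_, hrow y a⟩
          rcases hYd _ e1 with h | h | h
          · exact h
          · exact absurd h n1
          · exact absurd h w1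
  choose! g hg1 hg2 using hout
  set NH := univ.filter fun y => H.Adj v y with hNH
  have hc1 : (NH.erase w).card ≤ (X.filter fun x => ¬ row x = row v).card := by
    apply Finset.card_le_card_of_injOn g
    · intro y hy
      rw [mem_coe, mem_erase, hNH, mem_filter] at hy
      rw [mem_coe, mem_filter, hg2 y hy.2.2 hy.1]
      exact ⟨hg1 y hy.2.2 hy.1, fun h => h1 v y hy.2.2 h.symm⟩
    · intro y hy z hz hyz
      rw [mem_coe, mem_erase, hNH, mem_filter] at hy hz
      apply h2 v y z hy.2.2 hz.2.2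
      rw [← hg2 y hy.2.2 hy.1, ← hg2 z hz.2.2 hz.1, hyz]
  have hc2 : NH.card ≤ (NH.erase w).card + (if H.Adj v w then 1 else 0) := by
    by_cases hw' : H.Adj v w
    · rw [if_pos hw']
      have : w ∈ NH := by rw [hNH, mem_filter]; exact ⟨mem_univ _, hw'⟩
      rw [Finset.card_erase_of_mem this]
      omega
    · have : w ∉ NH := by rw [hNH, mem_filter]; exact fun h => hw' h.2
      rw [Finset.erase_eq_of_notMem this]
      omega
  have hc3 : (G.neighborSet v).ncard ≤ NH.card + 2 := by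
    have hsub : G.neighborSet v ⊆ ((NH ∪ {σ v, σ⁻¹ v} : Finset V) : Set V) := by
      intro y hy
      rw [mem_neighborSet, hG] at hy
      rw [mem_coe, mem_union, mem_insert, mem_singleton, hNH, mem_filter]
      rcases hy with h | h | h
      · exact Or.inr (Or.inl h)
      · right; right
        rw [h]
        exact (σ.symm_apply_apply y).symm
      · exact Or.inl ⟨mem_univ _, h⟩
    refine (Set.ncard_le_ncard hsub (Set.toFinite _)).trans ?_
    rw [Set.ncard_coe_finset]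
    refine (Finset.card_union_le _ _).trans ?_
    have := Finset.card_le_two (a := σ v) (b := σ⁻¹ v)
    omega
  have hc4 : (X.filter fun x => row x = row v).card + (X.filter fun x => ¬ row x = row v).card =
      X.card := card_filter_add_card_filter_not _
  have hc5 : (if w = σ v ∨ v = σ w then 1 else 0) + (if H.Adj v w then 1 else 0) ≤
      (if G.Adj v w then 1 else 0) := by
    by_cases a1 : w = σ v ∨ v = σ w
    · have a2 : ¬ H.Adj v w := by
        intro h
        apply h1 v w h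
        rw [hsame]
        rcases a1 with a1 | a1
        · exact ⟨1, by rw [a1]; simp⟩
        · exact ⟨-1, by rw [a1]; simp⟩
      have a3 : G.Adj v w := by
        rw [hG]
        rcases a1 with a1 | a1
        · exact Or.inl a1
        · exact Or.inr (Or.inl a1)
      rw [if_pos a1, if_neg a2, if_pos a3]
    · by_cases a2 : H.Adj v w
      · have a3 : G.Adj v w := (hG _ _).2 (Or.inr (Or.inr a2))
        rw [if_neg a1, if_pos a2, if_pos a3]
      · rw [if_neg a1, if_neg a2]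
        exact Nat.zero_le _
  omega

open Classical in
/-- A graph made of cyclic rows and a graph `H` such that the `H`-neighbours of a vertex are in
different rows, not in its own row, has as many internally disjoint paths between any two vertices
as their degrees allow, if the rows are robustly connected. -/
theorem ideal_of_rows [Fintype V] (hG : ∀ v w, G.Adj v w ↔ (w = σ v ∨ v = σ w ∨ H.Adj v w))
    (hsame : ∀ v w, row v = row w ↔ σ.SameCycle v w)
    (h1 : ∀ v w, H.Adj v w → row v ≠ row w)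
    (h2 : ∀ v x y, H.Adj v x → H.Adj v y → row x = row y → x = y)
    {Δ : ℕ} (hΔ : ∀ v, (G.neighborSet v).ncard ≤ Δ)
    (hK : ∀ Y : Finset V, Y.card ≤ Δ + 1 → ∃ K : V → Prop, (∀ p, K p → p ∉ Y) ∧
      (∀ v, ∃ p, K p ∧ row p = row v) ∧
      ∀ p q, K p → K q → Relation.ReflTransGen (fun p q => G.Adj p q ∧ K p ∧ K q) p q) :
    Ideal G := by
  intro v w hvw
  apply hasPaths_of_conn hvw
  intro X hv hw hcard
  obtain ⟨hcv, hcw⟩ := lt_min_iff.1 hcard
  obtain ⟨K, hK1, hK2, hK3⟩ := hK (insert v (insert w X)) (by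
    have e1 := Finset.card_insert_le v (insert w X)
    have e2 := Finset.card_insert_le w X
    have e3 := hΔ v
    omega)
  have hKY : ∀ p, K p → ¬ (p ∈ X ∨ p = v ∨ p = w) := by
    intro p hp h
    apply hK1 p hp
    rw [mem_insert, mem_insert]
    tauto
  have hKY' : ∀ p, K p → ¬ (p ∈ X ∨ p = w ∨ p = v) := by
    intro p hp h
    exact hKY p hp (by tauto)
  -- the final form
  have fin : ∀ u u', G.Adj v u → ¬ (u ∈ X ∨ u = v ∨ u = w) → G.Adj u' w →
      ¬ (u' ∈ X ∨ u' = v ∨ u' = w) → Relation.ReflTransGen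
      (fun p q => G.Adj p q ∧ ¬ (p ∈ X ∨ p = v ∨ p = w) ∧ ¬ (q ∈ X ∨ q = v ∨ q = w)) u u' →
      ∃ u u', G.Adj v u ∧ u ≠ w ∧ u ∉ X ∧ G.Adj u' w ∧ u' ≠ v ∧
        Relation.ReflTransGen (fun p q => G.Adj p q ∧ q ∉ X ∧ q ≠ v ∧ q ≠ w) u u' := by
    intro u u' a1 a2 a3 a4 a5
    push Not at a2 a4
    refine ⟨u, u', a1, a2.2.2, a2.1, a3, a4.2.1, ?_⟩
    apply rtg_mono _ a5
    rintro p q ⟨b1, b2, b3⟩
    push Not at b3
    exact ⟨b1, b3.1, b3.2.1, b3.2.2⟩
  have symm : ∀ a b, Relation.ReflTransGen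
      (fun p q => G.Adj p q ∧ ¬ (p ∈ X ∨ p = v ∨ p = w) ∧ ¬ (q ∈ X ∨ q = v ∨ q = w)) a b →
      Relation.ReflTransGen
      (fun p q => G.Adj p q ∧ ¬ (p ∈ X ∨ p = v ∨ p = w) ∧ ¬ (q ∈ X ∨ q = v ∨ q = w)) b a := by
    intro a b hab
    induction hab with
    | refl => exact .refl
    | tail _ h ih => exact ih.head ⟨h.1.symm, h.2.2, h.2.1⟩
  rcases claim hG hsame h1 h2 hvw hv hw hcv hKY hK2 with ⟨u, a1, a2, p, a3, a4⟩ |
    ⟨u, u', a1, a2, a3, a4, a5⟩
  · have hcw' : X.card + (if G.Adj w v then 1 else 0) < (G.neighborSet w).ncard := by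
      by_cases hadj : G.Adj v w
      · rw [if_pos hadj] at hcw
        rw [if_pos hadj.symm]
        exact hcw
      · rw [if_neg hadj] at hcw
        rw [if_neg fun h => hadj h.symm]
        exact hcw
    have conv : ∀ a b, Relation.ReflTransGen
      (fun p q => G.Adj p q ∧ ¬ (p ∈ X ∨ p = w ∨ p = v) ∧ ¬ (q ∈ X ∨ q = w ∨ q = v)) a b →
      Relation.ReflTransGen
      (fun p q => G.Adj p q ∧ ¬ (p ∈ X ∨ p = v ∨ p = w) ∧ ¬ (q ∈ X ∨ q = v ∨ q = w)) a b := by
      intro a b hab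
      apply rtg_mono _ hab
      rintro p q ⟨b1, b2, b3⟩
      exact ⟨b1, by tauto, by tauto⟩
    rcases claim hG hsame h1 h2 hvw.symm hw hv hcw' hKY' hK2 with ⟨u', b1, b2, q, b3, b4⟩ |
      ⟨u', u'', b1, b2, b3, b4, b5⟩
    · refine fin u u' a1 a2 b1.symm (by tauto) ?_
      refine (a4.trans ?_).trans (symm _ _ (conv _ _ b4))
      apply rtg_mono _ (hK3 p q a3 b3)
      rintro p q ⟨d1, d2, d3⟩
      exact ⟨d1, hKY p d2, hKY q d3⟩
    · exact fin u'' u' b3.symm (by tauto) b1.symm (by tauto) (symm _ _ (conv _ _ b5))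
  · exact fin u u' a1 a2 a3 a4 a5

end rows

end Pool.Agent.AvgConn
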