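import Pool.Agent.Lib_helper36.AvgConn.Menger

/-!
# Internally disjoint paths given by sequences of vertices
-/

set_option autoImplicit false

namespace Pool.Agent.AvgConn

open SimpleGraph Finset

/-- a family of sequences of vertices that describes internally disjoint paths -/
structure Seqs {V : Type} (G : SimpleGraph V) (v w : V) (k n : ℕ) (p : ℕ → ℕ → V) : Prop where
  zero : ∀ i < k, p i 0 = v
  last : ∀ i < k, p i n = w
  step : ∀ i < k, ∀ t < n, (G.Adj (p i t) (p i (t + 1)) ∧ p i (t + 1) ≠ v) ∨
    (p i t = w ∧ p i (t + 1) = w)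
  one : ∀ i < k, ∀ i' < k, i ≠ i' → ¬ (p i 1 = w ∧ p i' 1 = w)
  disj : ∀ i < k, ∀ i' < k, i ≠ i' → ∀ t ≤ n, ∀ t' ≤ n, p i t = p i' t' → p i t = v ∨ p i t = w

variable {V : Type} {G : SimpleGraph V}

theorem Seqs.hasPaths [Fintype V] {v w : V} (hvw : v ≠ w) {k n : ℕ} {p : ℕ → ℕ → V}
    (h : Seqs G v w k n p) : HasPaths G v w k := by
  classical
  apply hasPaths_of_conn hvw
  intro X hv hw hcard
  set Inn := (range k).filter fun i => p i 1 ≠ w with hInn
  have h1 : k ≤ Inn.card + (if G.Adj v w then 1 else 0) := by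
    have e1 : (range k).card = Inn.card + ((range k).filter fun i => ¬ p i 1 ≠ w).card :=
      (card_filter_add_card_filter_not _).symm
    rw [card_range] at e1
    have e2 : ((range k).filter fun i => ¬ p i 1 ≠ w).card ≤ (if G.Adj v w then 1 else 0) := by
      split_ifs with hadj
      · rw [card_le_one]
        intro i hi i' hi'
        simp only [mem_filter, mem_range, not_not] at hi hi'
        by_contra hne
        exact h.one i hi.1 i' hi'.1 hne ⟨hi.2, hi'.2⟩
      · rw [Nat.le_zero, card_eq_zero, filter_eq_empty_iff]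
        intro i hi
        rw [not_not]
        intro hi1
        rw [mem_range] at hi
        have h0 := h.zero i hi
        have hn : 0 < n := by
          rcases Nat.eq_zero_or_pos n with h0' | h0'
          · exfalso
            apply hvw
            rw [← h0, ← h.last i hi, h0']
          · exact h0'
        rcases h.step i hi 0 hn with h2 | h2
        · rw [h0, Nat.zero_add, hi1] at h2
          exact hadj h2.1
        · exact hvw (h0.symm.trans h2.1)
    omega
  -- a sequence outside `X`
  have h2 : ∃ i ∈ Inn, ∀ t ≤ n, p i t ∉ X := by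
    by_contra hcon
    push Not at hcon
    choose! t ht1 ht2 using hcon
    have e1 : Inn.card ≤ X.card := by
      apply card_le_card_of_injOn (fun i => p i (t i)) (fun i hi => ht2 i hi)
      intro i hi i' hi' heq
      by_contra hne
      have hi1 := (mem_filter.1 (mem_coe.1 hi)).1
      have hi1' := (mem_filter.1 (mem_coe.1 hi')).1
      rw [mem_range] at hi1 hi1'
      rcases h.disj i hi1 i' hi1' hne _ (ht1 i hi) _ (ht1 i' hi') heq with h3 | h3
      · exact hv (h3 ▸ ht2 i hi)
      · exact hw (h3 ▸ ht2 i hi)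
    omega
  obtain ⟨i, hi, hX⟩ := h2
  rw [mem_filter, mem_range] at hi
  obtain ⟨hik, hi1⟩ := hi
  have h0 := h.zero i hik
  have hex : ∃ t, p i t = w := ⟨n, h.last i hik⟩
  set T := Nat.find hex with hT
  have hTw : p i T = w := Nat.find_spec hex
  have hTn : T ≤ n := Nat.find_min' hex (h.last i hik)
  have hmin : ∀ t < T, p i t ≠ w := fun t ht => Nat.find_min hex ht
  have hT2 : 2 ≤ T := by
    by_contra hlt
    have : T = 0 ∨ T = 1 := by omega
    rcases this with h3 | h3
    · rw [h3, h0] at hTw
      exact hvw hTw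
    · rw [h3] at hTw
      exact hi1 hTw
  have hadj : ∀ t < T, G.Adj (p i t) (p i (t + 1)) ∧ p i (t + 1) ≠ v := by
    intro t ht
    rcases h.step i hik t (by omega) with h3 | h3
    · exact h3
    · exact absurd h3.1 (hmin t ht)
  obtain ⟨S, hS⟩ : ∃ S, T = S + 2 := ⟨T - 2, by omega⟩
  refine ⟨p i 1, p i (S + 1), ?_, hi1, hX 1 (by omega), ?_, (hadj S (by omega)).2, ?_⟩
  · have := (hadj 0 (by omega)).1
    rwa [h0] at this
  · have := (hadj (S + 1) (by omega)).1
    rwa [show S + 1 + 1 = T by omega, hTw] at this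
  · have key : ∀ s ≤ S, Relation.ReflTransGen (fun p q => G.Adj p q ∧ q ∉ X ∧ q ≠ v ∧ q ≠ w)
        (p i 1) (p i (s + 1)) := by
      intro s
      induction s with
      | zero => intro _; exact .refl
      | succ s ih =>
        intro hs
        refine (ih (by omega)).tail ⟨(hadj (s + 1) (by omega)).1, hX _ (by omega),
          (hadj (s + 1) (by omega)).2, hmin _ (by omega)⟩
    exact key S le_rfl

theorem HasPaths.seqs [Fintype V] {v w : V} (hvw : v ≠ w) {k : ℕ} (h : HasPaths G v w k) :
    ∃ p, Seqs G v w k (Fintype.card V) p := by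
  obtain ⟨P, hP⟩ := h
  have hlen : ∀ i, (P i : G.Walk v w).length ≤ Fintype.card V := fun i =>
    (P i).2.length_lt.le
  refine ⟨fun i t => if h : i < k then (P ⟨i, h⟩ : G.Walk v w).getVert t else v, ?_, ?_, ?_, ?_, ?_⟩
  · intro i hi
    simp only [dif_pos hi, Walk.getVert_zero]
  · intro i hi
    simp only [dif_pos hi]
    exact Walk.getVert_of_length_le _ (hlen _)
  · intro i hi t _
    simp only [dif_pos hi]
    set q := (P ⟨i, hi⟩ : G.Walk v w) with hq
    rcases Nat.lt_or_ge t q.length with ht | ht
    · left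
      refine ⟨q.adj_getVert_succ ht, ?_⟩
      intro h0
      have h1 := (P ⟨i, hi⟩).2.getVert_injOn (x₁ := t + 1) (x₂ := 0)
        (by show t + 1 ≤ q.length; omega) (by show 0 ≤ q.length; omega)
        (by rw [Walk.getVert_zero]; exact h0)
      omega
    · right
      exact ⟨Walk.getVert_of_length_le _ ht, Walk.getVert_of_length_le _ (by omega)⟩
  · intro i hi i' hi' hne
    simp only [dif_pos hi, dif_pos hi']
    rintro ⟨h1, h2⟩
    have hne' : (⟨i, hi⟩ : Fin k) ≠ ⟨i', hi'⟩ := fun h => hne (congrArg Fin.val h)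
    exact snd_inj hvw (hP _ _ hne').1 (hP _ _ hne').2 (h1.trans h2.symm)
  · intro i hi i' hi' hne t _ t' _
    simp only [dif_pos hi, dif_pos hi']
    intro h1
    have hne' : (⟨i, hi⟩ : Fin k) ≠ ⟨i', hi'⟩ := fun h => hne (congrArg Fin.val h)
    refine (hP _ _ hne').2 _ (Walk.getVert_mem_support _ _) ?_
    rw [h1]
    exact Walk.getVert_mem_support _ _

end Pool.Agent.AvgConn
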