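import Pool.Agent.Lib_helper36.AvgConn.Fill
import Pool.Agent.Lib_helper36.AvgConn.Iff2
import Pool.Agent.Lib_helper36.AvgConn.Red

/-!
# The reduction to sequences with small entries
-/

set_option autoImplicit false

namespace Pool.Agent.AvgConn

open List Pool.Agent.Poly

/-- the list of items with fillers and pads -/
def fill (B m K M : ℕ) (a : List ℕ) : List ℕ :=
  replicate (M * K) (B + 1) ++ (replicate (M - m) B ++ a)

lemma fill_sum {B m K M : ℕ} {a : List ℕ} (hmM : m ≤ M) (hsum : a.sum = m * B) :
    (fill B m K M a).sum = M * (B + K * (B + 1)) := by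
  unfold fill
  rw [sum_append, sum_append, sum_replicate, sum_replicate, hsum, smul_eq_mul, smul_eq_mul]
  have : (M - m) * B + m * B = M * B := by
    rw [← Nat.add_mul, Nat.sub_add_cancel hmM]
  rw [this]
  ring

theorem part_fill {B m K M : ℕ} {a : List ℕ} (ha : ∀ x ∈ a, 1 ≤ x) (hB : 1 ≤ B) (hmM : m ≤ M) :
    Part (fun i : Fin (fill B m K M a).length => (fill B m K M a)[i]) M (B + K * (B + 1)) ↔
      Part (fun i : Fin a.length => a[i]) m B := by
  classical
  obtain ⟨e, he⟩ := exists_equiv (fun i : Fin (fill B m K M a).length => (fill B m K M a)[i])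
    (items (fun i : Fin a.length => a[i]) B m K M) (by
      intro y
      rw [sum_ite_getElem, fill, count_append, count_append, Fintype.sum_sum_type,
        Fintype.sum_sum_type, ← sum_ite_getElem a y, count_replicate, count_replicate]
      congr 1
      · show _ = ∑ _ : Fin (M * K), if B + 1 = y then 1 else 0
        by_cases h : B + 1 = y
        · subst h
          simp
        · simp [h]
      · congr 1
        show _ = ∑ _ : Fin (M - m), if B = y then 1 else 0
        by_cases h : B = y
        · subst h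
          simp
        · simp [h])
  rw [part_congr e he]
  exact part_items (fun i => ha _ (List.getElem_mem _)) hB hmM

/-- the instance that is used, for a given input -/
def fixI (I : ℕ × List ℕ) : ℕ × List ℕ := bif wf I then I else (13, [6, 4, 4, 4, 4, 4])

/-- the product of the target and the number of groups -/
def qq' (I : ℕ × List ℕ) : ℕ := I.1 * mm I.2

/-- the number of fillers in each group -/
def kk (s : ℕ) (I : ℕ × List ℕ) : ℕ := (25 * qq' I) ^ s

/-- the number of groups -/
def gg (s : ℕ) (I : ℕ × List ℕ) : ℕ := kk s I * qq' I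

/-- the sequence for a well-formed instance -/
def core (s : ℕ) (I : ℕ × List ℕ) : List ℕ :=
  replicate ((I.1 + kk s I * (I.1 + 1)) + 2) ((I.1 + kk s I * (I.1 + 1)) + 1 + gg s I) ++
    (replicate (gg s I * kk s I) (I.1 + 1) ++ (replicate (gg s I - mm I.2) I.1 ++
      srt I.1 I.2)).map fun x => x + 2

/-- the reduction -/
def red2 (s : ℕ) (I : ℕ × List ℕ) : List ℕ := core s (fixI I)

lemma wf_fixI (I : ℕ × List ℕ) : wf (fixI I) = true := by
  unfold fixI
  cases h : wf I with
  | true => exact h
  | false => rfl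

/-- the facts on the sequence of a well-formed instance -/
lemma core_facts (s : ℕ) {B m : ℕ} {a : List ℕ} (hm : 1 ≤ m) (hlen : a.length = 3 * m)
    (ha : ∀ x ∈ a, B < 4 * x ∧ 2 * x < B) :
    1 ≤ B ∧ m ≤ gg s (B, a) ∧ (core s (B, a)).Pairwise (· ≥ ·) ∧
      core s (B, a) ~ replicate ((B + kk s (B, a) * (B + 1)) + 2)
        ((B + kk s (B, a) * (B + 1)) + 1 + gg s (B, a)) ++
        (fill B m (kk s (B, a)) (gg s (B, a)) a).map (· + 2) := by
  have hB : 1 ≤ B := by
    have hne : a ≠ [] := by
      rintro rfl
      simp at hlen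
      omega
    obtain ⟨x, hx⟩ := exists_mem_of_ne_nil _ hne
    have := ha x hx
    omega
  have hmm : mm a = m := mm_eq hlen
  have hQ : m ≤ qq' (B, a) := by
    show m ≤ B * mm a
    rw [hmm]
    exact Nat.le_mul_of_pos_left _ hB
  have hK : 1 ≤ kk s (B, a) := Nat.one_le_pow _ _ (by omega)
  have hG : m ≤ gg s (B, a) := hQ.trans (Nat.le_mul_of_pos_left _ hK)
  have hsorted : (replicate (gg s (B, a) * kk s (B, a)) (B + 1) ++ (replicate (gg s (B, a) - mm a) B ++
      srt B a)).Pairwise (· ≥ ·) := by
    rw [pairwise_append, pairwise_append]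
    refine ⟨pairwise_replicate.2 (Or.inr le_rfl), ⟨pairwise_replicate.2 (Or.inr le_rfl),
      srt_pairwise B a, ?_⟩, ?_⟩
    · intro x hx y hy
      rw [eq_of_mem_replicate hx]
      exact mem_srt hy
    · intro x hx y hy
      rw [eq_of_mem_replicate hx]
      rcases mem_append.1 hy with hy | hy
      · rw [eq_of_mem_replicate hy]
        omega
      · have := mem_srt hy
        omega
  refine ⟨hB, hG, ?_, ?_⟩
  · unfold core
    rw [pairwise_append]
    refine ⟨pairwise_replicate.2 (Or.inr le_rfl), ?_, ?_⟩
    · rw [pairwise_map]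
      exact hsorted.imp fun h => by omega
    · intro x hx y hy
      rw [eq_of_mem_replicate hx]
      obtain ⟨z, hz, rfl⟩ := mem_map.1 hy
      have h1 : z ≤ B + 1 := by
        rcases mem_append.1 hz with hz | hz
        · rw [eq_of_mem_replicate hz]
        rcases mem_append.1 hz with hz | hz
        · rw [eq_of_mem_replicate hz]
          omega
        · have := mem_srt hz
          omega
      have h2 : B + 1 ≤ kk s (B, a) * (B + 1) := Nat.le_mul_of_pos_left _ hK
      show B + kk s (B, a) * (B + 1) + 1 + gg s (B, a) ≥ z + 2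
      omega
  · unfold core
    apply Perm.append_left
    apply Perm.map
    unfold fill
    apply Perm.append_left
    show replicate (gg s (B, a) - mm a) B ++ srt B a ~ _
    rw [hmm]
    apply Perm.append_left
    refine (srt_perm B a).trans ?_
    rw [filter_eq_self.2]
    intro x hx
    have := ha x hx
    rw [decide_eq_true_eq]
    omega

theorem core_spec (s : ℕ) {I : ℕ × List ℕ} (h : wf I = true) :
    Graphical (core s I) ∧ (ThreePartition I ↔ Attainable (core s I)) ∧
    (∀ d ∈ core s I, 3 ≤ d ∧ d ^ (2 * s) ≤ (core s I).length ^ (s + 1)) := by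
  obtain ⟨B, a⟩ := I
  obtain ⟨m, hm, hlen, ha, hsum⟩ := (wf_iff _).1 h
  simp only at hlen ha hsum
  obtain ⟨hB, hG, hs, hperm⟩ := core_facts s hm hlen ha
  set K := kk s (B, a) with hK
  set M := gg s (B, a) with hM
  have ha1 : ∀ x ∈ a, 1 ≤ x := fun x hx => by have := ha x hx; omega
  have hfill1 : ∀ x ∈ fill B m K M a, 1 ≤ x ∧ x ≤ B + K * (B + 1) := by
    have hK1 : 1 ≤ K := by
      rw [hK]
      apply Nat.one_le_pow
      show 0 < 25 * (B * mm a)
      rw [mm_eq hlen]
      positivity
    have hK2 : B + 1 ≤ K * (B + 1) := Nat.le_mul_of_pos_left _ hK1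
    intro x hx
    unfold fill at hx
    rcases mem_append.1 hx with hx | hx
    · rw [eq_of_mem_replicate hx]
      omega
    rcases mem_append.1 hx with hx | hx
    · rw [eq_of_mem_replicate hx]
      omega
    · have := ha x hx
      omega
  have hfsum := fill_sum (B := B) (m := m) (K := K) (M := M) (a := a) hG hsum
  have hM1 : 1 ≤ M := hm.trans hG
  refine ⟨Gen.graphical_of hM1 (by omega) hfill1 hfsum hs hperm, ?_, ?_⟩
  · have key : ThreePartition (B, a) ↔ Part (fun i : Fin a.length => a[i]) m B := by
      rw [part_list]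
      constructor
      · rintro ⟨m', hm', hlen', _, _, hf⟩
        simp only at hlen' hf
        obtain rfl : m' = m := by omega
        exact hf
      · intro hf
        exact ⟨m, hm, hlen, ha, hsum, hf⟩
    rw [key, ← part_fill (K := K) ha1 hB hG, part_list]
    constructor
    · intro hf
      exact Gen.attainable_of_partition (by omega) (fun x hx => (hfill1 x hx).1) hs hperm hf
    · intro hA
      exact partition_of_attainable (by omega) hM1 (fun x hx => (hfill1 x hx).1) hfsum hperm hA
  · -- sizes
    set Q := qq' (B, a) with hQ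
    have hQ' : Q = B * m := by
      rw [hQ]
      show B * mm a = _
      rw [mm_eq hlen]
    have hQ1 : 1 ≤ Q := by rw [hQ']; exact Nat.mul_pos hB hm
    have hBQ : B ≤ Q := by rw [hQ']; exact Nat.le_mul_of_pos_right _ hm
    have hKQ : K = (25 * Q) ^ s := rfl
    have hMQ : M = K * Q := rfl
    have hK1 : 1 ≤ K := Nat.one_le_pow _ _ (by omega)
    have hlenD : (core s (B, a)).length = (B + K * (B + 1) + 2) + (fill B m K M a).length := by
      rw [hperm.length_eq, length_append, length_replicate, length_map]
    have hlenF : M * K ≤ (fill B m K M a).length := by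
      unfold fill
      rw [length_append, length_replicate]
      omega
    set n := (core s (B, a)).length with hn
    have hnKQ : K * K * Q ≤ n := by
      have : M * K = K * K * Q := by rw [hMQ]; ring
      omega
    have hKn : K ≤ n := by
      have : K ≤ K * K * Q := by
        calc K = K * 1 * 1 := by ring
          _ ≤ K * K * Q := Nat.mul_le_mul (Nat.mul_le_mul_left _ hK1) hQ1
      omega
    have hmax : ∀ d ∈ core s (B, a), d ≤ 5 * (K * Q) := by
      intro d hd
      rw [hperm.mem_iff, mem_append] at hd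
      have e1 : Q ≤ K * Q := Nat.le_mul_of_pos_left _ hK1
      have e2 : K * (B + 1) ≤ 2 * (K * Q) := by nlinarith
      have e3 : 1 ≤ K * Q := Nat.mul_pos hK1 hQ1
      rcases hd with hd | hd
      · rw [eq_of_mem_replicate hd, hMQ]
        omega
      · obtain ⟨x, hx, rfl⟩ := mem_map.1 hd
        have := (hfill1 x hx).2
        omega
    intro d hd
    constructor
    · rw [hperm.mem_iff, mem_append] at hd
      rcases hd with hd | hd
      · rw [eq_of_mem_replicate hd]
        omega
      · obtain ⟨x, hx, rfl⟩ := mem_map.1 hd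
        have := (hfill1 x hx).1
        omega
    · have e1 : d ^ 2 ≤ 25 * Q * n := by
        calc d ^ 2 ≤ (5 * (K * Q)) ^ 2 := Nat.pow_le_pow_left (hmax d hd) 2
          _ = 25 * Q * (K * K * Q) := by ring
          _ ≤ 25 * Q * n := Nat.mul_le_mul_left _ hnKQ
      calc d ^ (2 * s) = (d ^ 2) ^ s := pow_mul _ _ _
        _ ≤ (25 * Q * n) ^ s := Nat.pow_le_pow_left e1 s
        _ = K * n ^ s := by rw [mul_pow, hKQ]
        _ ≤ n * n ^ s := Nat.mul_le_mul_right _ hKn
        _ = n ^ (s + 1) := (pow_succ' n s).symm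

lemma bad_wf : ¬ ThreePartition (13, [6, 4, 4, 4, 4, 4]) := by
  rintro ⟨m, hm, hlen, _, _, f, hf⟩
  have h0 := hf ⟨0, hm⟩
  have he : ∀ i : Fin ([6, 4, 4, 4, 4, 4] : List ℕ).length,
    2 ∣ ([6, 4, 4, 4, 4, 4] : List ℕ)[i] := bad_even'
  have h1 : 2 ∣ ∑ i ∈ Finset.univ.filter (fun i => f i = ⟨0, hm⟩),
      ([6, 4, 4, 4, 4, 4] : List ℕ)[i] := Finset.dvd_sum fun i _ => he i
  rw [h0] at h1
  revert h1
  decide
where
  bad_even' : ∀ i : Fin ([6, 4, 4, 4, 4, 4] : List ℕ).length,
    2 ∣ ([6, 4, 4, 4, 4, 4] : List ℕ)[i] := by decide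

theorem red2_iff (s : ℕ) (I : ℕ × List ℕ) : ThreePartition I ↔ Attainable (red2 s I) := by
  rw [red2, ← (core_spec s (wf_fixI I)).2.1]
  unfold fixI
  cases h : wf I with
  | true => rfl
  | false =>
    rw [cond_false]
    constructor
    · rintro ⟨m, hm, hlen, ha, hsum, _⟩
      have := (wf_iff I).2 ⟨m, hm, hlen, ha, hsum⟩
      rw [h] at this
      cases this
    · intro hA
      exact absurd hA bad_wf

/-! ### Polynomial time -/

variable {α : Type} [Rep α]

lemma pt_pow {f : α → ℕ} (hf : PolyTime f) (s : ℕ) : PolyTime (fun x => f x ^ s) := by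
  induction s with
  | zero =>
    have : (fun x => f x ^ 0) = fun _ => 1 := by
      funext x
      simp
    rw [this]
    exact PolyTime.const 1
  | succ s ih =>
    have : (fun x => f x ^ (s + 1)) = fun x => f x ^ s * f x := by
      funext x
      rw [pow_succ]
    rw [this]
    exact ih.mul hf

lemma pt_fixI : PolyTime fixI := by
  unfold fixI
  exact PolyTime.cond pt_wf (by fun_prop) (by fun_prop)

lemma pt_qq' : PolyTime qq' := by
  unfold qq'
  exact PolyTime.mul (by fun_prop) (pt_mm (by fun_prop))

lemma pt_kk (s : ℕ) : PolyTime (kk s) := by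
  unfold kk
  exact pt_pow (PolyTime.mul (by fun_prop) pt_qq') s

lemma pt_gg (s : ℕ) : PolyTime (gg s) := by
  unfold gg
  exact PolyTime.mul (pt_kk s) pt_qq'

lemma pt_core (s : ℕ) : PolyTime (core s) := by
  have h1 := pt_kk s
  have h2 := pt_gg s
  have h3 : PolyTime (fun I : ℕ × List ℕ => mm I.2) := pt_mm (by fun_prop)
  have h4 : PolyTime (fun I : ℕ × List ℕ => srt I.1 I.2) := by
    unfold srt
    apply PolyTime.flatMap (by fun_prop)
    apply PolyTime.filter (by fun_prop)
    exact PolyTime.natEq (by fun_prop) (by fun_prop)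
  unfold core
  apply PolyTime.append
  · fun_prop
  · apply PolyTime.map
    · fun_prop
    · fun_prop

lemma pt_red2 (s : ℕ) : PolyTime (red2 s) := by
  unfold red2
  exact (pt_core s).comp pt_fixI

/-- **Hardness for sequences with small entries.** -/
theorem exists_reduction_sparse (s : ℕ) : ∃ R : ℕ × List ℕ → List ℕ, PolyTime R ∧
    (∀ I, Graphical (R I) ∧ ∀ d ∈ R I, 3 ≤ d ∧ d ^ (2 * s) ≤ (R I).length ^ (s + 1)) ∧
    ∀ I, ThreePartition I ↔ Attainable (R I) :=
  ⟨red2 s, pt_red2 s, fun I => ⟨(core_spec s (wf_fixI I)).1, (core_spec s (wf_fixI I)).2.2⟩,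
    red2_iff s⟩

end Pool.Agent.AvgConn
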