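import Pool.Agent.Lib_helper36.AvgConn.Basic

/-!
# Graphs with given degrees whose neighbourhoods meet different rows
-/

set_option autoImplicit false

namespace Pool.Agent.AvgConn

open SimpleGraph Finset

variable {V ι : Type} {row : V → ι} {H : SimpleGraph V}

/-- the neighbours of a vertex are in different rows, none of them in its own row -/
structure Good (row : V → ι) (H : SimpleGraph V) : Prop where
  ne : ∀ v w, H.Adj v w → row v ≠ row w
  inj : ∀ v x y, H.Adj v x → H.Adj v y → row x = row y → x = y

lemma Good.mono {H' : SimpleGraph V} (h : Good row H) (hle : H' ≤ H) : Good row H' :=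
  ⟨fun v w h1 => h.ne v w (hle h1), fun v x y h1 h2 h3 => h.inj v x y (hle h1) (hle h2) h3⟩

lemma Good.add (h : Good row H) {u w : V} (huw : row u ≠ row w)
    (h1 : ∀ z, H.Adj w z → row z ≠ row u) (h2 : ∀ z, H.Adj u z → row z ≠ row w) :
    Good row (H ⊔ edge u w) := by
  constructor
  · intro a b hab
    rw [sup_adj, edge_adj] at hab
    rcases hab with hab | ⟨⟨rfl, rfl⟩ | ⟨rfl, rfl⟩, -⟩
    · exact h.ne a b hab
    · exact huw
    · exact huw.symm
  · intro v x y hx hy hxy
    rw [sup_adj, edge_adj] at hx hy
    rcases hx with hx | ⟨⟨h3, h4⟩ | ⟨h3, h4⟩, -⟩ <;>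
      rcases hy with hy | ⟨⟨h5, h6⟩ | ⟨h5, h6⟩, -⟩
    · exact h.inj v x y hx hy hxy
    · subst h5 h6
      exact absurd hxy (h2 x hx)
    · subst h5 h6
      exact absurd hxy (h1 x hx)
    · subst h3 h4
      exact absurd hxy.symm (h2 y hy)
    · exact h4.trans h6.symm
    · exact absurd (h3.symm.trans h5) (fun hh => huw (by rw [hh]))
    · subst h3 h4
      exact absurd hxy.symm (h1 y hy)
    · exact absurd (h5.symm.trans h3) (fun hh => huw (by rw [hh]))
    · exact h4.trans h6.symm

open Classical in
/-- the degree -/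
noncomputable def dg [Fintype V] (H : SimpleGraph V) (v : V) : ℕ :=
  (univ.filter fun w => H.Adj v w).card

open Classical in
lemma dg_add [Fintype V] {u w : V} (huw : u ≠ w) (h : ¬ H.Adj u w) (v : V) :
    dg (H ⊔ edge u w) v = dg H v + if v = u ∨ v = w then 1 else 0 := by
  unfold dg
  by_cases hv : v = u
  · subst hv
    rw [if_pos (Or.inl rfl), ← card_insert_of_notMem (a := w) (by simp [h])]
    congr 1
    ext x
    simp only [mem_filter, mem_univ, true_and, sup_adj, edge_adj, mem_insert]
    constructor
    · rintro (h1 | ⟨h1 | h1, h3⟩)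
      · exact Or.inr h1
      · exact Or.inl h1
      · exact absurd h1.1 huw
    · rintro (h1 | h1)
      · subst h1
        exact Or.inr ⟨Or.inl rfl, huw⟩
      · exact Or.inl h1
  · by_cases hw : v = w
    · subst hw
      rw [if_pos (Or.inr rfl), ← card_insert_of_notMem (a := u) (by simp [h, H.adj_comm])]
      congr 1
      ext x
      simp only [mem_filter, mem_univ, true_and, sup_adj, edge_adj, mem_insert]
      constructor
      · rintro (h1 | ⟨h1 | h1, h3⟩)
        · exact Or.inr h1
        · exact absurd h1.1.symm huw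
        · exact Or.inl h1
      · rintro (h1 | h1)
        · subst h1
          exact Or.inr ⟨Or.inr rfl, huw.symm⟩
        · exact Or.inl h1
    · rw [if_neg (by simp [hv, hw]), add_zero]
      congr 1
      ext x
      simp only [mem_filter, mem_univ, true_and, sup_adj, edge_adj]
      constructor
      · rintro (h1 | ⟨⟨h1, h2⟩ | ⟨h1, h2⟩, h3⟩)
        · exact h1
        · exact absurd h1 hv
        · exact absurd h1 hw
      · exact Or.inl

open Classical in
lemma dg_rem [Fintype V] {x y : V} (h : H.Adj x y) (v : V) :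
    dg H v = dg (H \ edge x y) v + if v = x ∨ v = y then 1 else 0 := by
  have h1 : ¬ (H \ edge x y).Adj x y := by
    rw [sdiff_adj, edge_adj]
    rintro ⟨-, h2⟩
    exact h2 ⟨Or.inl ⟨rfl, rfl⟩, h.ne⟩
  rw [← dg_add h.ne h1 v]
  congr 1
  ext a b
  rw [sup_adj, sdiff_adj, edge_adj]
  constructor
  · intro hab
    by_cases h2 : (a = x ∧ b = y ∨ a = y ∧ b = x) ∧ a ≠ b
    · exact Or.inr h2
    · exact Or.inl ⟨hab, h2⟩
  · rintro (h2 | ⟨⟨rfl, rfl⟩ | ⟨rfl, rfl⟩, -⟩)
    · exact h2.1
    · exact h
    · exact h.symm

lemma sum_two [Fintype V] [DecidableEq V] {u w : V} (huw : u ≠ w) :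
    (∑ v : V, if v = u ∨ v = w then 1 else 0) = 2 := by
  rw [← Finset.card_filter]
  have : (univ.filter fun v => v = u ∨ v = w) = {u, w} := by
    ext v
    simp
  rw [this, card_pair huw]

/-- the vertices that cannot be joined to `u` -/
def Bad (row : V → ι) (H : SimpleGraph V) (u x : V) : Prop :=
  row x = row u ∨ (∃ z, H.Adj x z ∧ row z = row u) ∨ ∃ z, H.Adj u z ∧ row z = row x

open Classical in
lemma sum_bad [Fintype V] {f : V → ℕ} (hdeg : ∀ v, dg H v ≤ f v) {Δ s : ℕ} (hf : ∀ v, f v ≤ Δ)
    (hs : ∀ u, ∑ v ∈ univ.filter (fun v => row v = row u), f v ≤ s) (u : V) :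
    ∑ x ∈ univ.filter (Bad row H u), f x ≤ (1 + 2 * Δ) * s := by
  have h1 : univ.filter (Bad row H u) ⊆ (univ.filter (fun v => row v = row u)) ∪
      ((univ.filter fun x => ∃ z, H.Adj x z ∧ row z = row u) ∪
        univ.filter fun x => ∃ z, H.Adj u z ∧ row z = row x) := by
    intro x
    simp only [mem_filter, mem_union, mem_univ, true_and]
    exact fun h => h
  have h2 : ∑ x ∈ univ.filter (fun x => ∃ z, H.Adj x z ∧ row z = row u), f x ≤ Δ * s := by
    have e1 : (univ.filter fun x => ∃ z, H.Adj x z ∧ row z = row u) ⊆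
        (univ.filter fun z => row z = row u).biUnion fun z => univ.filter fun x => H.Adj z x := by
      intro x
      simp only [mem_filter, mem_biUnion, mem_univ, true_and]
      rintro ⟨z, h1, h2⟩
      exact ⟨z, h2, h1.symm⟩
    have e2 := (Finset.card_le_card e1).trans Finset.card_biUnion_le
    have e3 : ∑ z ∈ univ.filter (fun z => row z = row u), (univ.filter fun x => H.Adj z x).card ≤ s :=
      (Finset.sum_le_sum fun z _ => hdeg z).trans (hs u)
    calc ∑ x ∈ univ.filter (fun x => ∃ z, H.Adj x z ∧ row z = row u), f x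
        ≤ ∑ x ∈ univ.filter (fun x => ∃ z, H.Adj x z ∧ row z = row u), Δ :=
          Finset.sum_le_sum fun x _ => hf x
      _ = (univ.filter (fun x => ∃ z, H.Adj x z ∧ row z = row u)).card * Δ := by
          rw [Finset.sum_const, smul_eq_mul]
      _ ≤ s * Δ := Nat.mul_le_mul_right _ (e2.trans e3)
      _ = Δ * s := Nat.mul_comm _ _
  have h3 : ∑ x ∈ univ.filter (fun x => ∃ z, H.Adj u z ∧ row z = row x), f x ≤ Δ * s := by
    calc ∑ x ∈ univ.filter (fun x => ∃ z, H.Adj u z ∧ row z = row x), f x
        ≤ ∑ x : V, ∑ z ∈ univ.filter (fun z => H.Adj u z), if row z = row x then f x else 0 := by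
          rw [Finset.sum_filter]
          apply Finset.sum_le_sum
          intro x _
          split_ifs with hx
          · obtain ⟨z, hz1, hz2⟩ := hx
            have : (if row z = row x then f x else 0) ≤
                ∑ z ∈ univ.filter (fun z => H.Adj u z), if row z = row x then f x else 0 :=
              Finset.single_le_sum (f := fun z => if row z = row x then f x else 0)
                (fun _ _ => Nat.zero_le _) (by simp [hz1])
            rwa [if_pos hz2] at this
          · exact Nat.zero_le _
      _ = ∑ z ∈ univ.filter (fun z => H.Adj u z), ∑ x : V, if row z = row x then f x else 0 :=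
          Finset.sum_comm
      _ ≤ ∑ z ∈ univ.filter (fun z => H.Adj u z), s := by
          apply Finset.sum_le_sum
          intro z _
          rw [← Finset.sum_filter]
          have := hs z
          have e : (univ.filter fun x => row z = row x) = univ.filter fun x => row x = row z := by
            ext x
            simp [eq_comm]
          rw [e]
          exact this
      _ = dg H u * s := by rw [Finset.sum_const, smul_eq_mul]; rfl
      _ ≤ Δ * s := Nat.mul_le_mul_right _ ((hdeg u).trans (hf u))
  calc ∑ x ∈ univ.filter (Bad row H u), f x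
      ≤ ∑ x ∈ (univ.filter (fun v => row v = row u)) ∪
      ((univ.filter fun x => ∃ z, H.Adj x z ∧ row z = row u) ∪
        univ.filter fun x => ∃ z, H.Adj u z ∧ row z = row x), f x :=
        Finset.sum_le_sum_of_subset h1
    _ ≤ ∑ x ∈ univ.filter (fun v => row v = row u), f x +
      (∑ x ∈ univ.filter (fun x => ∃ z, H.Adj x z ∧ row z = row u), f x +
        ∑ x ∈ univ.filter (fun x => ∃ z, H.Adj u z ∧ row z = row x), f x) := by
        have e1 := Finset.sum_union_inter (s₁ := univ.filter (fun v => row v = row u))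
          (s₂ := (univ.filter fun x => ∃ z, H.Adj x z ∧ row z = row u) ∪
        univ.filter fun x => ∃ z, H.Adj u z ∧ row z = row x) (f := f)
        have e2 := Finset.sum_union_inter (s₁ := univ.filter fun x => ∃ z, H.Adj x z ∧ row z = row u)
          (s₂ := univ.filter fun x => ∃ z, H.Adj u z ∧ row z = row x) (f := f)
        omega
    _ ≤ s + (Δ * s + Δ * s) := Nat.add_le_add (hs u) (Nat.add_le_add h2 h3)
    _ = (1 + 2 * Δ) * s := by ring

end Pool.Agent.AvgConn
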