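import Pool.Agent.Lib_helper36.AvgConn.NP

/-!
# The polynomial time test of certificates
-/

set_option autoImplicit false

namespace Pool.Agent.AvgConn

open List Pool.Agent.Poly Pool.Agent.Seg

/-- an entry of a path of the certificate -/
def qq (w : List Bool) (n x y i t : ℕ) : ℕ := pp (numb w n) n x y i t

/-- adjacency in the graph of the certificate -/
def aq (w : List Bool) (n x y : ℕ) : Bool := adB (numb w n) n x y

/-- the test of a step -/
def tStep (w : List Bool) (n x y i t : ℕ) : Bool :=
  (aq w n (qq w n x y i t) (qq w n x y i (t + 1)) &&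
    (!(decide (qq w n x y i (t + 1) = x)) && decide (qq w n x y i (t + 1) < n))) ||
  (decide (qq w n x y i t = y) && decide (qq w n x y i (t + 1) = y))

/-- the test of two entries -/
def tTwo (w : List Bool) (n x y i i' t t' : ℕ) : Bool :=
  !(decide (qq w n x y i t = qq w n x y i' t')) ||
    (decide (qq w n x y i t = x) || decide (qq w n x y i t = y))

/-- the test of two paths -/
def tPaths (D : List ℕ) (w : List Bool) (x y i i' : ℕ) : Bool :=
  !(decide (i' < D.getD x 0) && (decide (i' < D.getD y 0) && !(decide (i = i')))) ||
  (!(decide (qq w D.length x y i 1 = y) && decide (qq w D.length x y i' 1 = y)) &&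
    (range (D.length + 1)).all fun t => (range (D.length + 1)).all fun t' =>
      tTwo w D.length x y i i' t t')

/-- the test of a path -/
def tPath (D : List ℕ) (w : List Bool) (x y i : ℕ) : Bool :=
  !(decide (i < D.getD x 0) && decide (i < D.getD y 0)) ||
  ((decide (qq w D.length x y i 0 = x) && decide (qq w D.length x y i D.length = y)) &&
  (((range D.length).all fun t => tStep w D.length x y i t) &&
  (range D.length).all fun i' => tPaths D w x y i i'))

/-- the test -/
def test (p : List ℕ × List Bool) : Bool :=
  decide (2 ≤ p.1.length) &&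
  (((range p.1.length).all fun i => (range p.1.length).all fun j =>
    !(decide (i < j)) || decide (p.1.getD j 0 ≤ p.1.getD i 0)) &&
  (((range p.1.length).all fun x =>
    decide (((range p.1.length).filter fun y => aq p.2 p.1.length x y).length = p.1.getD x 0)) &&
  (range p.1.length).all fun x => (range p.1.length).all fun y =>
    decide (x = y) || (range p.1.length).all fun i => tPath p.1 p.2 x y i))

lemma test_iff (D : List ℕ) (w : List Bool) : test (D, w) = true ↔ Cond D (numb w D.length) := by
  have hor : ∀ a b : Prop, (¬ a ∨ b) ↔ (a → b) := fun a b => ⟨fun h ha => h.resolve_left (not_not.2 ha),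
    fun h => by by_cases ha : a; exact Or.inr (h ha); exact Or.inl ha⟩
  unfold test Cond
  simp only [Bool.and_eq_true, all_eq_true, mem_range, decide_eq_true_eq, Bool.or_eq_true,
    Bool.not_eq_true', decide_eq_false_iff_not]
  refine and_congr Iff.rfl (and_congr ?_ (and_congr ?_ ?_))
  · refine forall_congr' fun i => forall_congr' fun _ => forall_congr' fun j => forall_congr' fun _ => ?_
    exact hor _ _
  · exact Iff.rfl
  · refine forall_congr' fun x => forall_congr' fun _ => forall_congr' fun y => forall_congr' fun _ => ?_
    rw [or_iff_not_imp_left]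
    refine forall_congr' fun _ => forall_congr' fun i => forall_congr' fun _ => ?_
    unfold tPath
    simp only [Bool.and_eq_true, all_eq_true, mem_range, decide_eq_true_eq, Bool.or_eq_true,
      Bool.not_eq_true', ← Bool.not_eq_true]
    rw [hor]
    refine forall_congr' fun _ => and_congr Iff.rfl (and_congr ?_ ?_)
    · refine forall_congr' fun t => forall_congr' fun _ => ?_
      unfold tStep
      simp only [Bool.and_eq_true, decide_eq_true_eq, Bool.or_eq_true,
        Bool.not_eq_true', decide_eq_false_iff_not]
      exact Iff.rfl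
    · refine forall_congr' fun i' => forall_congr' fun _ => ?_
      unfold tPaths
      simp only [Bool.and_eq_true, all_eq_true, mem_range, decide_eq_true_eq, Bool.or_eq_true,
        Bool.not_eq_true', ← Bool.not_eq_true]
      rw [hor]
      refine forall_congr' fun _ => and_congr Iff.rfl ?_
      refine forall_congr' fun t => forall_congr' fun _ => forall_congr' fun t' =>
        forall_congr' fun _ => ?_
      unfold tTwo
      simp only [decide_eq_true_eq, Bool.or_eq_true, Bool.not_eq_true', decide_eq_false_iff_not]
      exact hor _ _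

variable {α : Type} [Rep α]

lemma pt_qq {w : α → List Bool} {n x y i t : α → ℕ} (hw : PolyTime w) (hn : PolyTime n)
    (hx : PolyTime x) (hy : PolyTime y) (hi : PolyTime i) (ht : PolyTime t) :
    PolyTime (fun a => qq (w a) (n a) (x a) (y a) (i a) (t a)) := by
  unfold qq pp
  exact pt_numb (by fun_prop) (by fun_prop) (by fun_prop)

lemma pt_aq {w : α → List Bool} {n x y : α → ℕ} (hw : PolyTime w) (hn : PolyTime n)
    (hx : PolyTime x) (hy : PolyTime y) :
    PolyTime (fun a => aq (w a) (n a) (x a) (y a)) := by
  unfold aq adB off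
  refine PolyTime.and (PolyTime.not (PolyTime.natEq hx hy)) (PolyTime.or ?_ ?_)
  · exact PolyTime.isPos (pt_numb (by fun_prop) (by fun_prop) (by fun_prop))
  · exact PolyTime.isPos (pt_numb (by fun_prop) (by fun_prop) (by fun_prop))

lemma pt_tStep {w : α → List Bool} {n x y i t : α → ℕ} (hw : PolyTime w) (hn : PolyTime n)
    (hx : PolyTime x) (hy : PolyTime y) (hi : PolyTime i) (ht : PolyTime t) :
    PolyTime (fun a => tStep (w a) (n a) (x a) (y a) (i a) (t a)) := by
  unfold tStep
  have h1 := pt_qq hw hn hx hy hi ht
  have h2 := pt_qq (t := fun a => t a + 1) hw hn hx hy hi (by fun_prop)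
  exact PolyTime.or (PolyTime.and (pt_aq hw hn h1 h2) (PolyTime.and
    (PolyTime.not (PolyTime.natEq h2 hx)) (PolyTime.lt h2 hn)))
    (PolyTime.and (PolyTime.natEq h1 hy) (PolyTime.natEq h2 hy))

lemma pt_tTwo {w : α → List Bool} {n x y i i' t t' : α → ℕ} (hw : PolyTime w) (hn : PolyTime n)
    (hx : PolyTime x) (hy : PolyTime y) (hi : PolyTime i) (hi' : PolyTime i') (ht : PolyTime t)
    (ht' : PolyTime t') :
    PolyTime (fun a => tTwo (w a) (n a) (x a) (y a) (i a) (i' a) (t a) (t' a)) := by
  unfold tTwo
  have h1 := pt_qq hw hn hx hy hi ht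
  have h2 := pt_qq hw hn hx hy hi' ht'
  exact PolyTime.or (PolyTime.not (PolyTime.natEq h1 h2))
    (PolyTime.or (PolyTime.natEq h1 hx) (PolyTime.natEq h1 hy))

lemma pt_tPaths {D : α → List ℕ} {w : α → List Bool} {x y i i' : α → ℕ} (hD : PolyTime D)
    (hw : PolyTime w) (hx : PolyTime x) (hy : PolyTime y) (hi : PolyTime i) (hi' : PolyTime i') :
    PolyTime (fun a => tPaths (D a) (w a) (x a) (y a) (i a) (i' a)) := by
  unfold tPaths
  refine PolyTime.or (PolyTime.not (PolyTime.and ?_ (PolyTime.and ?_ ?_))) (PolyTime.and
    (PolyTime.not (PolyTime.and ?_ ?_)) ?_)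
  · exact PolyTime.lt hi' (by fun_prop)
  · exact PolyTime.lt hi' (by fun_prop)
  · exact PolyTime.not (PolyTime.natEq hi hi')
  · exact PolyTime.natEq (pt_qq hw (by fun_prop) hx hy hi (by fun_prop)) hy
  · exact PolyTime.natEq (pt_qq hw (by fun_prop) hx hy hi' (by fun_prop)) hy
  · refine PolyTime.all (by fun_prop) (PolyTime.all (by fun_prop) ?_)
    exact pt_tTwo (by fun_prop) (by fun_prop) (by fun_prop) (by fun_prop) (by fun_prop)
      (by fun_prop) (by fun_prop) (by fun_prop)

lemma pt_tPath {D : α → List ℕ} {w : α → List Bool} {x y i : α → ℕ} (hD : PolyTime D)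
    (hw : PolyTime w) (hx : PolyTime x) (hy : PolyTime y) (hi : PolyTime i) :
    PolyTime (fun a => tPath (D a) (w a) (x a) (y a) (i a)) := by
  unfold tPath
  refine PolyTime.or (PolyTime.not (PolyTime.and ?_ ?_)) (PolyTime.and (PolyTime.and ?_ ?_)
    (PolyTime.and ?_ ?_))
  · exact PolyTime.lt hi (by fun_prop)
  · exact PolyTime.lt hi (by fun_prop)
  · exact PolyTime.natEq (pt_qq hw (by fun_prop) hx hy hi (by fun_prop)) hx
  · exact PolyTime.natEq (pt_qq hw (by fun_prop) hx hy hi (by fun_prop)) hy
  · refine PolyTime.all (by fun_prop) ?_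
    exact pt_tStep (by fun_prop) (by fun_prop) (by fun_prop) (by fun_prop) (by fun_prop)
      (by fun_prop)
  · refine PolyTime.all (by fun_prop) ?_
    exact pt_tPaths (by fun_prop) (by fun_prop) (by fun_prop) (by fun_prop) (by fun_prop)
      (by fun_prop)

lemma pt_test : PolyTime test := by
  unfold test
  refine PolyTime.and ?_ (PolyTime.and ?_ (PolyTime.and ?_ ?_))
  · exact PolyTime.le (by fun_prop) (by fun_prop)
  · refine PolyTime.all (by fun_prop) (PolyTime.all (by fun_prop) (PolyTime.or (PolyTime.not ?_) ?_))
    · exact PolyTime.lt (by fun_prop) (by fun_prop)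
    · exact PolyTime.le (by fun_prop) (by fun_prop)
  · refine PolyTime.all (by fun_prop) (PolyTime.natEq (PolyTime.length (PolyTime.filter
      (by fun_prop) ?_)) (by fun_prop))
    exact pt_aq (by fun_prop) (by fun_prop) (by fun_prop) (by fun_prop)
  · refine PolyTime.all (by fun_prop) (PolyTime.all (by fun_prop) (PolyTime.or ?_
      (PolyTime.all (by fun_prop) ?_)))
    · exact PolyTime.natEq (by fun_prop) (by fun_prop)
    · exact pt_tPath (by fun_prop) (by fun_prop) (by fun_prop) (by fun_prop) (by fun_prop)

lemma length_le_size (L : List ℕ) : L.length ≤ (rep L).size := by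
  rw [← len_rep_list]
  exact len_le_size _

theorem attainable_inNP : InNP Attainable := by
  refine ⟨5, test, pt_test, fun D => ?_⟩
  constructor
  · intro h
    obtain ⟨v, hv, hc⟩ := cond_of h
    set M := off D.length + D.length * D.length with hM
    refine ⟨(range (M * D.length)).map fun q => decide (q % D.length < v (q / D.length)), ?_, ?_⟩
    · rw [length_map, length_range]
      have b1 := length_le_size D
      set s := (rep D).size with hs
      have b2 : M ≤ (s + 2) ^ 4 := by
        rw [hM, off]
        have c1 : D.length * D.length * D.length * (D.length + 1) + D.length * D.length ≤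
            s * s * s * (s + 1) + s * s := by
          apply Nat.add_le_add
          · apply Nat.mul_le_mul _ (by omega)
            exact Nat.mul_le_mul (Nat.mul_le_mul b1 b1) b1
          · exact Nat.mul_le_mul b1 b1
        refine c1.trans ?_
        nlinarith [Nat.zero_le s, Nat.zero_le (s * s), Nat.zero_le (s * s * s),
          Nat.zero_le (s * s * s * s)]
      calc M * D.length ≤ (s + 2) ^ 4 * (s + 2) := Nat.mul_le_mul b2 (by omega)
        _ = (s + 2) ^ 5 := (pow_succ _ _).symm
    · rw [test_iff]
      refine cond_congr ?_ hc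
      intro q hq
      exact (numb_map D.length M v q hq (hv q)).symm
  · rintro ⟨w, _, hw⟩
    rw [test_iff] at hw
    exact of_cond hw

end Pool.Agent.AvgConn
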