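import Pool.Agent.Lib_helper36.AvgConn.Equiv

/-!
# Adding a vertex adjacent to all others
-/

set_option autoImplicit false

namespace Pool.Agent.AvgConn

open SimpleGraph Finset

/-- adjacency in the graph with a universal vertex -/
def plusAdj {V : Type} (G : SimpleGraph V) : Option V → Option V → Prop
  | none, none => False
  | none, some _ => True
  | some _, none => True
  | some v, some w => G.Adj v w

/-- the graph with a universal vertex -/
def plus {V : Type} (G : SimpleGraph V) : SimpleGraph (Option V) where
  Adj := plusAdj G
  symm := ⟨by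
    rintro (_ | v) (_ | w) h
    · exact h
    · trivial
    · trivial
    · exact SimpleGraph.Adj.symm h⟩
  loopless := ⟨by
    rintro (_ | v) h
    · exact h
    · exact G.loopless.irrefl v h⟩

variable {V : Type} {G : SimpleGraph V}

lemma plus_ss {v w : V} : (plus G).Adj (some v) (some w) ↔ G.Adj v w := Iff.rfl
lemma plus_ns (G : SimpleGraph V) (v : V) : (plus G).Adj none (some v) := trivial
lemma plus_sn (G : SimpleGraph V) (v : V) : (plus G).Adj (some v) none := trivial

lemma plus_ncard_none [Finite V] : ((plus G).neighborSet none).ncard = Nat.card V := by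
  have : (plus G).neighborSet none = Set.range some := by
    ext x
    rcases x with _ | x
    · simp only [mem_neighborSet, Set.mem_range, reduceCtorEq, exists_false, iff_false]
      exact fun h => h
    · exact ⟨fun _ => ⟨x, rfl⟩, fun _ => plus_ns G x⟩
  rw [this, Set.ncard_range_of_injective (Option.some_injective V)]

lemma plus_ncard_some [Finite V] (v : V) :
    ((plus G).neighborSet (some v)).ncard = (G.neighborSet v).ncard + 1 := by
  have : (plus G).neighborSet (some v) = insert none (some '' G.neighborSet v) := by
    ext x
    rcases x with _ | x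
    · simp only [Set.mem_insert_iff, true_or, iff_true]
      exact plus_sn G v
    · simp only [Set.mem_insert_iff, reduceCtorEq, false_or, Set.mem_image, Option.some.injEq,
        exists_eq_right]
      exact Iff.rfl
  rw [this, Set.ncard_insert_of_notMem (by simp) (Set.toFinite _),
    Set.ncard_image_of_injective _ (Option.some_injective V)]

/-- the embedding of the old graph -/
def emb (G : SimpleGraph V) : G →g plus G := ⟨some, fun h => h⟩

/-- a walk of two edges -/
lemma exists_path2 {W : Type} {H : SimpleGraph W} {a b c : W} (h1 : H.Adj a b) (h2 : H.Adj b c)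
    (hac : a ≠ c) : ∃ p : H.Path a c, (p : H.Walk a c).support = [a, b, c] := by
  have hp : (Walk.cons h1 (Walk.cons h2 Walk.nil)).IsPath := by
    rw [Walk.isPath_def]
    simp [h1.ne, h2.ne, hac]
  exact ⟨⟨_, hp⟩, rfl⟩

lemma hasPaths_plus {v w : V} (hvw : v ≠ w) {k : ℕ} (h : HasPaths G v w k) :
    HasPaths (plus G) (some v) (some w) (k + 1) := by
  obtain ⟨P, hP⟩ := h
  obtain ⟨q, hq⟩ := exists_path2 (H := plus G) (a := some v) (b := none) (c := some w) (plus_sn G v)
    (plus_ns G w) (by simpa using hvw)
  have hinj : Function.Injective (emb G) := Option.some_injective V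
  let Q : Fin k → (plus G).Path (some v) (some w) := fun i =>
    SimpleGraph.Path.map (emb G) hinj (P i)
  have hsupp : ∀ i, (Q i : (plus G).Walk (some v) (some w)).support =
      (P i : G.Walk v w).support.map some := by
    intro i
    exact Walk.support_map (emb G) (P i : G.Walk v w)
  have hq2 : ∀ i, q ≠ Q i := by
    intro i he
    have h1 := hsupp i
    rw [← he, hq] at h1
    have h2 : (none : Option V) ∈ (P i : G.Walk v w).support.map some := by
      rw [← h1]
      simp
    simp at h2
  have hq3 : ∀ i, ∀ x, x ∈ (q : (plus G).Walk (some v) (some w)).support →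
      x ∈ (Q i : (plus G).Walk (some v) (some w)).support → x = some v ∨ x = some w := by
    intro i x hx hy
    rw [hq] at hx
    rw [hsupp] at hy
    simp only [List.mem_cons, List.not_mem_nil, or_false] at hx
    rcases hx with rfl | rfl | rfl
    · exact Or.inl rfl
    · simp at hy
    · exact Or.inr rfl
  refine HasPaths.of_fintype (ι := Option (Fin k)) (fun o => o.elim q Q) ?_ (by simp)
  intro i j hij
  rcases i with _ | i <;> rcases j with _ | j
  · exact absurd rfl hij
  · exact ⟨hq2 j, hq3 j⟩
  · exact ⟨(hq2 i).symm, fun x hx hy => hq3 i x hy hx⟩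
  · have hij' : i ≠ j := fun h => hij (by rw [h])
    refine ⟨?_, ?_⟩
    · intro he
      exact (hP i j hij').1 (SimpleGraph.Path.map_injective (f := emb G) hinj _ _ he)
    · intro x hx hy
      simp only [Option.elim_some] at hx hy
      rw [hsupp, List.mem_map] at hx hy
      obtain ⟨y, hy1, rfl⟩ := hx
      obtain ⟨z, hz1, hz2⟩ := hy
      obtain rfl : z = y := Option.some_injective _ hz2
      rcases (hP i j hij').2 _ hy1 hz1 with rfl | rfl
      · exact Or.inl rfl
      · exact Or.inr rfl

lemma hasPaths_none [Finite V] (w : V) :
    HasPaths (plus G) none (some w) ((G.neighborSet w).ncard + 1) := by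
  classical
  have hpath : ∀ x : G.neighborSet w, ∃ p : (plus G).Path none (some w),
      (p : (plus G).Walk none (some w)).support = [none, some x.1, some w] := fun x =>
    exists_path2 (plus_ns G x.1) (plus_ss.2 x.2.symm) (by simp)
  choose P hP using hpath
  let q : (plus G).Path none (some w) := SimpleGraph.Path.singleton (plus_ns G w)
  have hq : (q : (plus G).Walk none (some w)).support = [none, some w] := rfl
  have : Fintype (G.neighborSet w) := Fintype.ofFinite _
  have hq2 : ∀ x, q ≠ P x := by
    intro x he
    have h1 := hP x
    rw [← he, hq] at h1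
    simp at h1
  refine HasPaths.of_fintype (ι := Option (G.neighborSet w)) (fun o => o.elim q P) ?_ (by
    rw [Fintype.card_option, ← Nat.card_eq_fintype_card]
    exact le_rfl)
  intro i j hij
  rcases i with _ | i <;> rcases j with _ | j
  · exact absurd rfl hij
  · refine ⟨hq2 j, fun x hx _ => ?_⟩
    simp only [Option.elim_none] at hx
    rw [hq] at hx
    simpa using hx
  · refine ⟨(hq2 i).symm, fun x _ hx => ?_⟩
    simp only [Option.elim_none] at hx
    rw [hq] at hx
    simpa using hx
  · have hij' : i ≠ j := fun h => hij (by rw [h])
    have hij2 : i.1 ≠ j.1 := fun h => hij' (Subtype.ext h)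
    refine ⟨?_, ?_⟩
    · intro he
      have h1 := hP i
      simp only [Option.elim_some] at he
      rw [he, hP j] at h1
      simp only [List.cons.injEq, Option.some.injEq, and_true, true_and] at h1
      exact hij2 h1.symm
    · intro x hx hy
      simp only [Option.elim_some] at hx hy
      rw [hP] at hx hy
      simp only [List.mem_cons, List.not_mem_nil, or_false] at hx hy
      rcases hx with rfl | rfl | rfl
      · exact Or.inl rfl
      · rcases hy with h | h | h
        · exact Or.inl h
        · exact absurd (Option.some_injective _ h) hij2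
        · exact Or.inr h
      · exact Or.inr rfl

theorem ideal_plus [Finite V] (h : Ideal G) : Ideal (plus G) := by
  have hle : ∀ v : V, (G.neighborSet v).ncard + 1 ≤ Nat.card V := by
    intro v
    have : (G.neighborSet v).ncard < (Set.univ : Set V).ncard := by
      apply Set.ncard_lt_ncard _ (Set.toFinite _)
      rw [Set.ssubset_univ_iff]
      intro h
      have : v ∈ G.neighborSet v := by rw [h]; trivial
      exact G.loopless.irrefl v this
    rw [Set.ncard_univ] at this
    exact this
  rintro (_ | v) (_ | w) hvw
  · exact absurd rfl hvw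
  · rw [plus_ncard_none, plus_ncard_some, min_eq_right (hle w)]
    exact hasPaths_none w
  · rw [plus_ncard_none, plus_ncard_some, min_eq_left (hle v)]
    exact (hasPaths_none v).symm
  · have hvw' : v ≠ w := fun h => hvw (by rw [h])
    rw [plus_ncard_some, plus_ncard_some, Nat.add_min_add_right]
    exact hasPaths_plus hvw' (h v w hvw')

/-! ### The converse -/

lemma pull_walk : ∀ {a b : Option V} (p : (plus G).Walk a b) (v w : V), a = some v → b = some w →
    none ∉ p.support → ∃ q : G.Walk v w, q.support.map some = p.support := by
  intro a b p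
  induction p with
  | nil =>
    intro v w hv hw _
    subst hv
    obtain rfl : v = w := Option.some_injective _ hw
    exact ⟨Walk.nil, rfl⟩
  | @cons a c b h p ih =>
    intro v w hv hw hn
    subst hv
    rw [Walk.support_cons, List.mem_cons, not_or] at hn
    rcases c with _ | c
    · exact absurd p.start_mem_support hn.2
    · obtain ⟨q, hq⟩ := ih c w rfl hw hn.2
      have h' : G.Adj v c := h
      exact ⟨Walk.cons h' q, by rw [Walk.support_cons, Walk.support_cons, List.map_cons, hq]⟩

lemma hasPaths_of_plus {v w : V} {k : ℕ} (h : HasPaths (plus G) (some v) (some w) (k + 1)) :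
    HasPaths G v w k := by
  classical
  obtain ⟨P, hP⟩ := h
  -- all the paths but one avoid the new vertex
  obtain ⟨i0, hi0⟩ : ∃ i0, ∀ i, i ≠ i0 → none ∉ (P i : (plus G).Walk (some v) (some w)).support := by
    by_cases hex : ∃ i, none ∈ (P i : (plus G).Walk (some v) (some w)).support
    · obtain ⟨i0, hi0⟩ := hex
      refine ⟨i0, fun i hi hn => ?_⟩
      rcases (hP i i0 hi).2 _ hn hi0 with h | h <;> cases h
    · push Not at hex
      exact ⟨0, fun i _ => hex i⟩
  have hq : ∀ i : {i // i ≠ i0}, ∃ q : G.Path v w, (q : G.Walk v w).support.map some =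
      (P i : (plus G).Walk (some v) (some w)).support := by
    intro i
    obtain ⟨q, hq⟩ := pull_walk (P i : (plus G).Walk (some v) (some w)) v w rfl rfl (hi0 i i.2)
    refine ⟨⟨q, ?_⟩, hq⟩
    rw [Walk.isPath_def, ← List.nodup_map_iff (Option.some_injective V), hq, ← Walk.isPath_def]
    exact (P i).2
  choose Q hQ using hq
  refine HasPaths.of_fintype (ι := {i // i ≠ i0}) Q ?_ ?_
  · intro i j hij
    have hij' : i.1 ≠ j.1 := fun h => hij (Subtype.ext h)
    refine ⟨?_, ?_⟩
    · intro he
      apply (hP i j hij').1
      apply Subtype.ext
      apply Walk.ext_support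
      rw [← hQ i, ← hQ j, he]
    · intro x hx hy
      have h1 := (hP i j hij').2 (some x) (by rw [← hQ i]; exact List.mem_map_of_mem hx)
        (by rw [← hQ j]; exact List.mem_map_of_mem hy)
      simpa using h1
  · rw [Fintype.card_subtype_compl, Fintype.card_fin, Fintype.card_subtype_eq]
    omega

theorem ideal_of_plus [Finite V] (h : Ideal (plus G)) : Ideal G := by
  intro v w hvw
  have h1 := h (some v) (some w) (by simpa using hvw)
  rw [plus_ncard_some, plus_ncard_some, Nat.add_min_add_right] at h1
  exact hasPaths_of_plus h1

end Pool.Agent.AvgConn
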