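import Pool.Agent.Lib_helper36.AvgConn.Univ
import Pool.Agent.Lib_helper36.AvgConn.Red

/-!
# Sequences with many vertices adjacent to all others
-/

set_option autoImplicit false

namespace Pool.Agent.AvgConn

open SimpleGraph

/-- the sequence of a graph with one more universal vertex -/
def up (D : List ℕ) : List ℕ := D.length :: D.map (· + 1)

lemma up_length (D : List ℕ) : (up D).length = D.length + 1 := by simp [up]

lemma exists_equiv_up (D : List ℕ) : ∃ e : Fin (up D).length ≃ Option (Fin D.length),
    ∀ i, (up D)[i] = (e i).elim D.length fun x => D[x] + 1 := by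
  refine ⟨(finCongr (up_length D)).trans (finSuccEquiv D.length), ?_⟩
  rintro ⟨_ | i, hi⟩
  · rfl
  · have hi' : i < D.length := by rw [up_length] at hi; omega
    have h1 : ((finCongr (up_length D)).trans (finSuccEquiv D.length)) ⟨i + 1, hi⟩ =
        some ⟨i, hi'⟩ := by
      rw [Equiv.trans_apply]
      exact finSuccEquiv_succ (⟨i, hi'⟩ : Fin D.length)
    rw [h1]
    show (D.map (· + 1))[i]'(by simpa using hi') = D[i] + 1
    rw [List.getElem_map]

/-- a graph on another vertex set -/
lemma exists_graph' {V : Type} {D : List ℕ} (e : Fin D.length ≃ V) {G : SimpleGraph (Fin D.length)}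
    (hG : Realises D G) :
    ∃ H : SimpleGraph V, (∀ i, (H.neighborSet (e i)).ncard = D[i]) ∧ (Ideal G → Ideal H) := by
  let φ : G.comap e.symm ≃g G := SimpleGraph.Iso.comap e.symm G
  refine ⟨G.comap e.symm, ?_, fun hI => hI.map φ.symm⟩
  intro i
  rw [← ncard_map φ (e i), ← hG i]
  show (G.neighborSet (e.symm (e i))).ncard = _
  rw [Equiv.symm_apply_apply]

/-- a vertex of full degree is universal -/
lemma eq_plus {n : ℕ} (H : SimpleGraph (Option (Fin n))) (h : (H.neighborSet none).ncard = n) :
    H = plus (H.comap some) := by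
  have h1 : H.neighborSet none = {none}ᶜ := by
    apply Set.eq_of_subset_of_ncard_le _ _ (Set.toFinite _)
    · intro x hx
      rw [Set.mem_compl_iff, Set.mem_singleton_iff]
      rintro rfl
      exact H.loopless.irrefl _ hx
    · rw [h, Set.ncard_compl, Set.ncard_singleton, Nat.card_eq_fintype_card, Fintype.card_option,
        Fintype.card_fin]
      omega
  have h2 : ∀ v, H.Adj none (some v) := by
    intro v
    have : some v ∈ H.neighborSet none := by rw [h1]; simp
    exact this
  ext a b
  rcases a with _ | a <;> rcases b with _ | b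
  · exact ⟨fun h => (H.loopless.irrefl _ h).elim, fun h => h.elim⟩
  · exact ⟨fun _ => trivial, fun _ => h2 b⟩
  · exact ⟨fun _ => trivial, fun _ => (h2 a).symm⟩
  · exact Iff.rfl

lemma pairwise_up {D : List ℕ} (h : (up D).Pairwise (· ≥ ·)) : D.Pairwise (· ≥ ·) := by
  unfold up at h
  rw [List.pairwise_cons, List.pairwise_map] at h
  exact h.2.imp fun h => by omega

lemma up_pairwise {D : List ℕ} (h : Graphical D) : (up D).Pairwise (· ≥ ·) := by
  obtain ⟨h1, h2, G, hG⟩ := h
  unfold up
  rw [List.pairwise_cons, List.pairwise_map]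
  refine ⟨?_, h2.imp fun h => by omega⟩
  intro x hx
  rw [List.mem_map] at hx
  obtain ⟨d, hd, rfl⟩ := hx
  obtain ⟨i, hi, rfl⟩ := List.mem_iff_getElem.1 hd
  have h3 : (G.neighborSet ⟨i, hi⟩).ncard < (Set.univ : Set (Fin D.length)).ncard := by
    apply Set.ncard_lt_ncard _ (Set.toFinite _)
    rw [Set.ssubset_univ_iff]
    intro h
    have : (⟨i, hi⟩ : Fin D.length) ∈ G.neighborSet ⟨i, hi⟩ := by rw [h]; trivial
    exact G.loopless.irrefl _ this
  rw [Set.ncard_univ, Nat.card_eq_fintype_card, Fintype.card_fin, hG ⟨i, hi⟩] at h3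
  exact h3

theorem attainable_up {D : List ℕ} (hD : Graphical D) : Attainable (up D) ↔ Attainable D := by
  obtain ⟨e, he⟩ := exists_equiv_up D
  rw [attainable_iff, attainable_iff]
  constructor
  · rintro ⟨_, h2, G, hG, hI⟩
    obtain ⟨H, hH, hH'⟩ := exists_graph' e hG
    have h3 : (H.neighborSet none).ncard = D.length := by
      have := hH (e.symm none)
      rw [he, Equiv.apply_symm_apply] at this
      exact this
    have h4 := eq_plus H h3
    have h5 : Ideal (plus (H.comap some)) := by
      rw [← h4]
      exact hH' hI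
    refine ⟨hD.1, hD.2.1, H.comap some, ?_, ideal_of_plus h5⟩
    intro i
    have h6 := hH (e.symm (some i))
    rw [he, Equiv.apply_symm_apply, h4, plus_ncard_some] at h6
    simp only [Option.elim_some] at h6
    exact Nat.succ_injective h6
  · rintro ⟨_, h2, G, hG, hI⟩
    have hdeg : ∀ i, ((plus G).neighborSet (e i)).ncard = (up D)[i] := by
      intro i
      rw [he i]
      rcases e i with _ | x
      · rw [plus_ncard_none, Nat.card_eq_fintype_card, Fintype.card_fin]
        rfl
      · rw [plus_ncard_some, hG x]
        rfl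
    obtain ⟨H, hH, hH'⟩ := exists_graph e (plus G) hdeg
    refine ⟨?_, up_pairwise hD, H, hH, hH' (ideal_plus hI)⟩
    rw [up_length]
    have := hD.1
    omega

theorem graphical_up {D : List ℕ} (hD : Graphical D) : Graphical (up D) := by
  obtain ⟨e, he⟩ := exists_equiv_up D
  obtain ⟨h1, h2, G, hG⟩ := id hD
  have hdeg : ∀ i, ((plus G).neighborSet (e i)).ncard = (up D)[i] := by
    intro i
    rw [he i]
    rcases e i with _ | x
    · rw [plus_ncard_none, Nat.card_eq_fintype_card, Fintype.card_fin]
      rfl
    · rw [plus_ncard_some, hG x]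
      rfl
  obtain ⟨H, hH, _⟩ := exists_graph e (plus G) hdeg
  refine ⟨?_, up_pairwise hD, H, hH⟩
  rw [up_length]
  omega

/-- `T` universal vertices -/
def ups (T : ℕ) (D : List ℕ) : List ℕ :=
  List.replicate T (D.length + T - 1) ++ D.map fun d => d + T

lemma ups_length (T : ℕ) (D : List ℕ) : (ups T D).length = D.length + T := by
  simp [ups, Nat.add_comm]

lemma ups_eq {D : List ℕ} (hD : 1 ≤ D.length) (T : ℕ) : ups T D = up^[T] D := by
  induction T with
  | zero => simp [ups]
  | succ T ih =>
    rw [Function.iterate_succ_apply', ← ih]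
    unfold up
    rw [ups_length]
    unfold ups
    rw [List.map_append, List.map_replicate, List.map_map, List.replicate_succ, List.cons_append]
    congr 2
    congr 1
    omega

theorem attainable_ups {D : List ℕ} (hD : Graphical D) (T : ℕ) :
    Attainable (ups T D) ↔ Attainable D := by
  rw [ups_eq (by have := hD.1; omega)]
  have : ∀ T, Graphical (up^[T] D) ∧ (Attainable (up^[T] D) ↔ Attainable D) := by
    intro T
    induction T with
    | zero => exact ⟨hD, Iff.rfl⟩
    | succ T ih =>
      rw [Function.iterate_succ_apply']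
      exact ⟨graphical_up ih.1, (attainable_up ih.1).trans ih.2⟩
  exact (this T).2

theorem graphical_ups {D : List ℕ} (hD : Graphical D) (T : ℕ) : Graphical (ups T D) := by
  rw [ups_eq (by have := hD.1; omega)]
  induction T with
  | zero => exact hD
  | succ T ih =>
    rw [Function.iterate_succ_apply']
    exact graphical_up ih

open Pool.Agent.Poly

/-- **The reduction.** -/
theorem exists_reduction (t : ℕ) : ∃ R : ℕ × List ℕ → List ℕ, PolyTime R ∧
    (∀ I, Graphical (R I) ∧ ∀ d ∈ R I, t * (R I).length ≤ (t + 1) * d) ∧
    ∀ I, ThreePartition I ↔ Attainable (R I) := by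
  refine ⟨fun I => ups (t * (red I).length) (red I), ?_, fun I => ⟨?_, ?_⟩, fun I => ?_⟩
  · have h := pt_red
    unfold ups
    refine PolyTime.append (PolyTime.replicate (by fun_prop) (by fun_prop))
      (PolyTime.map (by fun_prop) (by fun_prop))
  · exact graphical_ups (red_graphical I) _
  · intro d hd
    have h1 : 2 ≤ (red I).length := (red_graphical I).1
    have h2 : t * (red I).length ≤ d := by
      unfold ups at hd
      rw [List.mem_append] at hd
      rcases hd with hd | hd
      · rw [List.eq_of_mem_replicate hd]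
        omega
      · obtain ⟨x, _, rfl⟩ := List.mem_map.1 hd
        omega
    rw [ups_length]
    calc t * ((red I).length + t * (red I).length) = (t + 1) * (t * (red I).length) := by ring
      _ ≤ (t + 1) * d := Nat.mul_le_mul_left _ h2
  · rw [red_iff, attainable_ups (red_graphical I)]

end Pool.Agent.AvgConn
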